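import Mathlib

set_option autoImplicit false

/-!
# Illumination of convex bodies: general tools

* `illum_of_normals`: a direction having negative product with all outer normals at `x`
  moves `x` into the interior.
* `cover_of_illum`: finitely many illuminating directions give a cover by the same number of
  translates of the interior.
-/

namespace Pool.Agent.Illum

open Set Filter Topology

variable {E : Type*} [NormedAddCommGroup E] [NormedSpace ℝ E]

/-- Separation criterion for illumination. -/
theorem illum_of_normals {K : Set E} (hK : Convex ℝ K) (hint : (interior K).Nonempty)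
    {x v : E} (h : ∀ f : E →L[ℝ] ℝ, f ≠ 0 → (∀ z ∈ K, f z ≤ f x) → f v < 0) :
    ∃ τ : ℝ, 0 < τ ∧ x + τ • v ∈ interior K := by
  by_contra hcon
  push Not at hcon
  by_cases hx : x ∈ interior K
  · have hcont : Tendsto (fun τ : ℝ => x + τ • v) (𝓝 0) (𝓝 (x + (0:ℝ) • v)) := by
      apply Continuous.tendsto
      fun_prop
    rw [zero_smul, add_zero] at hcont
    have h1 : ∀ᶠ τ in 𝓝[>] (0:ℝ), x + τ • v ∈ interior K :=
      (hcont.eventually (isOpen_interior.mem_nhds hx)).filter_mono nhdsWithin_le_nhds
    obtain ⟨τ, hτ, hτ0⟩ := (h1.and self_mem_nhdsWithin).exists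
    exact hcon τ hτ0 hτ
  · have hray : Convex ℝ {y : E | ∃ τ : ℝ, 0 ≤ τ ∧ y = x + τ • v} := by
      rintro y ⟨s, hs, rfl⟩ z ⟨t, ht, rfl⟩ a b ha hb hab
      refine ⟨a * s + b * t, by positivity, ?_⟩
      have : x = (a + b) • x := by rw [hab, one_smul]
      calc a • (x + s • v) + b • (x + t • v) = (a + b) • x + (a * s + b * t) • v := by
            module
        _ = x + (a * s + b * t) • v := by rw [← this]
    have hdisj : Disjoint (interior K) {y : E | ∃ τ : ℝ, 0 ≤ τ ∧ y = x + τ • v} := by
      rw [Set.disjoint_left]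
      rintro y hy ⟨τ, hτ, rfl⟩
      rcases hτ.lt_or_eq with h0 | h0
      · exact hcon τ h0 hy
      · rw [← h0, zero_smul, add_zero] at hy
        exact hx hy
    obtain ⟨f, u, hf1, hf2⟩ := geometric_hahn_banach_open hK.interior isOpen_interior hray hdisj
    have hxu : u ≤ f x := by
      have := hf2 x ⟨0, le_refl _, by simp⟩
      exact this
    have hfK : ∀ z ∈ K, f z ≤ f x := by
      intro z hz
      have hz' : z ∈ closure (interior K) := by
        rw [hK.closure_interior_eq_closure_of_nonempty_interior hint]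
        exact subset_closure hz
      have hcl : IsClosed {y | f y ≤ u} := isClosed_le f.continuous continuous_const
      have : z ∈ {y | f y ≤ u} := closure_minimal (fun y hy => (hf1 y hy).le) hcl hz'
      exact le_trans this hxu
    have hf0 : f ≠ 0 := by
      rintro rfl
      obtain ⟨a, ha⟩ := hint
      have h1 := hf1 a ha
      simp at h1 hxu
      linarith
    have hv := h f hf0 hfK
    -- go far along the ray
    have hτ0 : 0 ≤ (f x - u + 1) / (-(f v)) := div_nonneg (by linarith) (by linarith)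
    have h2 := hf2 _ ⟨(f x - u + 1) / (-(f v)), hτ0, rfl⟩
    rw [map_add, map_smul, smul_eq_mul] at h2
    have h3 : (f x - u + 1) / (-(f v)) * f v = -(f x - u + 1) := by
      have : f v ≠ 0 := hv.ne
      field_simp
    rw [h3] at h2
    linarith

/-- moving less far keeps us in the interior -/
lemma interior_of_le {K : Set E} (hK : Convex ℝ K) {y v : E} (hy : y ∈ K) {τ τ' : ℝ}
    (hτ : 0 < τ) (hτ' : τ ≤ τ') (h : y + τ' • v ∈ interior K) : y + τ • v ∈ interior K := by
  have h0 : 0 < τ' := lt_of_lt_of_le hτ hτ'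
  have h1 : τ / τ' ≤ 1 := (div_le_one h0).mpr hτ'
  have := hK.combo_interior_closure_mem_interior h (subset_closure hy) (a := τ / τ')
    (b := 1 - τ / τ') (by positivity) (by linarith) (by ring)
  have e : (τ / τ') • (y + τ' • v) + (1 - τ / τ') • y = y + τ • v := by
    have e1 : (τ / τ') • τ' • v = τ • v := by
      rw [smul_smul, div_mul_cancel₀ _ h0.ne']
    rw [smul_add, e1, sub_smul, one_smul]
    abel
  rwa [e] at this

/-- finitely many illuminating directions give a cover by translates of the interior -/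
theorem cover_of_illum {K : Set E} (hK : Convex ℝ K) (hcomp : IsCompact K) {ι : Type*}
    (S : Finset ι) (v : ι → E)
    (h : ∀ y ∈ K, ∃ i ∈ S, ∃ τ : ℝ, 0 < τ ∧ y + τ • v i ∈ interior K) :
    ∃ T : Finset E, T.card ≤ S.card ∧ K ⊆ ⋃ t ∈ T, (fun x => t + x) '' interior K := by
  classical
  have key : ∀ᶠ τ in 𝓝 (0:ℝ), ∀ y ∈ K, 0 < τ → ∃ i ∈ S, y + τ • v i ∈ interior K := by
    have := hcomp.eventually_forall_of_forall_eventually (x₀ := (0:ℝ))
      (P := fun τ y => y ∈ K → 0 < τ → ∃ i ∈ S, y + τ • v i ∈ interior K) ?_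
    · filter_upwards [this] with τ hτ y hy
      exact hτ y hy hy
    · intro y hy
      obtain ⟨i, hi, τ', hτ', hmem⟩ := h y hy
      have hcont : Continuous (fun z : ℝ × E => z.2 + τ' • v i) := by fun_prop
      have h1 : ∀ᶠ z : ℝ × E in 𝓝 (0, y), z.2 + τ' • v i ∈ interior K :=
        (hcont.tendsto (0, y)).eventually (isOpen_interior.mem_nhds hmem)
      have h2 : ∀ᶠ z : ℝ × E in 𝓝 (0, y), z.1 < τ' :=
        (continuous_fst.tendsto ((0:ℝ), y)).eventually (eventually_lt_nhds hτ')
      filter_upwards [h1, h2] with z hz1 hz2 hzK hz0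
      exact ⟨i, hi, interior_of_le hK hzK hz0 hz2.le hz1⟩
  have key' : ∀ᶠ τ in 𝓝[>] (0:ℝ), ∀ y ∈ K, 0 < τ → ∃ i ∈ S, y + τ • v i ∈ interior K :=
    key.filter_mono nhdsWithin_le_nhds
  obtain ⟨τ, hτ, hτ0⟩ := (key'.and self_mem_nhdsWithin).exists
  refine ⟨S.image (fun i => -(τ • v i)), Finset.card_image_le, ?_⟩
  intro y hy
  obtain ⟨i, hi, hmem⟩ := hτ y hy hτ0
  simp only [mem_iUnion]
  refine ⟨-(τ • v i), Finset.mem_image_of_mem _ hi, y + τ • v i, hmem, ?_⟩
  simp only
  abel

end Pool.Agent.Illum
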