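import Pool.Agent.Illum.RotLin
import Pool.Agent.Hadwiger.Basic

set_option autoImplicit false
set_option linter.unusedSectionVars false
set_option linter.style.longLine false

/-!
# Affine maps of finite order in dimension three: the axis, and transfer
-/

namespace Pool.Agent.Illum.RotLin

open Finset Pool.Agent.Illum.Rot

section linear

variable {E : Type*} [AddCommGroup E] [Module ℝ E]

/-- The axis. -/
lemma exists_axis (hd : Module.finrank ℝ E = 3) {A : E →ₗ[ℝ] E} {N : ℕ} (hN : 0 < N)
    (hA : A ^ N = 1) (hdet : 0 < LinearMap.det A) {C S : E} {c s : ℝ}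
    (hcs : c * c + s * s = 1)
    (hli : LinearIndependent ℝ ![C, S]) (hC : A C = c • C + s • S) (hS : A S = c • S - s • C) :
    ∃ v : E, v ≠ 0 ∧ A v = v := by
  have hNR : (N : ℝ) ≠ 0 := by exact_mod_cast hN.ne'
  have : FiniteDimensional ℝ E := Module.finite_of_finrank_pos (by omega)
  set P : Submodule ℝ E := Submodule.span ℝ (Set.range ![C, S]) with hP
  have hPdim : Module.finrank ℝ P = 2 := by
    rw [hP, finrank_span_eq_card hli, Fintype.card_fin]
  have hPlt : P ≠ ⊤ := by
    intro h
    rw [h, finrank_top, hd] at hPdim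
    omega
  obtain ⟨y, hy⟩ : ∃ y, y ∉ P := by
    by_contra hcon
    push Not at hcon
    exact hPlt (Submodule.eq_top_iff'.mpr hcon)
  have hCP : C ∈ P := Submodule.subset_span ⟨0, rfl⟩
  have hSP : S ∈ P := Submodule.subset_span ⟨1, rfl⟩
  have hPA : ∀ x ∈ P, A x ∈ P := by
    intro x hx
    have hmem : x ∈ P.comap A := by
      have : P ≤ P.comap A := by
        rw [hP, Submodule.span_le]
        rintro _ ⟨i, rfl⟩
        fin_cases i
        · show A C ∈ P
          rw [hC]; exact P.add_mem (P.smul_mem _ hCP) (P.smul_mem _ hSP)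
        · show A S ∈ P
          rw [hS]; exact P.sub_mem (P.smul_mem _ hSP) (P.smul_mem _ hCP)
      exact this hx
    exact hmem
  have hli3 : LinearIndependent ℝ ![C, S, y] := by
    rw [Fintype.linearIndependent_iff]
    intro g hg
    rw [Fin.sum_univ_three] at hg
    simp only [Matrix.cons_val_zero, Matrix.cons_val_one, Matrix.cons_val] at hg
    have h2 : g 2 = 0 := by
      by_contra h0
      apply hy
      have : y = (g 2)⁻¹ • (-(g 0 • C + g 1 • S)) := by
        rw [eq_inv_smul_iff₀ h0]
        exact (neg_eq_of_add_eq_zero_right hg).symm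
      rw [this]
      exact P.smul_mem _ (P.neg_mem (P.add_mem (P.smul_mem _ hCP) (P.smul_mem _ hSP)))
    rw [h2, zero_smul, add_zero] at hg
    have := LinearIndependent.pair_iff.mp hli _ _ hg
    intro i
    fin_cases i
    · exact this.1
    · exact this.2
    · exact h2
  set b := basisOfLinearIndependentOfCardEqFinrank hli3 (by rw [hd, Fintype.card_fin]) with hb
  have hb0 : b 0 = C := by rw [hb]; simp
  have hb1 : b 1 = S := by rw [hb]; simp
  have hb2 : b 2 = y := by rw [hb]; simp
  have hdet2 : LinearMap.det A = b.repr (A y) 2 := by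
    rw [← LinearMap.det_toMatrix b, Matrix.det_fin_three]
    simp only [LinearMap.toMatrix_apply, hb0, hb1, hb2]
    have e1 : b.repr (A C) = c • Finsupp.single 0 1 + s • Finsupp.single 1 1 := by
      rw [hC, map_add, map_smul, map_smul, ← hb0, ← hb1, b.repr_self, b.repr_self]
    have e2 : b.repr (A S) = c • Finsupp.single 1 1 - s • Finsupp.single 0 1 := by
      rw [hS, map_sub, map_smul, map_smul, ← hb0, ← hb1, b.repr_self, b.repr_self]
    rw [e1, e2]
    simp
    linear_combination (b.repr (A y) 2) * hcs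
  have hone : LinearMap.det A = 1 := by
    have h1 : LinearMap.det A ^ N = 1 := by
      rw [← map_pow, hA, map_one]
    exact (pow_eq_one_iff_of_nonneg hdet.le hN.ne').mp h1
  have hAy : A y - y ∈ P := by
    have h1 := b.sum_repr (A y)
    rw [Fin.sum_univ_three, hb0, hb1, hb2, ← hdet2, hone, one_smul] at h1
    have : A y - y = b.repr (A y) 0 • C + b.repr (A y) 1 • S := by
      rw [sub_eq_iff_eq_add]
      exact h1.symm
    rw [this]
    exact P.add_mem (P.smul_mem _ hCP) (P.smul_mem _ hSP)
  have hpow : ∀ j : ℕ, (A ^ j) y - y ∈ P := by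
    intro j
    induction j with
    | zero => simp
    | succ j ih =>
      rw [← A_pow_succ]
      have : A ((A ^ j) y) - y = A ((A ^ j) y - y) + (A y - y) := by
        rw [map_sub]; abel
      rw [this]
      exact P.add_mem (hPA _ ih) hAy
  refine ⟨∑ j ∈ range N, (A ^ j) y, ?_, ?_⟩
  · intro h0
    have h1 : ∑ j ∈ range N, ((A ^ j) y - y) ∈ P := P.sum_mem (fun j _ => hpow j)
    rw [sum_sub_distrib, h0, zero_sub, sum_const, card_range] at h1
    have h2 : (N : ℝ) • y ∈ P := by
      have := P.neg_mem h1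
      rw [neg_neg] at this
      rwa [Nat.cast_smul_eq_nsmul]
    exact hy ((P.smul_mem_iff hNR).mp h2)
  · have h1 := shift_sum hA y (fun _ => 1) rfl
    simp only [one_smul] at h1
    rw [map_sum]
    simp only [A_pow_succ]
    exact h1

/-- The linear isomorphism adapted to the rotation. -/
lemma exists_coord (hd : Module.finrank ℝ E = 3) {A : E →ₗ[ℝ] E} {N : ℕ} (hN : 0 < N)
    (hA : A ^ N = 1) (hdet : 0 < LinearMap.det A) (h2 : ∃ x, A (A x) ≠ x) :
    ∃ (n : ℕ) (m : ℕ) (L : (ℂ × ℝ) ≃ₗ[ℝ] E), 3 ≤ n ∧
      ∀ x : ℂ × ℝ, (A ^ m) (L x) = L (zt n * x.1, x.2) := by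
  have : FiniteDimensional ℝ E := Module.finite_of_finrank_pos (by omega)
  obtain ⟨k, C, S, hs, hli, hC, hS⟩ := exists_plane hN hA h2
  set c : ℝ := Real.cos (2 * Real.pi * k / N) with hc
  set s : ℝ := Real.sin (2 * Real.pi * k / N) with hsdef
  have hcs : c * c + s * s = 1 := by
    have := Real.sin_sq_add_cos_sq (2 * Real.pi * k / N)
    rw [← hc, ← hsdef] at this
    nlinarith
  obtain ⟨v, hv0, hv⟩ := exists_axis hd hN hA hdet hcs hli hC hS
  -- the linear map
  set L0 : (ℂ × ℝ) →ₗ[ℝ] E :=
    (LinearMap.toSpanSingleton ℝ E C).comp (Complex.reLm.comp (LinearMap.fst ℝ ℂ ℝ)) +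
    (LinearMap.toSpanSingleton ℝ E S).comp (Complex.imLm.comp (LinearMap.fst ℝ ℂ ℝ)) +
    (LinearMap.toSpanSingleton ℝ E v).comp (LinearMap.snd ℝ ℂ ℝ) with hL0
  have hL0a : ∀ x : ℂ × ℝ, L0 x = x.1.re • C + x.1.im • S + x.2 • v := by
    intro x
    simp [hL0]
  set z : ℂ := ⟨c, s⟩ with hz
  have hAL : ∀ x : ℂ × ℝ, A (L0 x) = L0 (z * x.1, x.2) := by
    intro x
    rw [hL0a, hL0a, map_add, map_add, map_smul, map_smul, map_smul, hC, hS, hv]
    simp only [Complex.mul_re, Complex.mul_im, hz]
    module
  have hpow : ∀ (j : ℕ) (x : ℂ × ℝ), (A ^ j) (L0 x) = L0 (z ^ j * x.1, x.2) := by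
    intro j
    induction j with
    | zero => intro x; simp
    | succ j ih =>
      intro x
      rw [← A_pow_succ, ih, hAL]
      congr 2
      ring
  have hinj : Function.Injective L0 := by
    rw [← LinearMap.ker_eq_bot, LinearMap.ker_eq_bot']
    intro x hx
    have h1 : A (L0 x) - L0 x = 0 := by rw [hx, map_zero, sub_zero]
    have h3 : ((c - 1) * x.1.re - s * x.1.im) • C + ((c - 1) * x.1.im + s * x.1.re) • S = 0 := by
      rw [← h1, hAL, hL0a, hL0a]
      simp only [Complex.mul_re, Complex.mul_im, hz]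
      module
    obtain ⟨h4, h5⟩ := LinearIndependent.pair_iff.mp hli _ _ h3
    have hpos : 0 < (c - 1) * (c - 1) + s * s := by
      have : 0 < s * s := mul_self_pos.mpr hs
      nlinarith [mul_self_nonneg (c - 1)]
    have h6 : x.1.re = 0 := by
      have : ((c - 1) * (c - 1) + s * s) * x.1.re = 0 := by
        linear_combination (c - 1) * h4 + s * h5
      exact (mul_eq_zero.mp this).resolve_left hpos.ne'
    have h7 : x.1.im = 0 := by
      have : ((c - 1) * (c - 1) + s * s) * x.1.im = 0 := by
        linear_combination (c - 1) * h5 - s * h4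
      exact (mul_eq_zero.mp this).resolve_left hpos.ne'
    rw [hL0a, h6, h7, zero_smul, zero_smul, zero_add, zero_add] at hx
    have h8 : x.2 = 0 := (smul_eq_zero.mp hx).resolve_right hv0
    exact Prod.ext (Complex.ext h6 h7) h8
  have hfin : Module.finrank ℝ (ℂ × ℝ) = Module.finrank ℝ E := by
    rw [hd, Module.finrank_prod, Complex.finrank_real_complex, Module.finrank_self]
  set L := LinearEquiv.ofInjectiveOfFinrankEq L0 hinj hfin with hL
  have hLa : ∀ x, L x = L0 x := fun x => rfl
  -- the order
  have hzN : z ^ N = 1 := by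
    have h1 := hpow N (1, 0)
    rw [hA] at h1
    have h3 : ((1 : ℂ), (0 : ℝ)) = (z ^ N * 1, 0) := hinj h1
    have h4 := (Prod.mk.inj h3).1
    rw [mul_one] at h4
    exact h4.symm
  have hprim := IsPrimitiveRoot.orderOf z
  set n := orderOf z with hn
  have hn0 : 0 < n := orderOf_pos_iff.mpr (isOfFinOrder_iff_pow_eq_one.mpr ⟨N, hN, hzN⟩)
  have hn3 : 3 ≤ n := by
    by_contra hlt
    have h1 : z ^ 2 = 1 := by
      have h3 : n ∣ 2 := by
        have : n = 1 ∨ n = 2 := by omega
        rcases this with h | h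
        · rw [h]; norm_num
        · rw [h]
      exact (hprim.pow_eq_one_iff_dvd 2).mpr h3
    have h4 : (z - 1) * (z + 1) = 0 := by linear_combination h1
    rcases mul_eq_zero.mp h4 with h5 | h5
    · have := congrArg Complex.im h5
      simp [hz] at this
      exact hs this
    · have := congrArg Complex.im h5
      simp [hz] at this
      exact hs this
  have hnz : NeZero n := ⟨hn0.ne'⟩
  obtain ⟨m, _, hm⟩ := hprim.eq_pow_of_pow_eq_one (zt_prim hn0.ne').pow_eq_one
  refine ⟨n, m, L, hn3, ?_⟩
  intro x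
  rw [hLa, hLa, hpow, hm]

end linear

section affine

variable {E : Type*} [NormedAddCommGroup E] [NormedSpace ℝ E]

/-- Covering of three-dimensional bodies with an orientation-preserving affine symmetry of finite
order different from `1` and `2`. -/
theorem cover_affine (hd : Module.finrank ℝ E = 3) {K : Set E}
    (hconv : Convex ℝ K) (hcomp : IsCompact K) (hint : (interior K).Nonempty)
    (g : E →ᵃ[ℝ] E) (hg : ∀ x ∈ K, g x ∈ K) (hdet : 0 < LinearMap.det g.linear)
    (N : ℕ) (hN : 0 < N) (hord : ∀ x, g^[N] x = x) (hne : ∃ x, g (g x) ≠ x) :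
    ∃ T : Finset E, T.card ≤ 8 ∧ K ⊆ ⋃ t ∈ T, (fun x => t + x) '' interior K := by
  have : FiniteDimensional ℝ E := Module.finite_of_finrank_pos (by omega)
  have hNR : (N : ℝ) ≠ 0 := by exact_mod_cast hN.ne'
  set A : E →ₗ[ℝ] E := g.linear with hA
  have hgA : ∀ x, g x = A x + g 0 := by
    intro x
    have := congrFun (AffineMap.decomp g) x
    simpa using this
  -- the fixed point
  set c : E := (N : ℝ)⁻¹ • ∑ j ∈ range N, g^[j] 0 with hc
  have hgc : g c = c := by
    have h1 : ∑ j ∈ range N, g^[j + 1] 0 = ∑ j ∈ range N, g^[j] 0 := by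
      have h2 := sum_range_succ (fun j => g^[j] 0) N
      rw [sum_range_succ' (fun j => g^[j] 0) N] at h2
      simp only [hord, Function.iterate_zero, id_eq] at h2
      exact add_right_cancel h2
    have h3 : ∑ j ∈ range N, g^[j + 1] 0 = A (∑ j ∈ range N, g^[j] 0) + (N : ℝ) • g 0 := by
      have h0 : (N : ℝ) • g 0 = ∑ _j ∈ range N, g 0 := by
        rw [sum_const, card_range, Nat.cast_smul_eq_nsmul]
      rw [map_sum, h0, ← sum_add_distrib]
      apply sum_congr rfl
      intro j _
      rw [Function.iterate_succ_apply', hgA]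
    rw [hgA, hc, map_smul]
    rw [h1] at h3
    have h4 : (N : ℝ)⁻¹ • ∑ j ∈ range N, g^[j] 0 =
        (N : ℝ)⁻¹ • (A (∑ j ∈ range N, g^[j] 0) + (N : ℝ) • g 0) := by rw [← h3]
    rw [h4, smul_add, smul_smul, inv_mul_cancel₀ hNR, one_smul]
  have hgu : ∀ u, g (u + c) = A u + c := by
    intro u
    have h1 := hgc
    rw [hgA] at h1
    rw [hgA, map_add, add_assoc, h1]
  have hgj : ∀ (j : ℕ) (u : E), g^[j] (u + c) = (A ^ j) u + c := by
    intro j
    induction j with
    | zero => intro u; simp
    | succ j ih =>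
      intro u
      rw [Function.iterate_succ_apply', ih, hgu, A_pow_succ]
  have hAN : A ^ N = 1 := by
    ext u
    have h1 := hord (u + c)
    rw [hgj] at h1
    exact add_right_cancel h1
  have hA2 : ∃ x, A (A x) ≠ x := by
    obtain ⟨x, hx⟩ := hne
    refine ⟨x - c, fun h => hx ?_⟩
    have h1 : x = (x - c) + c := by abel
    rw [h1, hgu, hgu, h]
  obtain ⟨n, m, L, hn, hL⟩ := exists_coord hd hN hAN hdet hA2
  set M : (ℂ × ℝ) ≃L[ℝ] E := L.toContinuousLinearEquiv with hM
  have hMa : ∀ x, M x = L x := fun x => rfl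
  apply Pool.Agent.Hadwiger.cover_transfer M c 8 K
  set φ := M.toHomeomorph.trans (Homeomorph.addRight c) with hφ
  have hφa : ∀ x, φ x = M x + c := fun x => rfl
  have hbody : Body n (φ ⁻¹' K) := by
    refine ⟨?_, ?_, ?_, ?_⟩
    · intro x hx y hy s t hs ht hst
      simp only [Set.mem_preimage, hφa] at hx hy ⊢
      have h1 := hconv hx hy hs ht hst
      have h2 : M (s • x + t • y) + c = s • (M x + c) + t • (M y + c) := by
        rw [map_add, map_smul, map_smul, smul_add, smul_add]
        have : c = s • c + t • c := by rw [← add_smul, hst, one_smul]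
        nth_rewrite 1 [this]
        abel
      rw [h2]; exact h1
    · rw [Homeomorph.isCompact_preimage]; exact hcomp
    · rw [← φ.preimage_interior]
      obtain ⟨a, ha⟩ := hint
      exact ⟨φ.symm a, by simpa using ha⟩
    · intro x hx
      simp only [Set.mem_preimage, hφa] at hx ⊢
      have hgm : ∀ (j : ℕ) (y : E), y ∈ K → g^[j] y ∈ K := by
        intro j
        induction j with
        | zero => intro y hy; simpa using hy
        | succ j ih =>
          intro y hy
          rw [Function.iterate_succ_apply']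
          exact hg _ (ih y hy)
      have h1 := hgm m _ hx
      rw [hgj, hMa, hL] at h1
      exact h1
  exact cover_rot hn hbody

end affine

end Pool.Agent.Illum.RotLin
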