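import Pool.Agent.Illum.RotCore

set_option autoImplicit false
set_option linter.unusedSectionVars false
set_option linter.style.longLine false

/-!
# Balanced bodies in `ℂ × ℝ`
-/

namespace Pool.Agent.Illum.Rot

open Set Filter Topology Complex

/-- a convex body whose horizontal sections are balanced around the axis -/
structure Bal (K : Set (ℂ × ℝ)) (zm zM c0 : ℝ) : Prop where
  conv : Convex ℝ K
  comp : IsCompact K
  int : ((0 : ℂ), c0) ∈ interior K
  bot : ((0 : ℂ), zm) ∈ K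
  top : ((0 : ℂ), zM) ∈ K
  le : ∀ x ∈ K, zm ≤ x.2 ∧ x.2 ≤ zM
  nonneg : ∀ x ∈ K, ∀ p s, Nrm K x p s → 0 ≤ dt p x.1

variable {K : Set (ℂ × ℝ)} {zm zM c0 : ℝ}

/-- the value of a normal functional is larger at the supported point than at interior points -/
lemma lt_of_interior {o x : ℂ × ℝ} (ho : o ∈ interior K) {p : ℂ} {s : ℝ}
    (hps : p ≠ 0 ∨ s ≠ 0) (h : Nrm K x p s) : dt p o.1 + s * o.2 < dt p x.1 + s * x.2 := by
  have hcont : Continuous (fun ε : ℝ => o + ε • (p, s)) := by fun_prop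
  have h1 : Tendsto (fun ε : ℝ => o + ε • (p, s)) (𝓝 0) (𝓝 o) := by
    have := hcont.tendsto 0
    simpa using this
  have h2 : ∀ᶠ ε in 𝓝[>] (0:ℝ), o + ε • (p, s) ∈ interior K :=
    (h1.eventually (isOpen_interior.mem_nhds ho)).filter_mono nhdsWithin_le_nhds
  obtain ⟨ε, hε, hε0⟩ := (h2.and self_mem_nhdsWithin).exists
  have hε0' : 0 < ε := hε0
  have h3 := h _ (interior_subset hε)
  simp only [Prod.fst_add, Prod.smul_mk, Prod.snd_add, dt_add, dt_smul, smul_eq_mul] at h3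
  have h4 : 0 < dt p p + s * s := by
    rcases hps with hp | hs
    · have := dt_self_pos hp
      nlinarith [mul_self_nonneg s]
    · have h5 : 0 < s * s := mul_self_pos.mpr hs
      have h6 : 0 ≤ dt p p := by rw [dt_self]; exact normSq_nonneg _
      linarith
  nlinarith [mul_pos hε0' h4]

namespace Bal

variable (B : Bal K zm zM c0)
include B

lemma hint : (interior K).Nonempty := ⟨_, B.int⟩

lemma val {x : ℂ × ℝ} {p : ℂ} {s : ℝ} (hps : p ≠ 0 ∨ s ≠ 0) (h : Nrm K x p s) :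
    s * c0 < dt p x.1 + s * x.2 := by
  have := lt_of_interior B.int hps h
  simpa [dt_zero] using this

lemma zm_lt : zm < c0 := by
  have h1 := B.le _ (interior_subset B.int)
  rcases h1.1.lt_or_eq with h | h
  · exact h
  · exfalso
    have h2 : Nrm K ((0:ℂ), c0) 0 (-1) := by
      intro y hy
      have := (B.le y hy).1
      simp only [zero_dt]
      linarith
    have := B.val (by right; norm_num) h2
    simp [dt_zero] at this

lemma lt_zM : c0 < zM := by
  have h1 := B.le _ (interior_subset B.int)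
  rcases h1.2.lt_or_eq with h | h
  · exact h
  · exfalso
    have h2 : Nrm K ((0:ℂ), c0) 0 1 := by
      intro y hy
      have := (B.le y hy).2
      simp only [zero_dt]
      linarith
    have := B.val (by right; norm_num) h2
    simp [dt_zero] at this

lemma zm_lt_zM : zm < zM := B.zm_lt.trans B.lt_zM

/-- a normal whose horizontal part does not see `x.1` is only possible at the two ends -/
lemma end_of_zero {x : ℂ × ℝ} (hx : x ∈ K) {p : ℂ} {s : ℝ} (hps : p ≠ 0 ∨ s ≠ 0)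
    (h : Nrm K x p s) (h0 : dt p x.1 = 0) : (x.2 = zM ∧ 0 < s) ∨ (x.2 = zm ∧ s < 0) := by
  have h1 := B.val hps h
  rw [h0, zero_add] at h1
  have h2 := h _ B.top
  have h3 := h _ B.bot
  simp only [dt_zero, h0, zero_add] at h2 h3
  have h4 := B.le x hx
  rcases lt_trichotomy s 0 with hs | hs | hs
  · right
    refine ⟨?_, hs⟩
    have : x.2 ≤ zm := by
      by_contra hcon
      nlinarith [not_le.mp hcon]
    linarith
  · subst hs
    simp at h1
  · left
    refine ⟨?_, hs⟩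
    have : zM ≤ x.2 := by
      by_contra hcon
      nlinarith [not_le.mp hcon]
    linarith

lemma pos_of_not_end {x : ℂ × ℝ} (hx : x ∈ K) {p : ℂ} {s : ℝ} (hps : p ≠ 0 ∨ s ≠ 0)
    (h : Nrm K x p s) (h1 : x.2 = zM → s ≤ 0) (h2 : x.2 = zm → 0 ≤ s) : 0 < dt p x.1 := by
  rcases (B.nonneg x hx p s h).lt_or_eq with h3 | h3
  · exact h3
  · exfalso
    rcases B.end_of_zero hx hps h h3.symm with ⟨h4, h5⟩ | ⟨h4, h5⟩
    · have := h1 h4
      linarith
    · have := h2 h4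
      linarith

lemma mem_int_of_axis {x : ℂ × ℝ} (hx : x ∈ K) (h0 : x.1 = 0) (h1 : x.2 ≠ zM) (h2 : x.2 ≠ zm) :
    x ∈ interior K := by
  have h3 : Ill K x 0 := by
    apply ill_of_nrm B.conv B.hint
    intro p s hps hn
    exfalso
    have h4 : dt p x.1 = 0 := by rw [h0, dt_zero]
    rcases B.end_of_zero hx hps hn h4 with h5 | h5
    · exact h1 h5.1
    · exact h2 h5.1
  obtain ⟨τ, _, h4⟩ := h3
  simpa using h4

end Bal

/-- the family lemma -/
lemma fam_local (hK : Convex ℝ K) (hint : (interior K).Nonempty) {x : ℂ × ℝ} (σ : ℝ)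
    (R : Finset ℕ) (v : ℕ → ℂ) (S : ℕ → Set ℂ) (hS : ∀ k, IsClosed (S k))
    (hcov : ∀ w, ∃ k ∈ R, w ∈ S k)
    (hC : ∀ᶠ y in 𝓝 x, y ∈ K → ∀ k ∈ R, y.1 ∈ S k → ∀ p s, Nrm K y p s → 0 ≤ dt p (v k))
    (hN : ∀ k ∈ R, x.1 ∈ S k → ∀ p s, (p ≠ 0 ∨ s ≠ 0) → Nrm K x p s → 0 ≤ σ * s →
      0 < dt p (v k)) :
    ∀ᶠ z : ℝ × (ℂ × ℝ) in 𝓝 (0, x), 0 < z.1 → z.2 ∈ K →
      ∃ k ∈ R, Ill K z.2 (-(v k), σ * z.1) := by
  have h1 : ∀ k ∈ R, ∀ᶠ z : ℝ × (ℂ × ℝ) in 𝓝 (0, x), 0 < z.1 → z.2.1 ∈ S k →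
      (∀ p s, Nrm K z.2 p s → 0 ≤ dt p (v k)) → Ill K z.2 (-(v k), σ * z.1) := by
    intro k hk
    by_cases hx : x.1 ∈ S k
    · filter_upwards [local_ill hK hint σ (hN k hk hx)] with z hz h0 _ h2
      exact hz h0 h2
    · have hcont : Continuous (fun z : ℝ × (ℂ × ℝ) => z.2.1) := by fun_prop
      have h2 : ∀ᶠ z : ℝ × (ℂ × ℝ) in 𝓝 (0, x), z.2.1 ∈ (S k)ᶜ :=
        (hcont.tendsto (0, x)).eventually ((hS k).isOpen_compl.mem_nhds hx)
      filter_upwards [h2] with z hz _ h3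
      exact absurd h3 hz
  have h2 : ∀ᶠ z : ℝ × (ℂ × ℝ) in 𝓝 (0, x), ∀ k ∈ R, 0 < z.1 → z.2.1 ∈ S k →
      (∀ p s, Nrm K z.2 p s → 0 ≤ dt p (v k)) → Ill K z.2 (-(v k), σ * z.1) := by
    rw [Filter.eventually_all_finset]
    exact h1
  have h3 : ∀ᶠ z : ℝ × (ℂ × ℝ) in 𝓝 (0, x), z.2 ∈ K → ∀ k ∈ R, z.2.1 ∈ S k →
      ∀ p s, Nrm K z.2 p s → 0 ≤ dt p (v k) := by
    have hcont : Continuous (fun z : ℝ × (ℂ × ℝ) => z.2) := by fun_prop
    exact (hcont.tendsto (0, x)).eventually hC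
  filter_upwards [h2, h3] with z hz2 hz3 h0 hzK
  obtain ⟨k, hk, hkS⟩ := hcov z.2.1
  exact ⟨k, hk, hz2 k hk h0 hkS (hz3 hzK k hk hkS)⟩

/-- a maximal direction in an orbit of a root of unity -/
lemma exists_max_dir {ζ : ℂ} {m : ℕ} (hm : 0 < m) (hζ : ζ ^ m = 1) (q w : ℂ) :
    ∃ k ∈ Finset.range m, ∀ j : ℕ, dt (ζ ^ j * q) w ≤ dt (ζ ^ k * q) w := by
  obtain ⟨k, hk, hk2⟩ := Finset.exists_max_image (Finset.range m) (fun k => dt (ζ ^ k * q) w)
    ⟨0, Finset.mem_range.mpr hm⟩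
  refine ⟨k, hk, fun j => ?_⟩
  have h1 : ζ ^ j = ζ ^ (j % m) := by
    conv_lhs => rw [← Nat.div_add_mod j m, pow_add, pow_mul, hζ, one_pow, one_mul]
  rw [h1]
  exact hk2 _ (Finset.mem_range.mpr (Nat.mod_lt _ hm))

lemma dt_mul_left (ρ v w : ℂ) : dt (ρ * v) w = ρ.re * dt v w + ρ.im * dt (I * v) w := by
  simp only [dt, mul_re, mul_im, I_re, I_im]; ring

/-- the basic identity -/
lemma dt_identity (p v w : ℂ) :
    normSq w * dt p v = dt v w * dt p w - dt (I * v) w * dt p (I * w) := by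
  simp only [dt, mul_re, mul_im, I_re, I_im, normSq_apply]; ring

/-- if `w` is within 45 degrees of `v` -/
lemma dt_nonneg_of_sec {p v w : ℂ} (hw : w ≠ 0) {κ : ℝ} (hκ : κ ≤ 1)
    (h1 : |dt (I * v) w| ≤ κ * dt v w) (hv : 0 ≤ dt v w)
    (h2 : |dt p (I * w)| ≤ dt p w) : 0 ≤ dt p v := by
  have h3 := dt_identity p v w
  have h4 : 0 < normSq w := normSq_pos.mpr hw
  have h5 : |dt (I * v) w| * |dt p (I * w)| ≤ dt v w * dt p w := by
    apply mul_le_mul _ h2 (abs_nonneg _) hv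
    exact h1.trans (by nlinarith)
  have h6 : dt (I * v) w * dt p (I * w) ≤ |dt (I * v) w| * |dt p (I * w)| := by
    rw [← abs_mul]; exact le_abs_self _
  have h7 : 0 ≤ normSq w * dt p v := by rw [h3]; linarith
  exact nonneg_of_mul_nonneg_right h7 h4

lemma dt_pos_of_sec {p v w : ℂ} (hw : w ≠ 0)
    (h1 : |dt (I * v) w| ≤ dt v w)
    (h2 : |dt p (I * w)| ≤ dt p w) (h3 : 0 < dt p w)
    (h4 : |dt (I * v) w| = dt v w → |dt p (I * w)| = dt p w → False) (hv : v ≠ 0) :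
    0 < dt p v := by
  have h5 := dt_identity p v w
  have h6 : 0 < normSq w := normSq_pos.mpr hw
  have h7 : 0 ≤ dt v w := (abs_nonneg _).trans h1
  have hvw : 0 < dt v w := by
    rcases h7.lt_or_eq with h | h
    · exact h
    · exfalso
      rw [← h] at h1
      have h8 : dt (I * v) w = 0 := abs_eq_zero.mp (le_antisymm h1 (abs_nonneg _))
      have h9 := dt_sq w v
      have e1 : dt w v = dt v w := by simp only [dt]; ring
      have e2 : dt w (I * v) = dt (I * v) w := by simp only [dt]; ring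
      rw [e1, e2, h8, ← h] at h9
      have := mul_pos h6 (normSq_pos.mpr hv)
      nlinarith
  have h8 : |dt (I * v) w| * |dt p (I * w)| < dt v w * dt p w := by
    rcases h1.lt_or_eq with h | h
    · calc |dt (I * v) w| * |dt p (I * w)| ≤ |dt (I * v) w| * dt p w :=
            mul_le_mul_of_nonneg_left h2 (abs_nonneg _)
        _ < dt v w * dt p w := mul_lt_mul_of_pos_right h h3
    · have h9 : |dt p (I * w)| < dt p w := lt_of_le_of_ne h2 (h4 h)
      calc |dt (I * v) w| * |dt p (I * w)| ≤ dt v w * |dt p (I * w)| :=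
            mul_le_mul_of_nonneg_right h1 (abs_nonneg _)
        _ < dt v w * dt p w := mul_lt_mul_of_pos_left h9 hvw
  have h9 : dt (I * v) w * dt p (I * w) ≤ |dt (I * v) w| * |dt p (I * w)| := by
    rw [← abs_mul]; exact le_abs_self _
  have h10 : 0 < normSq w * dt p v := by rw [h5]; linarith
  exact (mul_pos_iff_of_pos_left h6).mp h10

end Pool.Agent.Illum.Rot
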