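import Pool.Agent.Illum.RotKill

set_option autoImplicit false
set_option linter.unusedSectionVars false
set_option linter.style.longLine false

/-!
# Order three: the conflict case
-/

namespace Pool.Agent.Illum.Rot

open Set Filter Topology Complex

variable {K : Set (ℂ × ℝ)} {zm zM c0 : ℝ}

lemma pigeon3 {P Q : ℕ → Prop} (h : ∀ i < 3, P i ∨ Q i)
    (hP : ∀ i < 3, ∀ j < 3, i ≠ j → P i → P j → False)
    (hQ : ∀ i < 3, ∀ j < 3, i ≠ j → Q i → Q j → False) : False := by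
  rcases h 0 (by norm_num) with h0 | h0
  · rcases h 1 (by norm_num) with h1 | h1
    · exact hP 0 (by norm_num) 1 (by norm_num) (by norm_num) h0 h1
    · rcases h 2 (by norm_num) with h2 | h2
      · exact hP 0 (by norm_num) 2 (by norm_num) (by norm_num) h0 h2
      · exact hQ 1 (by norm_num) 2 (by norm_num) (by norm_num) h1 h2
  · rcases h 1 (by norm_num) with h1 | h1
    · rcases h 2 (by norm_num) with h2 | h2
      · exact hP 1 (by norm_num) 2 (by norm_num) (by norm_num) h1 h2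
      · exact hQ 0 (by norm_num) 2 (by norm_num) (by norm_num) h0 h2
    · exact hQ 0 (by norm_num) 1 (by norm_num) (by norm_num) h0 h1

/-- a point of the projection as far as the opposite triangle vertex -/
lemma far_point (hb : Body 3 K) {y g : ℂ} {h : ℝ} (hy0 : y ≠ 0) (hyK : (y, h) ∈ K) (hg0 : g ≠ 0)
    (hg : Nrm K (y, h) g 0) {x : ℂ × ℝ} (hx : x ∈ K) (hfar : 2 * normSq y ≤ dt (z6 * y) x.1) :
    x.1 = 2 * (z6 * y) ∧ ∀ x' ∈ K, dt y x'.1 ≤ normSq y := by
  have h3 := sqrt3_pos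
  have h33 := sqrt3_sq
  have hN := normSq_pos.mpr hy0
  have comm : ∀ u v : ℂ, dt u v = dt v u := fun u v => by simp only [dt]; ring
  have hq := hb.quad3 _ hyK g 0 hg
  simp only at hq
  set g1 := dt y g with hg1
  set g2 := dt (I * y) g with hg2
  have e1 : dt g y = g1 := comm _ _
  have e2 : dt g (I * y) = g2 := comm _ _
  rw [e1, e2] at hq
  have hg1nn : 0 ≤ g1 := by
    have := (abs_nonneg _).trans hq
    exact nonneg_of_mul_nonneg_right this h3
  set u := x.1 - 2 * (z6 * y) with hu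
  have hxu : x.1 = u + 2 * (z6 * y) := by rw [hu]; ring
  set u1 := dt y u with hu1
  set u2 := dt (I * y) u with hu2
  have hgu : normSq y * dt g u = g1 * u1 + g2 * u2 := dt_coord y g u
  have hgIu : normSq y * dt g (I * u) = -(g1 * u2) + g2 * u1 := by
    rw [dt_coord y g (I * u)]
    have f1 : dt y (I * u) = -u2 := by
      rw [hu2]; simp only [dt, mul_re, mul_im, I_re, I_im]; ring
    have f2 : dt (I * y) (I * u) = u1 := by
      rw [hu1]; simp only [dt, mul_re, mul_im, I_re, I_im]; ring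
    rw [f1, f2]; ring
  have hzz : dt (z6 * y) (z6 * y) = normSq y := by
    rw [dt_self, map_mul, normSq_z6, one_mul]
  have two : ∀ p q : ℂ, dt p (2 * q) = 2 * dt p q := by
    intro p q; simp only [dt, mul_re, mul_im, re_ofNat, im_ofNat]; ring
  have hE : 0 ≤ u1 + √3 * u2 := by
    rw [hxu, dt_add, two, hzz, dt_z6_mul] at hfar
    linarith
  -- first normal inequality
  have hn1 := hg x hx
  simp only [zero_mul, add_zero] at hn1
  have gz6 : dt g (z6 * y) = g1 / 2 + √3 / 2 * g2 := by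
    rw [comm, dt_z6_mul]
  have A1 : dt g u ≤ -(√3 * g2) := by
    rw [hxu, dt_add, two, gz6, e1] at hn1
    linarith
  -- second normal inequality
  have hn2 := hg _ (hb.pow_mem 2 hx)
  simp only [zero_mul, add_zero] at hn2
  have hrot : zt 3 ^ 2 * x.1 = zt 3 ^ 2 * u + 2 * (z6 ^ 5 * y) := by
    rw [hxu, ← z6_sq_eq]; ring
  have gz65 : dt g (z6 ^ 5 * y) = g1 / 2 - √3 / 2 * g2 := by
    rw [comm, dt_z65_mul]
  have hz2u : dt g (zt 3 ^ 2 * u) = -(1 / 2) * dt g u - √3 / 2 * dt g (I * u) := by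
    rw [zt3_pow_two, dt_mul]; ring
  have A2 : dt g (zt 3 ^ 2 * u) ≤ √3 * g2 := by
    rw [hrot, dt_add, two, gz65, e1] at hn2
    linarith
  -- multiply by the norm
  have B1 : g1 * u1 + g2 * u2 ≤ -(√3 * g2 * normSq y) := by
    rw [← hgu]
    have := mul_le_mul_of_nonneg_left A1 hN.le
    linarith
  have B2 : -(1 / 2) * (g1 * u1 + g2 * u2) - √3 / 2 * (-(g1 * u2) + g2 * u1) ≤
      √3 * g2 * normSq y := by
    rw [← hgu, ← hgIu]
    rw [hz2u] at A2
    have := mul_le_mul_of_nonneg_left A2 hN.le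
    linarith
  obtain ⟨q1, q2⟩ := abs_le.mp hq
  have co1 : 0 ≤ √3 / 2 * g1 + g2 / 2 := by linarith
  have co2 : 0 ≤ √3 / 2 * g1 - g2 / 2 := by linarith
  have C1 := mul_le_mul_of_nonneg_left B1 co1
  have C2 := mul_le_mul_of_nonneg_left B2 co2
  have hid : √3 / 4 * (g1 ^ 2 + g2 ^ 2) * (u1 + √3 * u2) =
      (√3 / 2 * g1 + g2 / 2) * (g1 * u1 + g2 * u2) +
      (√3 / 2 * g1 - g2 / 2) * (-(1 / 2) * (g1 * u1 + g2 * u2) -
        √3 / 2 * (-(g1 * u2) + g2 * u1)) := by
    linear_combination (g2 ^ 2 * u2 / 4 + g1 * g2 * u1 / 4) * h33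
  have hfin : √3 / 4 * (g1 ^ 2 + g2 ^ 2) * (u1 + √3 * u2) ≤ -(√3 * g2 ^ 2 * normSq y) := by
    rw [hid]; nlinarith
  have hL : 0 ≤ √3 / 4 * (g1 ^ 2 + g2 ^ 2) * (u1 + √3 * u2) :=
    mul_nonneg (by positivity) hE
  have hg2z : g2 = 0 := by
    by_contra hne
    have : 0 < √3 * g2 ^ 2 * normSq y := by positivity
    linarith
  have hgc := dt_coord y g g
  rw [← hg1, ← hg2, hg2z, mul_zero, add_zero] at hgc
  have hg1p : 0 < g1 := by
    rcases hg1nn.lt_or_eq with h | h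
    · exact h
    · exfalso
      rw [← h, mul_zero] at hgc
      have := mul_pos hN (dt_self_pos hg0)
      linarith
  rw [hg2z] at B1 B2 hid hL
  have hu1z : u1 = 0 ∧ u2 = 0 := by
    have D1 : g1 * u1 ≤ 0 := by linarith
    have D2 : -(1 / 2) * (g1 * u1) + √3 / 2 * (g1 * u2) ≤ 0 := by linarith
    have D3 : 0 ≤ √3 / 2 * g1 * (g1 * u1 + (-(1 / 2) * (g1 * u1) + √3 / 2 * (g1 * u2))) := by
      rw [hid] at hL; linarith
    have D4 : 0 ≤ g1 * u1 + (-(1 / 2) * (g1 * u1) + √3 / 2 * (g1 * u2)) := by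
      by_contra hcon
      have : 0 < √3 / 2 * g1 := by positivity
      have := mul_neg_of_pos_of_neg this (not_le.mp hcon)
      linarith
    have D5 : g1 * u1 = 0 := by linarith
    have D6 : u1 = 0 := (mul_eq_zero.mp D5).resolve_left hg1p.ne'
    have D7 : √3 / 2 * (g1 * u2) = 0 := by linarith
    have D8 : g1 * u2 = 0 := (mul_eq_zero.mp D7).resolve_left (by positivity)
    exact ⟨D6, (mul_eq_zero.mp D8).resolve_left hg1p.ne'⟩
  constructor
  · have : u = 0 := by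
      apply eq_of_coord hy0
      · rw [dt_zero]; exact hu1z.1
      · rw [dt_zero]; exact hu1z.2
    rw [hxu, this, zero_add]
  · intro x' hx'
    have h1 := hg x' hx'
    simp only [zero_mul, add_zero] at h1
    have h2 := dt_coord y g x'.1
    have h4 := dt_coord y g y
    rw [← hg1, ← hg2, hg2z, zero_mul, add_zero] at h2 h4
    rw [dt_self] at h4
    have h5 := mul_le_mul_of_nonneg_left h1 hN.le
    rw [h2, h4] at h5
    exact le_of_mul_le_mul_left h5 hg1p

/-- uniform bound in the conflict case -/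
lemma conf_bound (hb : Body 3 K) (B : Bal K zm zM c0) (hNT : NoTri K) {y g : ℂ} {h : ℝ}
    (hy0 : y ≠ 0) (hyK : (y, h) ∈ K) (hg0 : g ≠ 0) (hg : Nrm K (y, h) g 0) :
    ∃ m : ℝ, m < 2 ∧ ∀ x ∈ K, ∀ j, dt (-(Vt y j)) x.1 ≤ m * normSq y := by
  have hN := normSq_pos.mpr hy0
  obtain ⟨x0, hx0, hmax⟩ := B.comp.exists_isMaxOn ⟨_, hyK⟩
    (f := fun x : ℂ × ℝ => dt (z6 * y) x.1) (by fun_prop : Continuous _).continuousOn
  refine ⟨dt (z6 * y) x0.1 / normSq y, ?_, ?_⟩
  · rw [div_lt_iff₀ hN]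
    by_contra hcon
    have hfar := not_lt.mp hcon
    obtain ⟨h1, h2⟩ := far_point hb hy0 hyK hg0 hg hx0 hfar
    have hV : (2 * (z6 * y) : ℂ) ≠ 0 := mul_ne_zero two_ne_zero (mul_ne_zero z6_ne hy0)
    apply hNT (2 * (z6 * y)) hV x0.2
    · rw [← h1]; exact hx0
    · intro x hx j
      rw [lam_nonneg_iff hV]
      have e1 : -(Vt (2 * (z6 * y)) j) = 2 * Vt y (j + 2) := by
        simp only [Vt]
        have : z6 * z6 ^ 3 = z6 ^ 4 := by ring
        have h4 : zt 3 ^ 2 = -z6 := by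
          rw [← z6_sq_eq, ← pow_mul]
          have := z6_cube
          linear_combination z6 * this
        rw [pow_add, h4]; ring
      have e2 : normSq (2 * (z6 * y)) = 4 * normSq y := by
        rw [map_mul, map_mul, normSq_z6]
        simp only [normSq_ofNat]; norm_num
      have e3 : dt (2 * Vt y (j + 2)) x.1 = 2 * dt (Vt y (j + 2)) x.1 := by
        simp only [dt, mul_re, mul_im, re_ofNat, im_ofNat]; ring
      rw [e1, e2, e3]
      have h5 := h2 _ (hb.pow_mem (2 * (j + 2)) hx)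
      simp only at h5
      have hnz : normSq (zt 3 ^ (2 * (j + 2))) = 1 := by rw [map_pow, normSq_zt, one_pow]
      have e4 : dt (Vt y (j + 2)) x.1 = dt y (zt 3 ^ (2 * (j + 2)) * x.1) := by
        rw [← dt_rot (zt 3 ^ (2 * (j + 2))) _ _ hnz, Vt_rot]
        have : j + 2 + 2 * (j + 2) = 0 + 3 * (j + 2) := by ring
        rw [this, Vt_add_three_mul]
        simp only [Vt, pow_zero, one_mul]
      rw [e4]; linarith
  · intro x hx j
    rw [div_mul_cancel₀ _ hN.ne']
    have hnz : normSq (zt 3 ^ (2 + 2 * j)) = 1 := by rw [map_pow, normSq_zt, one_pow]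
    have e4 : dt (-(Vt y j)) x.1 = dt (z6 * y) (zt 3 ^ (2 + 2 * j) * x.1) := by
      rw [← dt_rot (zt 3 ^ (2 + 2 * j)) _ _ hnz, mul_neg, Vt_rot]
      have : j + (2 + 2 * j) = 2 + 3 * j := by ring
      rw [this, Vt_add_three_mul, Vt_two]
    rw [e4]
    exact hmax (hb.pow_mem (2 + 2 * j) hx)

/-- real core of the conflict case -/
lemma conf_core {τ α β ha hbb hc N : ℝ} (hτ0 : 0 < τ) (hτ1 : τ < 1) (hα : 0 ≤ α) (hβ : 0 ≤ β)
    (hsum : ha + hbb + hc = 0) (hN : N = α * ha + β * hbb) (hNp : 0 < N)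
    (hNb : hbb ≤ N) (hrot : α * hc + β * ha ≤ N) (hk : (3 + τ) * ha + 2 * τ * hbb ≤ 0) :
    3 + τ ≤ (3 + τ) * β - 2 * τ * α := by
  have hb0 : 0 < hbb := by
    by_contra hcon
    have h1 := not_lt.mp hcon
    have h2 : 0 < ha := by
      by_contra h3
      have h4 := not_lt.mp h3
      have := mul_nonpos_of_nonneg_of_nonpos hα h4
      have := mul_nonpos_of_nonneg_of_nonpos hβ h1
      linarith
    have h3 : 2 * ha < -hbb := by nlinarith
    have h4 : 0 < hc - ha := by linarith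
    have h5 : 0 < ha - hbb := by linarith
    have h6 : α * (hc - ha) + β * (ha - hbb) ≤ 0 := by rw [hN] at hrot; nlinarith
    have h7 : α = 0 := by
      by_contra h8
      have := mul_pos (lt_of_le_of_ne hα (Ne.symm h8)) h4
      have := mul_nonneg hβ h5.le
      linarith
    have h8 : β = 0 := by
      by_contra h9
      have := mul_pos (lt_of_le_of_ne hβ (Ne.symm h9)) h5
      rw [h7] at h6
      linarith
    rw [hN, h7, h8] at hNp
    simp at hNp
  have h1 : (3 + τ) * N ≤ ((3 + τ) * β - 2 * τ * α) * hbb := by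
    rw [hN]
    have := mul_le_mul_of_nonneg_left hk hα
    nlinarith
  have h2 : (3 + τ) * hbb ≤ (3 + τ) * N := mul_le_mul_of_nonneg_left hNb (by linarith)
  exact le_of_mul_le_mul_right (h2.trans h1) hb0

lemma I_Vt (p y : ℂ) (j : ℕ) :
    √3 * dt p (I * Vt y j) = 2 * dt p (Vt y (j + 1)) + dt p (Vt y j) := by
  have e : Vt y (j + 1) = zt 3 * Vt y j := by simp only [Vt]; ring
  have e' : dt p (zt 3 * Vt y j) = -1 / 2 * dt p (Vt y j) + √3 / 2 * dt p (I * Vt y j) := by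
    rw [zt3_eq, dt_mul]
  rw [e, e']
  ring

/-- the middle points in the conflict case -/
lemma conf_mid (hb : Body 3 K) (B : Bal K zm zM c0) {y : ℂ} (hy0 : y ≠ 0)
    (hyT : (y, zM) ∈ K) (hyB : (y, zm) ∈ K) {m : ℝ}
    (hm : ∀ x ∈ K, ∀ j, dt (-(Vt y j)) x.1 ≤ m * normSq y) {τ : ℝ} (hτ0 : 0 < τ) (hτ1 : τ < 1)
    (hτm : m * (3 - τ) < 3 + τ) {x : ℂ × ℝ} (hx : x ∈ K) (hxM : x.2 ≠ zM) (hxm : x.2 ≠ zm) :
    (∃ k ∈ Finset.range 3, ∀ p s, (p ≠ 0 ∨ s ≠ 0) → Nrm K x p s →
      0 < dt p (zt 3 ^ k * ((√3 - τ * I) * y))) ∨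
    (∃ k ∈ Finset.range 3, ∀ p s, (p ≠ 0 ∨ s ≠ 0) → Nrm K x p s →
      0 < dt p (zt 3 ^ k * ((√3 + τ * I) * y))) := by
  have h3 := sqrt3_pos
  have h33 := sqrt3_sq
  have hN := normSq_pos.mpr hy0
  by_contra hcon
  push Not at hcon
  obtain ⟨hf1, hf2⟩ := hcon
  have per : ∀ k, zt 3 ^ k = zt 3 ^ (k % 3) := by
    intro k
    conv_lhs => rw [← Nat.div_add_mod k 3, pow_add, pow_mul, zt3_cube, one_pow, one_mul]
  have hf1' : ∀ k : ℕ, ∃ p s, (p ≠ 0 ∨ s ≠ 0) ∧ Nrm K x p s ∧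
      dt p (zt 3 ^ k * ((√3 - τ * I) * y)) ≤ 0 := by
    intro k
    rw [per k]
    exact hf1 (k % 3) (Finset.mem_range.mpr (Nat.mod_lt _ (by norm_num)))
  have hf2' : ∀ k : ℕ, ∃ p s, (p ≠ 0 ∨ s ≠ 0) ∧ Nrm K x p s ∧
      dt p (zt 3 ^ k * ((√3 + τ * I) * y)) ≤ 0 := by
    intro k
    rw [per k]
    exact hf2 (k % 3) (Finset.mem_range.mpr (Nat.mod_lt _ (by norm_num)))
  -- the minimal index
  obtain ⟨i, _, hi⟩ := exists_max_dir (by norm_num : 0 < 3) zt3_cube (-y) x.1
  have hi' : ∀ j, lam y i x.1 ≤ lam y j x.1 := by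
    intro j
    have h1 := hi j
    have h2 : dt (Vt y i) x.1 ≤ dt (Vt y j) x.1 := by
      have e : ∀ k, dt (zt 3 ^ k * -y) x.1 = - dt (Vt y k) x.1 := by
        intro k; rw [mul_neg, neg_dt]; rfl
      rw [e, e] at h1
      linarith
    have h4 : 2 * dt (Vt y i) x.1 / normSq y ≤ 2 * dt (Vt y j) x.1 / normSq y :=
      div_le_div_of_nonneg_right (by linarith) hN.le
    unfold lam
    linarith
  set α := lam y (i + 1) x.1 - lam y i x.1 with hα
  set β := lam y (i + 2) x.1 - lam y i x.1 with hβ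
  have hα0 : 0 ≤ α := by rw [hα]; linarith [hi' (i + 1)]
  have hβ0 : 0 ≤ β := by rw [hβ]; linarith [hi' (i + 2)]
  have hw : ∀ p, dt p x.1 = α * dt p (Vt y (i + 1)) + β * dt p (Vt y (i + 2)) := by
    intro p
    have h1 := lam_dt hy0 p x.1 i
    have h2 := dt_Vt_sum p y i
    rw [h1, hα, hβ]
    linear_combination (lam y i x.1) * h2
  -- the vertical segments
  have hle := B.le x hx
  have hseg : ∀ j, (Vt y j, x.2) ∈ K := by
    intro j
    have h1 : (Vt y j, zM) ∈ K := Vt_mem hb hyT j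
    have h2 : (Vt y j, zm) ∈ K := Vt_mem hb hyB j
    have hzz := B.zm_lt_zM
    have hd : 0 < zM - zm := by linarith
    have := B.conv h1 h2 (a := (x.2 - zm) / (zM - zm)) (b := (zM - x.2) / (zM - zm))
      (div_nonneg (by linarith) hd.le) (div_nonneg (by linarith) hd.le)
      (by rw [← add_div]; rw [div_eq_one_iff_eq hd.ne']; ring)
    have e : ((x.2 - zm) / (zM - zm)) • ((Vt y j, zM) : ℂ × ℝ) +
        ((zM - x.2) / (zM - zm)) • ((Vt y j, zm) : ℂ × ℝ) = (Vt y j, x.2) := by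
      refine Prod.ext ?_ ?_
      · simp only [Prod.smul_mk, Prod.mk_add_mk]
        rw [← add_smul, ← add_div]
        have : (x.2 - zm + (zM - x.2)) / (zM - zm) = 1 := by
          rw [div_eq_one_iff_eq hd.ne']; ring
        rw [this, one_smul]
      · simp only [Prod.smul_mk, Prod.mk_add_mk, smul_eq_mul]
        field_simp
        ring
    rwa [e] at this
  have hnrm : ∀ p s, Nrm K x p s → ∀ j, dt p (Vt y j) ≤ dt p x.1 := by
    intro p s hn j
    have := hn _ (hseg j)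
    simp only at this
    linarith
  have hpos : ∀ p s, (p ≠ 0 ∨ s ≠ 0) → Nrm K x p s → 0 < dt p x.1 := fun p s hps hn =>
    B.pos_of_not_end hx hps hn (fun h => absurd h hxM) (fun h => absurd h hxm)
  have rot1 : ∀ p s, Nrm K x p s →
      α * dt p (Vt y (i + 2)) + β * dt p (Vt y i) ≤ dt p x.1 := by
    intro p s hn
    have h1 := hb.nrm_rot hx hn 1
    have h2 : dt p (zt 3 ^ 1 * x.1) = α * dt p (Vt y (i + 2)) + β * dt p (Vt y (i + 3)) := by
      have hnz : normSq (zt 3 ^ 2) = 1 := by rw [map_pow, normSq_zt, one_pow]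
      rw [← dt_rot (zt 3 ^ 2) _ _ hnz]
      have e0 : zt 3 ^ 2 * (zt 3 ^ 1 * x.1) = x.1 := by
        rw [← mul_assoc, ← pow_add, zt3_cube, one_mul]
      rw [e0, hw (zt 3 ^ 2 * p)]
      have e1 : dt (zt 3 ^ 2 * p) (Vt y (i + 1)) = dt p (Vt y (i + 2)) := by
        rw [← dt_rot (zt 3 ^ 2) p _ hnz, Vt_rot]
        have : i + 2 + 2 = (i + 1) + 3 * 1 := by ring
        rw [this, Vt_add_three_mul]
      have e2 : dt (zt 3 ^ 2 * p) (Vt y (i + 2)) = dt p (Vt y (i + 3)) := by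
        rw [← dt_rot (zt 3 ^ 2) p _ hnz, Vt_rot]
        have : i + 3 + 2 = (i + 2) + 3 * 1 := by ring
        rw [this, Vt_add_three_mul]
      rw [e1, e2]
    rw [h2, Vt_three] at h1
    exact h1
  have rot2 : ∀ p s, Nrm K x p s →
      α * dt p (Vt y i) + β * dt p (Vt y (i + 1)) ≤ dt p x.1 := by
    intro p s hn
    have h1 := hb.nrm_rot hx hn 2
    have h2 : dt p (zt 3 ^ 2 * x.1) = α * dt p (Vt y (i + 3)) + β * dt p (Vt y (i + 4)) := by
      have hnz : normSq (zt 3 ^ 1) = 1 := by rw [map_pow, normSq_zt, one_pow]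
      rw [← dt_rot (zt 3 ^ 1) _ _ hnz]
      have e0 : zt 3 ^ 1 * (zt 3 ^ 2 * x.1) = x.1 := by
        rw [← mul_assoc, ← pow_add, zt3_cube, one_mul]
      rw [e0, hw (zt 3 ^ 1 * p)]
      have e1 : dt (zt 3 ^ 1 * p) (Vt y (i + 1)) = dt p (Vt y (i + 3)) := by
        rw [← dt_rot (zt 3 ^ 1) p _ hnz, Vt_rot]
        have : i + 3 + 1 = (i + 1) + 3 * 1 := by ring
        rw [this, Vt_add_three_mul]
      have e2 : dt (zt 3 ^ 1 * p) (Vt y (i + 2)) = dt p (Vt y (i + 4)) := by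
        rw [← dt_rot (zt 3 ^ 1) p _ hnz, Vt_rot]
        have : i + 4 + 1 = (i + 2) + 3 * 1 := by ring
        rw [this, Vt_add_three_mul]
      rw [e1, e2]
    have e4 : Vt y (i + 4) = Vt y (i + 1) := Vt_three y (i + 1)
    rw [h2, Vt_three, e4] at h1
    exact h1
  -- first failing normal
  obtain ⟨p, s, hps, hn, hk⟩ := hf2' (i + 1)
  have k1 : (3 + τ) * dt p (Vt y (i + 1)) + 2 * τ * dt p (Vt y (i + 2)) ≤ 0 := by
    have e : dt p (zt 3 ^ (i + 1) * ((√3 + τ * I) * y)) =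
        √3 * dt p (Vt y (i + 1)) + τ * dt p (I * Vt y (i + 1)) := by
      have : zt 3 ^ (i + 1) * ((√3 + τ * I) * y) = (√3 : ℂ) * Vt y (i + 1) +
          (τ : ℂ) * (I * Vt y (i + 1)) := by simp only [Vt]; ring
      rw [this, dt_add, dt_rmul, dt_rmul]
    rw [e] at hk
    have e2 := I_Vt p y (i + 1)
    have := mul_le_mul_of_nonneg_left hk h3.le
    rw [mul_zero] at this
    have e3 : √3 * (√3 * dt p (Vt y (i + 1)) + τ * dt p (I * Vt y (i + 1))) =
        3 * dt p (Vt y (i + 1)) + τ * (√3 * dt p (I * Vt y (i + 1))) := by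
      linear_combination dt p (Vt y (i + 1)) * h33
    rw [e3, e2] at this
    have e5 : Vt y (i + 1 + 1) = Vt y (i + 2) := rfl
    rw [e5] at this
    linarith
  have c1 := conf_core hτ0 hτ1 hα0 hβ0 (ha := dt p (Vt y (i + 1))) (hbb := dt p (Vt y (i + 2)))
    (hc := dt p (Vt y i)) (N := dt p x.1) (by have := dt_Vt_sum p y i; linarith) (hw p)
    (hpos p s hps hn) (hnrm p s hn (i + 2)) (rot2 p s hn) k1
  obtain ⟨p', s', hps', hn', hk'⟩ := hf1' (i + 2)
  have k2 : (3 + τ) * dt p' (Vt y (i + 2)) + 2 * τ * dt p' (Vt y (i + 1)) ≤ 0 := by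
    have e : dt p' (zt 3 ^ (i + 2) * ((√3 - τ * I) * y)) =
        √3 * dt p' (Vt y (i + 2)) - τ * dt p' (I * Vt y (i + 2)) := by
      have : zt 3 ^ (i + 2) * ((√3 - τ * I) * y) = (√3 : ℂ) * Vt y (i + 2) -
          (τ : ℂ) * (I * Vt y (i + 2)) := by simp only [Vt]; ring
      rw [this, dt_sub, dt_rmul, dt_rmul]
    rw [e] at hk'
    have e2 := I_Vt p' y (i + 2)
    have := mul_le_mul_of_nonneg_left hk' h3.le
    rw [mul_zero] at this
    have e3 : √3 * (√3 * dt p' (Vt y (i + 2)) - τ * dt p' (I * Vt y (i + 2))) =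
        3 * dt p' (Vt y (i + 2)) - τ * (√3 * dt p' (I * Vt y (i + 2))) := by
      linear_combination dt p' (Vt y (i + 2)) * h33
    rw [e3, e2] at this
    have e5 : Vt y (i + 2 + 1) = Vt y i := Vt_three y i
    rw [e5] at this
    have e6 := dt_Vt_sum p' y i
    nlinarith
  have c2 := conf_core hτ0 hτ1 hβ0 hα0 (ha := dt p' (Vt y (i + 2)))
    (hbb := dt p' (Vt y (i + 1)))
    (hc := dt p' (Vt y i)) (N := dt p' x.1) (by have := dt_Vt_sum p' y i; linarith)
    (by rw [hw p']; ring)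
    (hpos p' s' hps' hn') (hnrm p' s' hn' (i + 1)) (by have := rot1 p' s' hn'; linarith) k2
  -- conclusion
  have hbound := hm x hx i
  have hval : dt (-(Vt y i)) x.1 = (α + β) * normSq y / 2 := by
    rw [hw (-(Vt y i)), neg_dt, neg_dt]
    have g1 : dt (Vt y i) (Vt y (i + 1)) = -(normSq y / 2) := by
      have e : Vt y (i + 1) = zt 3 * Vt y i := by simp only [Vt]; ring
      have f : dt (Vt y i) (I * Vt y i) = 0 := by
        simp only [dt, mul_re, mul_im, I_re, I_im]; ring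
      rw [e, zt3_eq, dt_mul, f, dt_self, normSq_Vt]; ring
    have g2 : dt (Vt y i) (Vt y (i + 2)) = -(normSq y / 2) := by
      have := dt_Vt_sum (Vt y i) y i
      rw [dt_self, normSq_Vt, g1] at this
      linarith
    rw [g1, g2]; ring
  rw [hval] at hbound
  have hab : α + β ≤ 2 * m := by
    have : (α + β) * normSq y ≤ (2 * m) * normSq y := by linarith
    exact le_of_mul_le_mul_right this hN
  have : 2 * (3 + τ) ≤ (3 - τ) * (α + β) := by linarith
  have h5 : (3 - τ) * (α + β) ≤ (3 - τ) * (2 * m) := mul_le_mul_of_nonneg_left hab (by linarith)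
  linarith

theorem cover_conf (hb : Body 3 K) (B : Bal K zm zM c0) (hNT : NoTri K) {y : ℂ} (hy0 : y ≠ 0)
    (hyT : (y, zM) ∈ K) (hyB : (y, zm) ∈ K) (hsil : Sil K (y, zM))
    (maxT : ∀ x ∈ K, x.2 = zM → Sil K x → normSq x.1 ≤ normSq y)
    (maxB : ∀ x ∈ K, x.2 = zm → Sil K x → normSq x.1 ≤ normSq y) :
    ∃ T : Finset (ℂ × ℝ), T.card ≤ 8 ∧ K ⊆ ⋃ t ∈ T, (fun x => t + x) '' interior K := by
  have h3 := sqrt3_pos
  have hN := normSq_pos.mpr hy0
  obtain ⟨g, hg0, hg⟩ := hsil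
  obtain ⟨m, hm2, hm⟩ := conf_bound hb B hNT hy0 hyT hg0 hg
  -- m is at least 1/2
  have hm1 : 1 / 2 ≤ m := by
    have h1 := hm (Vt y 1, zM) (Vt_mem hb hyT 1) 0
    have e : dt (-(Vt y 0)) (Vt y 1) = normSq y / 2 := by
      have e : Vt y 1 = zt 3 * Vt y 0 := by simp only [Vt]; ring
      have f : dt (Vt y 0) (I * Vt y 0) = 0 := by
        simp only [dt, mul_re, mul_im, I_re, I_im]; ring
      rw [neg_dt, e, zt3_eq, dt_mul, f, dt_self, normSq_Vt]; ring
    simp only [e] at h1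
    have : (1 / 2) * normSq y ≤ m * normSq y := by linarith
    exact le_of_mul_le_mul_right this hN
  set τ0 := max (3 * (m - 1) / (m + 1)) 0 with hτ0
  have hτ01 : τ0 < 1 := by
    apply max_lt _ one_pos
    rw [div_lt_one (by linarith)]; linarith
  have hτ00 : 0 ≤ τ0 := le_max_right _ _
  have hτgen : ∀ τ, τ0 < τ → τ < 1 → m * (3 - τ) < 3 + τ := by
    intro τ h1 h2
    have h4 : 3 * (m - 1) / (m + 1) < τ := lt_of_le_of_lt (le_max_left _ _) h1
    rw [div_lt_iff₀ (by linarith)] at h4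
    linarith
  set t : ℕ → ℝ := fun i => τ0 + (1 - τ0) * ((i : ℝ) + 1) / 4 with ht
  have ht1 : ∀ i < 3, τ0 < t i ∧ t i < 1 := by
    intro i hi
    have hi2 : (i : ℝ) ≤ 2 := by exact_mod_cast (by omega : i ≤ 2)
    have hi0 : (0 : ℝ) ≤ i := by positivity
    have h5 : 0 < (1 - τ0) * ((i : ℝ) + 1) := mul_pos (by linarith) (by linarith)
    have h6 : (1 - τ0) * ((i : ℝ) + 1) ≤ (1 - τ0) * 3 :=
      mul_le_mul_of_nonneg_left (by linarith) (by linarith)
    simp only [ht]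
    constructor
    · linarith
    · linarith
  by_contra hcon
  have hne : ∀ a : ℝ, ((√3 : ℂ) + a * I) ≠ 0 := by
    intro a h0
    have := congrArg Complex.re h0
    simp at this
  have hne' : ∀ a : ℝ, ((√3 : ℂ) - a * I) ≠ 0 := by
    intro a h0
    have := congrArg Complex.re h0
    simp at this
  -- failing alternatives
  have hfail : ∀ i < 3,
      (∃ x ∈ K, x.2 = zM ∧ Sil K x ∧ ∀ k ∈ Finset.range 3, ∃ p, FN K zM x.1 p ∧
        dt p (zt 3 ^ k * ((√3 - t i * I) * y)) ≤ 0) ∨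
      (∃ x ∈ K, x.2 = zm ∧ Sil K x ∧ ∀ k ∈ Finset.range 3, ∃ p, FN K zm x.1 p ∧
        dt p (zt 3 ^ k * ((√3 + t i * I) * y)) ≤ 0) := by
    intro i hi
    by_contra h
    push Not at h
    obtain ⟨hA, hB⟩ := h
    apply hcon
    obtain ⟨a1, a2⟩ := ht1 i hi
    have := crit (m := 3) B (fun k => zt 3 ^ k * ((√3 - t i * I) * y))
      (fun k => zt 3 ^ k * ((√3 + t i * I) * y)) ?_ ?_ ?_
    · simpa using this
    · intro x hx hM hm' _
      exact conf_mid hb B hy0 hyT hyB hm (by linarith) a2 (hτgen _ a1 a2) hx hM hm'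
    · intro x hx hM hs
      exact hA x hx hM hs
    · intro x hx hm' hs
      exact hB x hx hm' hs
  have strT : ∀ a : ℝ, 0 < a → a < 1 →
      √3 * |dt (I * ((√3 - a * I) * y)) y| < dt ((√3 - a * I) * y) y := by
    intro a h0 h1
    have e1 : dt (I * ((√3 - a * I) * y)) y = a * normSq y := by
      simp only [dt, mul_re, mul_im, sub_re, sub_im, I_re, I_im, ofReal_re, ofReal_im,
        normSq_apply]; ring
    have e2 : dt ((√3 - a * I) * y) y = √3 * normSq y := by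
      simp only [dt, mul_re, mul_im, sub_re, sub_im, I_re, I_im, ofReal_re, ofReal_im,
        normSq_apply]; ring
    rw [e1, e2, abs_of_pos (mul_pos h0 hN)]
    apply mul_lt_mul_of_pos_left _ h3
    calc a * normSq y < 1 * normSq y := mul_lt_mul_of_pos_right h1 hN
      _ = normSq y := one_mul _
  have strB : ∀ a : ℝ, 0 < a → a < 1 →
      √3 * |dt (I * ((√3 + a * I) * y)) y| < dt ((√3 + a * I) * y) y := by
    intro a h0 h1
    have e1 : dt (I * ((√3 + a * I) * y)) y = -(a * normSq y) := by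
      simp only [dt, mul_re, mul_im, add_re, add_im, I_re, I_im, ofReal_re, ofReal_im,
        normSq_apply]; ring
    have e2 : dt ((√3 + a * I) * y) y = √3 * normSq y := by
      simp only [dt, mul_re, mul_im, add_re, add_im, I_re, I_im, ofReal_re, ofReal_im,
        normSq_apply]; ring
    rw [e1, e2, abs_neg, abs_of_pos (mul_pos h0 hN)]
    apply mul_lt_mul_of_pos_left _ h3
    calc a * normSq y < 1 * normSq y := mul_lt_mul_of_pos_right h1 hN
      _ = normSq y := one_mul _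
  have hinj : ∀ i j : ℕ, i ≠ j → t i ≠ t j := by
    intro i j hij he
    apply hij
    simp only [ht] at he
    have h5 : (1 - τ0) * ((i : ℝ) - j) = 0 := by linarith
    have h6 : (i : ℝ) - j = 0 := (mul_eq_zero.mp h5).resolve_left (by linarith)
    exact_mod_cast sub_eq_zero.mp h6
  refine pigeon3 hfail ?_ ?_
  · rintro i hi j hj hij ⟨x, hx, hxM, hs, hbad⟩ ⟨x', hx', hxM', hs', hbad'⟩
    obtain ⟨a1, a2⟩ := ht1 i hi
    obtain ⟨b1, b2⟩ := ht1 j hj
    have hr : ((√3 : ℂ) - t i * I) * y ≠ 0 := mul_ne_zero (hne' _) hy0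
    have hr' : ((√3 : ℂ) - t j * I) * y ≠ 0 := mul_ne_zero (hne' _) hy0
    have s1 := strT (t i) (by linarith) a2
    have s2 := strT (t j) (by linarith) b2
    obtain ⟨c1, c2⟩ := end_bad hb B hx hxM hs hr hbad hyT s1 (maxT x hx hxM hs)
    obtain ⟨d1, d2⟩ := end_bad hb B hx' hxM' hs' hr' hbad' hyT s2 (maxT x' hx' hxM' hs')
    have h7 := end_two hr hr' s1 s2 c1 c2 d1 d2
    have e1 : dt (I * ((√3 - t i * I) * y)) ((√3 - t j * I) * y) =
        √3 * (t i - t j) * normSq y := by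
      simp only [dt, mul_re, mul_im, sub_re, sub_im, I_re, I_im, ofReal_re, ofReal_im,
        normSq_apply]; ring
    rw [e1] at h7
    rcases mul_eq_zero.mp h7 with h8 | h8
    · rcases mul_eq_zero.mp h8 with h9 | h9
      · exact h3.ne' h9
      · exact hinj i j hij (sub_eq_zero.mp h9)
    · exact hN.ne' h8
  · rintro i hi j hj hij ⟨x, hx, hxM, hs, hbad⟩ ⟨x', hx', hxM', hs', hbad'⟩
    obtain ⟨a1, a2⟩ := ht1 i hi
    obtain ⟨b1, b2⟩ := ht1 j hj
    have hr : ((√3 : ℂ) + t i * I) * y ≠ 0 := mul_ne_zero (hne _) hy0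
    have hr' : ((√3 : ℂ) + t j * I) * y ≠ 0 := mul_ne_zero (hne _) hy0
    have s1 := strB (t i) (by linarith) a2
    have s2 := strB (t j) (by linarith) b2
    obtain ⟨c1, c2⟩ := end_bad hb B hx hxM hs hr hbad hyB s1 (maxB x hx hxM hs)
    obtain ⟨d1, d2⟩ := end_bad hb B hx' hxM' hs' hr' hbad' hyB s2 (maxB x' hx' hxM' hs')
    have h7 := end_two hr hr' s1 s2 c1 c2 d1 d2
    have e1 : dt (I * ((√3 + t i * I) * y)) ((√3 + t j * I) * y) =
        √3 * (t j - t i) * normSq y := by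
      simp only [dt, mul_re, mul_im, add_re, add_im, I_re, I_im, ofReal_re, ofReal_im,
        normSq_apply]; ring
    rw [e1] at h7
    rcases mul_eq_zero.mp h7 with h8 | h8
    · rcases mul_eq_zero.mp h8 with h9 | h9
      · exact h3.ne' h9
      · exact hinj j i hij.symm (sub_eq_zero.mp h9)
    · exact hN.ne' h8

end Pool.Agent.Illum.Rot
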