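import Pool.Agent.Illum.Basic

set_option autoImplicit false
set_option linter.unusedSectionVars false
set_option linter.style.longLine false

/-!
# Illumination in `ℂ × ℝ` by normals and local-to-global tools
-/

namespace Pool.Agent.Illum.Rot

open Set Filter Topology Complex

/-- the real inner product on `ℂ` -/
def dt (p w : ℂ) : ℝ := p.re * w.re + p.im * w.im

lemma dt_add (p w w' : ℂ) : dt p (w + w') = dt p w + dt p w' := by
  simp only [dt, add_re, add_im]; ring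

lemma dt_sub (p w w' : ℂ) : dt p (w - w') = dt p w - dt p w' := by
  simp only [dt, sub_re, sub_im]; ring

lemma dt_neg (p w : ℂ) : dt p (-w) = -dt p w := by
  simp only [dt, neg_re, neg_im]; ring

lemma dt_zero (p : ℂ) : dt p 0 = 0 := by simp [dt]

lemma zero_dt (w : ℂ) : dt 0 w = 0 := by simp [dt]

lemma dt_smul (p w : ℂ) (r : ℝ) : dt p (r • w) = r * dt p w := by
  simp only [dt, real_smul, mul_re, ofReal_re, ofReal_im, mul_im]; ring

lemma dt_rmul (p w : ℂ) (r : ℝ) : dt p ((r : ℂ) * w) = r * dt p w := by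
  simp only [dt, mul_re, ofReal_re, ofReal_im, mul_im]; ring

lemma smul_dt (p w : ℂ) (r : ℝ) : dt (r • p) w = r * dt p w := by
  simp only [dt, real_smul, mul_re, ofReal_re, ofReal_im, mul_im]; ring

lemma dt_mul (p ρ w : ℂ) : dt p (ρ * w) = ρ.re * dt p w + ρ.im * dt p (I * w) := by
  simp only [dt, mul_re, mul_im, I_re, I_im]; ring

lemma dt_self (p : ℂ) : dt p p = normSq p := by
  simp only [dt, normSq_apply]

lemma dt_self_pos {p : ℂ} (hp : p ≠ 0) : 0 < dt p p := by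
  rw [dt_self]; exact normSq_pos.mpr hp

lemma dt_rot (ρ p w : ℂ) (hρ : normSq ρ = 1) : dt (ρ * p) (ρ * w) = dt p w := by
  rw [normSq_apply] at hρ
  simp only [dt, mul_re, mul_im]
  linear_combination (p.re * w.re + p.im * w.im) * hρ

lemma dt_sq (p w : ℂ) : dt p w ^ 2 + dt p (I * w) ^ 2 = normSq p * normSq w := by
  simp only [dt, mul_re, mul_im, I_re, I_im, normSq_apply]; ring

@[fun_prop]
lemma dt_continuous {X : Type*} [TopologicalSpace X] {f g : X → ℂ} (hf : Continuous f)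
    (hg : Continuous g) : Continuous (fun x => dt (f x) (g x)) := by
  unfold dt
  have h1 := continuous_re.comp hf
  have h2 := continuous_re.comp hg
  have h3 := continuous_im.comp hf
  have h4 := continuous_im.comp hg
  exact (h1.mul h2).add (h3.mul h4)

/-- `(p, s)` is an outer normal of `K` at `x` -/
def Nrm (K : Set (ℂ × ℝ)) (x : ℂ × ℝ) (p : ℂ) (s : ℝ) : Prop :=
  ∀ y ∈ K, dt p y.1 + s * y.2 ≤ dt p x.1 + s * x.2

/-- the direction `v` illuminates `x` -/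
def Ill (K : Set (ℂ × ℝ)) (x v : ℂ × ℝ) : Prop :=
  ∃ τ : ℝ, 0 < τ ∧ x + τ • v ∈ interior K

lemma isClosed_nrm (K : Set (ℂ × ℝ)) :
    IsClosed {z : (ℂ × ℝ) × (ℂ × ℝ) | Nrm K z.1 z.2.1 z.2.2} := by
  simp only [Nrm, Set.ofPred_forall]
  exact isClosed_iInter fun y => isClosed_iInter fun hy =>
    isClosed_le (by fun_prop) (by fun_prop)

/-- a continuous functional in coordinates -/
lemma functional_eq (f : ℂ × ℝ →L[ℝ] ℝ) (y : ℂ × ℝ) :
    f y = dt ⟨f (1, 0), f (I, 0)⟩ y.1 + f (0, 1) * y.2 := by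
  obtain ⟨w, c⟩ := y
  have h : ((w, c) : ℂ × ℝ) = w.re • ((1 : ℂ), (0 : ℝ)) + w.im • ((I : ℂ), (0 : ℝ)) +
      c • ((0 : ℂ), (1 : ℝ)) := by
    refine Prod.ext ?_ ?_
    · simp only [Prod.smul_mk, Prod.mk_add_mk, real_smul]
      apply Complex.ext <;> simp
    · simp
  rw [h]
  simp only [map_add, map_smul, smul_eq_mul, dt]
  simp
  ring

lemma ill_of_nrm {K : Set (ℂ × ℝ)} (hK : Convex ℝ K) (hint : (interior K).Nonempty)
    {x v : ℂ × ℝ} (h : ∀ p s, (p ≠ 0 ∨ s ≠ 0) → Nrm K x p s → dt p v.1 + s * v.2 < 0) :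
    Ill K x v := by
  apply illum_of_normals hK hint
  intro f hf hfx
  have h1 : (⟨f (1, 0), f (I, 0)⟩ : ℂ) ≠ 0 ∨ f (0, 1) ≠ 0 := by
    by_contra hcon
    push Not at hcon
    apply hf
    refine ContinuousLinearMap.ext fun y => ?_
    rw [functional_eq f y, hcon.1, hcon.2]
    simp [dt]
  have h2 := h _ _ h1 (fun y hy => by
    rw [← functional_eq, ← functional_eq]
    exact hfx y hy)
  rwa [← functional_eq] at h2

/-- a failing normal, normalised -/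
lemma exists_nrm_of_not_ill {K : Set (ℂ × ℝ)} (hK : Convex ℝ K) (hint : (interior K).Nonempty)
    {x v : ℂ × ℝ} (h : ¬ Ill K x v) :
    ∃ ν ∈ Metric.sphere (0 : ℂ × ℝ) 1, Nrm K x ν.1 ν.2 ∧ 0 ≤ dt ν.1 v.1 + ν.2 * v.2 := by
  have h1 : ¬ ∀ p s, (p ≠ 0 ∨ s ≠ 0) → Nrm K x p s → dt p v.1 + s * v.2 < 0 :=
    fun h2 => h (ill_of_nrm hK hint h2)
  push Not at h1
  obtain ⟨p, s, h2, h3, h4⟩ := h1
  have h5 : ((p, s) : ℂ × ℝ) ≠ 0 := by
    intro hcon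
    rw [Prod.mk_eq_zero] at hcon
    rcases h2 with h2 | h2
    · exact h2 hcon.1
    · exact h2 hcon.2
  have h6 : 0 < ‖((p, s) : ℂ × ℝ)‖ := norm_pos_iff.mpr h5
  refine ⟨‖((p, s) : ℂ × ℝ)‖⁻¹ • (p, s), ?_, ?_, ?_⟩
  · rw [mem_sphere_zero_iff_norm, norm_smul, norm_inv, norm_norm, inv_mul_cancel₀ h6.ne']
  · intro y hy
    simp only [Prod.smul_mk, smul_dt, smul_eq_mul, mul_assoc, ← mul_add]
    exact mul_le_mul_of_nonneg_left (h3 y hy) (inv_nonneg.mpr h6.le)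
  · simp only [Prod.smul_mk, smul_dt, smul_eq_mul, mul_assoc, ← mul_add]
    exact mul_nonneg (inv_nonneg.mpr h6.le) h4

lemma sphere_ne {ν : ℂ × ℝ} (h : ν ∈ Metric.sphere (0 : ℂ × ℝ) 1) : ν.1 ≠ 0 ∨ ν.2 ≠ 0 := by
  by_contra hcon
  push Not at hcon
  have : ν = 0 := Prod.ext hcon.1 hcon.2
  rw [this, mem_sphere_zero_iff_norm, norm_zero] at h
  exact zero_ne_one h

lemma ill_eventually {K : Set (ℂ × ℝ)} {x v : ℂ × ℝ} (h : Ill K x v) :
    ∀ᶠ y in 𝓝 x, Ill K y v := by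
  obtain ⟨τ, hτ, hx⟩ := h
  have hcont : Continuous (fun y : ℂ × ℝ => y + τ • v) := by fun_prop
  have h1 : ∀ᶠ y in 𝓝 x, y + τ • v ∈ interior K :=
    (hcont.tendsto x).eventually (isOpen_interior.mem_nhds hx)
  filter_upwards [h1] with y hy
  exact ⟨τ, hτ, hy⟩

lemma ill_of_interior {K : Set (ℂ × ℝ)} {x : ℂ × ℝ} (v : ℂ × ℝ) (h : x ∈ interior K) :
    Ill K x v := by
  have hcont : Continuous (fun τ : ℝ => x + τ • v) := by fun_prop
  have h1 : Tendsto (fun τ : ℝ => x + τ • v) (𝓝 0) (𝓝 x) := by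
    have := hcont.tendsto 0
    simpa using this
  have h2 : ∀ᶠ τ in 𝓝[>] (0:ℝ), x + τ • v ∈ interior K :=
    (h1.eventually (isOpen_interior.mem_nhds h)).filter_mono nhdsWithin_le_nhds
  obtain ⟨τ, hτ, hτ0⟩ := (h2.and self_mem_nhdsWithin).exists
  exact ⟨τ, hτ0, hτ⟩

/-- The local lemma: near `x`, the directions `(-v, σ t)` work for small `t > 0` at all points
whose normals `(p, s)` satisfy `0 ≤ ⟨p, v⟩`, provided the normals at `x` with `0 ≤ σ s` satisfy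
`0 < ⟨p, v⟩`. -/
lemma local_ill {K : Set (ℂ × ℝ)} (hK : Convex ℝ K) (hint : (interior K).Nonempty)
    {x : ℂ × ℝ} {v : ℂ} (σ : ℝ)
    (hN : ∀ p s, (p ≠ 0 ∨ s ≠ 0) → Nrm K x p s → 0 ≤ σ * s → 0 < dt p v) :
    ∀ᶠ z : ℝ × (ℂ × ℝ) in 𝓝 (0, x), 0 < z.1 →
      (∀ p s, Nrm K z.2 p s → 0 ≤ dt p v) → Ill K z.2 (-v, σ * z.1) := by
  have key : ∀ᶠ z : ℝ × (ℂ × ℝ) in 𝓝 (0, x), ∀ ν ∈ Metric.sphere (0 : ℂ × ℝ) 1,
      Nrm K z.2 ν.1 ν.2 → 0 ≤ σ * ν.2 → σ * ν.2 * z.1 < dt ν.1 v := by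
    apply (isCompact_sphere (0 : ℂ × ℝ) 1).eventually_forall_of_forall_eventually
    intro ν hν
    have c1 : IsClosed {q : (ℝ × (ℂ × ℝ)) × (ℂ × ℝ) | Nrm K q.1.2 q.2.1 q.2.2} :=
      (isClosed_nrm K).preimage
          (f := fun q : (ℝ × (ℂ × ℝ)) × (ℂ × ℝ) => (q.1.2, q.2)) (by fun_prop)
    have c2 : IsClosed {q : (ℝ × (ℂ × ℝ)) × (ℂ × ℝ) | 0 ≤ σ * q.2.2} :=
      isClosed_le (by fun_prop) (by fun_prop)
    have c3 : IsClosed {q : (ℝ × (ℂ × ℝ)) × (ℂ × ℝ) | dt q.2.1 v ≤ σ * q.2.2 * q.1.1} :=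
      isClosed_le (by fun_prop) (by fun_prop)
    have hcl : IsClosed {q : (ℝ × (ℂ × ℝ)) × (ℂ × ℝ) | Nrm K q.1.2 q.2.1 q.2.2 ∧
        0 ≤ σ * q.2.2 ∧ dt q.2.1 v ≤ σ * q.2.2 * q.1.1} := c1.inter (c2.inter c3)
    have hnot : (((0, x), ν) : (ℝ × (ℂ × ℝ)) × (ℂ × ℝ)) ∈ {q : (ℝ × (ℂ × ℝ)) × (ℂ × ℝ) |
        Nrm K q.1.2 q.2.1 q.2.2 ∧ 0 ≤ σ * q.2.2 ∧ dt q.2.1 v ≤ σ * q.2.2 * q.1.1}ᶜ := by
      rintro ⟨h1, h2, h3⟩
      simp only [mul_zero] at h3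
      have := hN _ _ (sphere_ne hν) h1 h2
      linarith
    filter_upwards [hcl.isOpen_compl.mem_nhds hnot] with q hq h1 h2
    by_contra hcon
    exact hq ⟨h1, h2, not_lt.mp hcon⟩
  filter_upwards [key] with z hz hz0 hC
  by_contra hcon
  obtain ⟨ν, hν, h1, h2⟩ := exists_nrm_of_not_ill hK hint hcon
  simp only [dt_neg] at h2
  have h3 := hC _ _ h1
  have h4 : 0 ≤ σ * ν.2 := by
    by_contra h5
    have : σ * ν.2 * z.1 < 0 := mul_neg_of_neg_of_pos (not_le.mp h5) hz0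
    nlinarith
  have := hz ν hν h1 h4
  nlinarith

/-- From local to global. -/
theorem cover_of_local {K : Set (ℂ × ℝ)} (hK : Convex ℝ K) (hcomp : IsCompact K) {ι : Type*}
    (S : Finset ι) (d : ι → ℝ → ℂ × ℝ)
    (h : ∀ x ∈ K, ∀ᶠ z : ℝ × (ℂ × ℝ) in 𝓝 (0, x), 0 < z.1 → z.2 ∈ K →
      ∃ i ∈ S, Ill K z.2 (d i z.1)) :
    ∃ T : Finset (ℂ × ℝ), T.card ≤ S.card ∧ K ⊆ ⋃ t ∈ T, (fun x => t + x) '' interior K := by
  have key : ∀ᶠ t in 𝓝 (0:ℝ), ∀ y ∈ K, 0 < t → y ∈ K → ∃ i ∈ S, Ill K y (d i t) := by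
    apply hcomp.eventually_forall_of_forall_eventually
    intro y hy
    exact h y hy
  have key' : ∀ᶠ t in 𝓝[>] (0:ℝ), ∀ y ∈ K, 0 < t → y ∈ K → ∃ i ∈ S, Ill K y (d i t) :=
    key.filter_mono nhdsWithin_le_nhds
  obtain ⟨t, ht, ht0⟩ := (key'.and self_mem_nhdsWithin).exists
  exact cover_of_illum hK hcomp S (fun i => d i t) (fun y hy => ht y hy ht0 hy)

end Pool.Agent.Illum.Rot
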