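import Pool.Agent.Illum.RotSym

set_option autoImplicit false
set_option linter.unusedSectionVars false
set_option linter.style.longLine false

/-!
# Rotational symmetry of order at least four
-/

namespace Pool.Agent.Illum.Rot

open Set Filter Topology Complex

variable {n : ℕ} {K : Set (ℂ × ℝ)}

lemma angle_facts {n : ℕ} (hn : 4 ≤ n) :
    0 < Real.sin (2 * Real.pi / n) ∧
      1 - Real.cos (2 * Real.pi / n) ≤ Real.sin (2 * Real.pi / n) ∧
      (5 ≤ n → 1 - Real.cos (2 * Real.pi / n) < Real.sin (2 * Real.pi / n)) := by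
  have hpi := Real.pi_pos
  have hnR : (4:ℝ) ≤ n := by exact_mod_cast hn
  have hn0 : (0:ℝ) < n := by linarith
  have h1 : 0 < 2 * Real.pi / n := by positivity
  have h2 : 2 * Real.pi / n ≤ Real.pi / 2 := by
    rw [div_le_div_iff₀ hn0 (by norm_num)]
    nlinarith
  have h3 : 0 < Real.sin (2 * Real.pi / n) :=
    Real.sin_pos_of_pos_of_lt_pi h1 (by linarith)
  have h4 : 0 ≤ Real.cos (2 * Real.pi / n) :=
    Real.cos_nonneg_of_neg_pi_div_two_le_of_le (by linarith) h2
  have h5 := Real.sin_sq_add_cos_sq (2 * Real.pi / n)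
  refine ⟨h3, ?_, ?_⟩
  · nlinarith [mul_nonneg h3.le h4]
  · intro h6
    have h6R : (5:ℝ) ≤ n := by exact_mod_cast h6
    have h7 : 2 * Real.pi / n < Real.pi / 2 := by
      rw [div_lt_div_iff₀ hn0 (by norm_num)]
      nlinarith
    have h8 : 0 < Real.cos (2 * Real.pi / n) :=
      Real.cos_pos_of_mem_Ioo ⟨by linarith, h7⟩
    nlinarith [mul_pos h3 h8]

namespace Body

lemma quad (h : Body n K) (hn : 4 ≤ n) : ∀ x ∈ K, ∀ p s, Nrm K x p s →
    |dt p (I * x.1)| ≤ dt p x.1 := by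
  intro x hx p s hps
  obtain ⟨h1, h2, _⟩ := angle_facts hn
  have h3 := h.nrm_two (by omega) hx hps
  obtain ⟨zm, zM, c0, B⟩ := h.bal (by omega)
  have h4 := B.nonneg x hx p s hps
  have h5 : |dt p (I * x.1)| * Real.sin (2 * Real.pi / n) ≤
      dt p x.1 * Real.sin (2 * Real.pi / n) :=
    h3.trans (mul_le_mul_of_nonneg_left h2 h4)
  exact le_of_mul_le_mul_right h5 h1

lemma quad_strict (h : Body n K) (hn : 5 ≤ n) : ∀ x ∈ K, ∀ p s, Nrm K x p s →
    0 < dt p x.1 → |dt p (I * x.1)| < dt p x.1 := by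
  intro x hx p s hps h4
  obtain ⟨h1, _, h2⟩ := angle_facts (by omega : 4 ≤ n)
  have h3 := h.nrm_two (by omega) hx hps
  have h5 : |dt p (I * x.1)| * Real.sin (2 * Real.pi / n) <
      dt p x.1 * Real.sin (2 * Real.pi / n) :=
    h3.trans_lt (mul_lt_mul_of_pos_left (h2 hn) h4)
  exact lt_of_mul_lt_mul_right h5 h1.le

/-- if a horizontal face is not a point, its centre has only vertical normals -/
lemma flat (h : Body n K) (hn : 4 ≤ n) {w : ℂ} {c : ℝ} (hw : w ≠ 0) (hx : (w, c) ∈ K)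
    {p : ℂ} {s : ℝ} (hps : Nrm K (0, c) p s) : p = 0 := by
  have h1 : ∀ k ∈ Finset.range n, dt p (zt n ^ k * w) ≤ 0 := by
    intro k _
    have := hps _ (h.pow_mem k hx)
    simp only [dt_zero, zero_add] at this
    linarith
  have h2 := sum_dt (n := n) (by omega) p w
  have h3 := (Finset.sum_eq_zero_iff_of_nonpos h1).mp h2 0 (Finset.mem_range.mpr (by omega))
  rw [pow_zero, one_mul] at h3
  have h4 : Nrm K (w, c) p s := by
    intro y hy
    have := hps y hy
    simp only [dt_zero, zero_add] at this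
    simp only [h3, zero_add]
    exact this
  have h5 := h.quad hn _ hx p s h4
  simp only [h3] at h5
  have h6 : dt p (I * w) = 0 := abs_eq_zero.mp (le_antisymm h5 (abs_nonneg _))
  have h7 := dt_sq p w
  rw [h3, h6] at h7
  by_contra hp
  have := mul_pos (normSq_pos.mpr hp) (normSq_pos.mpr hw)
  nlinarith

end Body

lemma bd_omega {q w : ℂ} (h : |dt (I * ((1 + I) * q)) w| = |dt ((1 + I) * q) w|) :
    dt q w * dt (I * q) w = 0 := by
  have e1 : dt ((1 + I) * q) w = dt q w + dt (I * q) w := by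
    simp only [dt, mul_re, mul_im, add_re, add_im, one_re, one_im, I_re, I_im]; ring
  have e2 : dt (I * ((1 + I) * q)) w = dt (I * q) w - dt q w := by
    simp only [dt, mul_re, mul_im, add_re, add_im, one_re, one_im, I_re, I_im]; ring
  rw [e1, e2] at h
  have h1 := sq_abs (dt (I * q) w - dt q w)
  rw [h, sq_abs] at h1
  nlinarith

lemma bd_sq {q w : ℂ} (h : |dt (I * q) w| = |dt q w|) :
    dt (I * q) w ^ 2 = dt q w ^ 2 := by
  rw [← sq_abs, h, sq_abs]

lemma hqq_std (q : ℂ) (hq : q ≠ 0) : ∀ w : ℂ, w ≠ 0 → |dt (I * q) w| = |dt q w| →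
    |dt (I * ((1 + I) * q)) w| = |dt ((1 + I) * q) w| → False := by
  intro w hw h1 h2
  have h3 := bd_sq h1
  have h4 := bd_omega h2
  have h5 : dt q w = 0 ∧ dt (I * q) w = 0 := by
    rcases mul_eq_zero.mp h4 with h | h
    · exact ⟨h, by rw [h] at h3; exact pow_eq_zero_iff (two_ne_zero) |>.mp (by linarith)⟩
    · exact ⟨by rw [h] at h3; exact pow_eq_zero_iff (two_ne_zero) |>.mp (by linarith), h⟩
  have h6 := dt_sq w q
  have e1 : dt w q = dt q w := by simp only [dt]; ring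
  have e2 : dt w (I * q) = dt (I * q) w := by simp only [dt]; ring
  rw [e1, e2, h5.1, h5.2] at h6
  have := mul_pos (normSq_pos.mpr hw) (normSq_pos.mpr hq)
  nlinarith

lemma b4_of_bd {q w : ℂ} (h : |dt (I * q) w| = |dt q w|) :
    ((w * (starRingEnd ℂ) q) ^ 4).im = 0 := by
  have h3 := bd_sq h
  have e : ((w * (starRingEnd ℂ) q) ^ 4).im =
      4 * dt q w * dt (I * q) w * (dt q w ^ 2 - dt (I * q) w ^ 2) := by
    have : (w * (starRingEnd ℂ) q) ^ 4 =
        (w * (starRingEnd ℂ) q) * (w * (starRingEnd ℂ) q) *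
          ((w * (starRingEnd ℂ) q) * (w * (starRingEnd ℂ) q)) := by ring
    rw [this]
    simp only [dt, mul_re, mul_im, I_re, I_im, conj_re, conj_im]; ring
  rw [e, h3]; ring

lemma b4_of_bd' {q w : ℂ} (h : |dt (I * ((1 + I) * q)) w| = |dt ((1 + I) * q) w|) :
    ((w * (starRingEnd ℂ) q) ^ 4).im = 0 := by
  have h3 := bd_omega h
  have e : ((w * (starRingEnd ℂ) q) ^ 4).im =
      4 * (dt q w * dt (I * q) w) * (dt q w ^ 2 - dt (I * q) w ^ 2) := by
    have : (w * (starRingEnd ℂ) q) ^ 4 =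
        (w * (starRingEnd ℂ) q) * (w * (starRingEnd ℂ) q) *
          ((w * (starRingEnd ℂ) q) * (w * (starRingEnd ℂ) q)) := by ring
    rw [this]
    simp only [dt, mul_re, mul_im, I_re, I_im, conj_re, conj_im]; ring
  rw [e, h3]; ring

/-- exceptional horizontal positions for fourfold symmetry -/
def Ex (K : Set (ℂ × ℝ)) (w : ℂ) : Prop :=
  w ≠ 0 ∧ (∃ c, (w, c) ∈ K) ∧ ∃ p : ℂ, p ≠ 0 ∧ dt p w ^ 2 = dt p (I * w) ^ 2 ∧
    ∀ y ∈ K, dt p y.1 ^ 2 ≤ dt p w ^ 2 ∧ dt p (I * y.1) ^ 2 ≤ dt p w ^ 2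

lemma ex_norm {w₁ w₂ : ℂ} (h1 : Ex K w₁) (h2 : Ex K w₂) : normSq w₂ ≤ normSq w₁ := by
  obtain ⟨_, _, p, hp, he, hy⟩ := h1
  obtain ⟨_, ⟨c, hc⟩, _⟩ := h2
  have h3 := hy _ hc
  have h4 := dt_sq p w₂
  have h5 := dt_sq p w₁
  have h6 := normSq_pos.mpr hp
  simp only at h3
  have h7 : normSq p * normSq w₂ ≤ normSq p * normSq w₁ := by
    rw [← h4, ← h5]; linarith [h3.1, h3.2]
  exact le_of_mul_le_mul_left h7 h6

lemma ex_ex {w₁ w₂ : ℂ} (h1 : Ex K w₁) (h2 : Ex K w₂) :
    ((w₁ * (starRingEnd ℂ) w₂) ^ 2).im = 0 := by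
  have hle := ex_norm h1 h2
  have hle' := ex_norm h2 h1
  obtain ⟨_, _, p, hp, he, hy⟩ := h1
  obtain ⟨_, ⟨c, hc⟩, _⟩ := h2
  have h3 := hy _ hc
  have h4 := dt_sq p w₂
  have h5 := dt_sq p w₁
  have h6 := normSq_pos.mpr hp
  simp only at h3
  have h7 : normSq w₁ = normSq w₂ := le_antisymm hle' hle
  rw [h7] at h5
  have h8 : dt p w₂ ^ 2 = dt p (I * w₂) ^ 2 := by linarith [h3.1, h3.2]
  -- pure algebra
  have h9 : ((w₁ * (starRingEnd ℂ) w₂) ^ 2).im * normSq p ^ 2 =
      2 * (dt p w₂ * dt p (I * w₂)) * (dt p w₁ ^ 2 - dt p (I * w₁) ^ 2) -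
      2 * (dt p w₁ * dt p (I * w₁)) * (dt p w₂ ^ 2 - dt p (I * w₂) ^ 2) := by
    rw [pow_two (w₁ * (starRingEnd ℂ) w₂)]
    simp only [dt, mul_re, mul_im, I_re, I_im, conj_re, conj_im, normSq_apply]; ring
  rw [he, h8, sub_self, sub_self, mul_zero, mul_zero, sub_self] at h9
  rcases mul_eq_zero.mp h9 with h | h
  · exact h
  · exfalso
    have : 0 < normSq p ^ 2 := by positivity
    linarith

lemma exists_good_q (K : Set (ℂ × ℝ)) : ∃ q : ℂ, q ≠ 0 ∧
    ∀ w, Ex K w → ((w * (starRingEnd ℂ) q) ^ 4).im ≠ 0 := by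
  by_contra hcon
  push Not at hcon
  obtain ⟨w₁, hw1, h1⟩ := hcon 1 one_ne_zero
  obtain ⟨q, hq⟩ : ∃ q : ℂ, q ^ 4 = I := IsAlgClosed.exists_pow_nat_eq I (by norm_num)
  have hq0 : q ≠ 0 := by
    rintro rfl
    rw [zero_pow (by norm_num)] at hq
    exact I_ne_zero hq.symm
  obtain ⟨w₂, hw2, h2⟩ := hcon q hq0
  have h3 := ex_ex hw1 hw2
  rw [map_one, mul_one] at h1
  rw [mul_pow, ← map_pow, hq, conj_I] at h2
  have hA : w₁ ^ 2 ≠ 0 := pow_ne_zero _ hw1.1
  have hB : w₂ ^ 2 ≠ 0 := pow_ne_zero _ hw2.1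
  set A := w₁ ^ 2 with hAdef
  set B := w₂ ^ 2 with hBdef
  have e1 : w₁ ^ 4 = A * A := by rw [hAdef]; ring
  have e2 : w₂ ^ 4 = B * B := by rw [hBdef]; ring
  have e3 : (w₁ * (starRingEnd ℂ) w₂) ^ 2 = A * (starRingEnd ℂ) B := by
    rw [hAdef, hBdef, map_pow]; ring
  rw [e1] at h1
  rw [e2] at h2
  rw [e3] at h3
  simp only [mul_re, mul_im, I_re, I_im, conj_re, conj_im, neg_re, neg_im] at h1 h2 h3
  -- A.re*A.im = 0, B.re^2 = B.im^2, A.im*B.re = A.re*B.im
  have h1' : A.re * A.im = 0 := by linarith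
  have h2' : B.re * B.re = B.im * B.im := by linarith
  have h3' : A.im * B.re = A.re * B.im := by linarith
  have hBre : B.re ≠ 0 := by
    intro h
    apply hB
    have : B.im = 0 := by
      rw [h] at h2'
      simpa using h2'.symm
    exact Complex.ext h this
  have hBim : B.im ≠ 0 := by
    intro h
    rw [h] at h2'
    apply hBre
    simpa using h2'
  rcases mul_eq_zero.mp h1' with h | h
  · rw [h, zero_mul] at h3'
    have : A.im = 0 := (mul_eq_zero.mp h3').resolve_right hBre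
    exact hA (Complex.ext h this)
  · rw [h, zero_mul] at h3'
    have : A.re = 0 := (mul_eq_zero.mp h3'.symm).resolve_right hBim
    exact hA (Complex.ext this h)

lemma zt_four : zt 4 = I := by
  apply Complex.ext
  · simp only [zt, I_re]
    have : (2 * Real.pi / (4:ℕ) : ℝ) = Real.pi / 2 := by push_cast; ring
    rw [this, Real.cos_pi_div_two]
  · simp only [zt, I_im]
    have : (2 * Real.pi / (4:ℕ) : ℝ) = Real.pi / 2 := by push_cast; ring
    rw [this, Real.sin_pi_div_two]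

/-- exceptional points give exceptional positions -/
lemma ex_of_eq (h : Body 4 K) {x : ℂ × ℝ} (hx : x ∈ K) {p : ℂ} {s : ℝ} (hps : Nrm K x p s)
    (hs : ∀ y ∈ K, 0 ≤ s * (y.2 - x.2)) (ha : 0 < dt p x.1)
    (hb : |dt p (I * x.1)| = dt p x.1) : Ex K x.1 := by
  have hx0 : x.1 ≠ 0 := by
    intro h0; rw [h0, dt_zero] at ha; exact lt_irrefl _ ha
  have hp0 : p ≠ 0 := by
    intro h0; rw [h0, zero_dt] at ha; exact lt_irrefl _ ha
  refine ⟨hx0, ⟨x.2, hx⟩, p, hp0, ?_, ?_⟩
  · rw [← sq_abs (dt p (I * x.1)), hb]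
  · have key : ∀ y ∈ K, dt p y.1 ≤ dt p x.1 := by
      intro y hy
      have h1 := hps y hy
      have h2 := hs y hy
      nlinarith
    intro y hy
    have h0 := key y hy
    have h1 := key _ (h.pow_mem 1 hy)
    have h2 := key _ (h.pow_mem 2 hy)
    have h3 := key _ (h.pow_mem 3 hy)
    rw [zt_four] at h1 h2 h3
    simp only at h1 h2 h3
    have e2 : dt p (I ^ 2 * y.1) = - dt p y.1 := by rw [I_sq, neg_one_mul, dt_neg]
    have e3 : dt p (I ^ 3 * y.1) = - dt p (I * y.1) := by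
      have : I ^ 3 * y.1 = -(I * y.1) := by
        have : I ^ 3 = -I := by rw [pow_succ, I_sq]; ring
        rw [this]; ring
      rw [this, dt_neg]
    rw [pow_one] at h1
    rw [e2] at h2
    rw [e3] at h3
    constructor <;> nlinarith

/-- **Order at least four.** -/
theorem cover_order_four (h : Body n K) (hn : 4 ≤ n) :
    ∃ T : Finset (ℂ × ℝ), T.card ≤ 8 ∧ K ⊆ ⋃ t ∈ T, (fun x => t + x) '' interior K := by
  obtain ⟨zm, zM, c0, B⟩ := h.bal (by omega)
  have quad := h.quad hn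
  by_cases hFt : ∃ w : ℂ, w ≠ 0 ∧ (w, zM) ∈ K
  · by_cases hFb : ∃ w : ℂ, w ≠ 0 ∧ (w, zm) ∈ K
    · obtain ⟨w, hw, hwK⟩ := hFt
      obtain ⟨w', hw', hwK'⟩ := hFb
      obtain ⟨q, hq0, hq⟩ := exists_good_q K
      refine main44 B quad (fun p s hps => h.flat hn hw hwK hps)
        (fun p s hps => h.flat hn hw' hwK' hps) (q := q) (q' := (1 + I) * q) hq0 ?_
        (hqq_std q hq0) ?_ ?_
      · refine mul_ne_zero ?_ hq0
        intro h0
        have := congrArg Complex.re h0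
        simp at this
      · intro x hx hxM p s hps hs ha hb hbd
        rcases (Nat.lt_or_ge 4 n) with h5 | h5
        · exact absurd hb (h.quad_strict h5 x hx p s hps ha).ne
        · have hn4 : n = 4 := le_antisymm h5 hn
          subst hn4
          have hex : Ex K x.1 := ex_of_eq h hx hps
            (fun y hy => by rw [hxM]; nlinarith [(B.le y hy).2]) ha hb
          exact hq _ hex (b4_of_bd hbd)
      · intro x hx hxm p s hps hs ha hb hbd
        rcases (Nat.lt_or_ge 4 n) with h5 | h5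
        · exact absurd hb (h.quad_strict h5 x hx p s hps ha).ne
        · have hn4 : n = 4 := le_antisymm h5 hn
          subst hn4
          have hex : Ex K x.1 := ex_of_eq h hx hps
            (fun y hy => by rw [hxm]; exact mul_nonneg hs (by linarith [(B.le y hy).1])) ha hb
          exact hq _ hex (b4_of_bd' hbd)
    · push Not at hFb
      refine main62 B quad (-1) ?_
      intro x hx hxM hxm p s hps hn hs
      refine B.pos_of_not_end hx hps hn (fun _ => by linarith) (fun h1 => ?_)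
      exfalso
      by_cases h0 : x.1 = 0
      · exact hxm (Prod.ext h0 h1)
      · exact hFb x.1 h0 (by rw [← h1]; exact hx)
  · push Not at hFt
    refine main62 B quad 1 ?_
    intro x hx hxM hxm p s hps hn hs
    refine B.pos_of_not_end hx hps hn (fun h1 => ?_) (fun _ => by linarith)
    exfalso
    by_cases h0 : x.1 = 0
    · exact hxM (Prod.ext h0 h1)
    · exact hFt x.1 h0 (by rw [← h1]; exact hx)

end Pool.Agent.Illum.Rot
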