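import Pool.Agent.Illum.RotBal

set_option autoImplicit false
set_option linter.unusedSectionVars false
set_option linter.style.longLine false

/-!
# Eight directions: `4 + 4` and `6 + 2`
-/

namespace Pool.Agent.Illum.Rot

open Set Filter Topology Complex

variable {K : Set (ℂ × ℝ)} {zm zM c0 : ℝ}

lemma dt_I_I (v w : ℂ) : dt (I * (I * v)) w = -dt v w := by
  simp only [dt, mul_re, mul_im, I_re, I_im]; ring

lemma cover4 (q w : ℂ) :
    ∃ k ∈ Finset.range 4, |dt (I * (I ^ k * q)) w| ≤ dt (I ^ k * q) w := by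
  have h0 : dt (I * (I ^ 0 * q)) w = dt (I * q) w := by simp
  have h1 : dt (I * (I ^ 1 * q)) w = -dt q w := by rw [pow_one, dt_I_I]
  have h2 : dt (I ^ 2 * q) w = - dt q w := by
    have : I ^ 2 * q = I * (I * q) := by ring
    rw [this, dt_I_I]
  have h2' : dt (I * (I ^ 2 * q)) w = - dt (I * q) w := by
    have : I * (I ^ 2 * q) = I * (I * (I * q)) := by ring
    rw [this, dt_I_I]
  have h3 : dt (I ^ 3 * q) w = - dt (I * q) w := by
    have : I ^ 3 * q = I * (I * (I * q)) := by ring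
    rw [this, dt_I_I]
  have h3' : dt (I * (I ^ 3 * q)) w = dt q w := by
    have : I * (I ^ 3 * q) = I * (I * (I * (I * q))) := by ring
    rw [this, dt_I_I, dt_I_I, neg_neg]
  set X := dt q w with hX
  set Y := dt (I * q) w with hY
  by_cases hc : |Y| ≤ |X|
  · rcases le_total 0 X with hx | hx
    · refine ⟨0, by simp, ?_⟩
      rw [h0, pow_zero, one_mul, ← hX]
      rwa [abs_of_nonneg hx] at hc
    · refine ⟨2, by simp, ?_⟩
      rw [h2', h2, abs_neg]
      rwa [abs_of_nonpos hx] at hc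
  · have hc' : |X| ≤ |Y| := (not_le.mp hc).le
    rcases le_total 0 Y with hx | hx
    · refine ⟨1, by simp, ?_⟩
      rw [h1, pow_one, ← hY, abs_neg]
      rwa [abs_of_nonneg hx] at hc'
    · refine ⟨3, by simp, ?_⟩
      rw [h3', h3]
      rwa [abs_of_nonpos hx] at hc'

lemma bd_pow (k : ℕ) (q w : ℂ) (h : |dt (I * (I ^ k * q)) w| = |dt (I ^ k * q) w|) :
    |dt (I * q) w| = |dt q w| := by
  induction k with
  | zero => simpa using h
  | succ k ih =>
    apply ih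
    have e1 : I ^ (k + 1) * q = I * (I ^ k * q) := by ring
    rw [e1, dt_I_I, abs_neg] at h
    exact h.symm

theorem main44 (B : Bal K zm zM c0)
    (quad : ∀ x ∈ K, ∀ p s, Nrm K x p s → |dt p (I * x.1)| ≤ dt p x.1)
    (htop : ∀ p s, Nrm K (0, zM) p s → p = 0) (hbot : ∀ p s, Nrm K (0, zm) p s → p = 0)
    {q q' : ℂ} (hq : q ≠ 0) (hq' : q' ≠ 0)
    (hqq : ∀ w : ℂ, w ≠ 0 → |dt (I * q) w| = |dt q w| → |dt (I * q') w| = |dt q' w| → False)
    (Etop : ∀ x ∈ K, x.2 = zM → ∀ p s, Nrm K x p s → s ≤ 0 → 0 < dt p x.1 →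
      |dt p (I * x.1)| = dt p x.1 → |dt (I * q) x.1| = |dt q x.1| → False)
    (Ebot : ∀ x ∈ K, x.2 = zm → ∀ p s, Nrm K x p s → 0 ≤ s → 0 < dt p x.1 →
      |dt p (I * x.1)| = dt p x.1 → |dt (I * q') x.1| = |dt q' x.1| → False) :
    ∃ T : Finset (ℂ × ℝ), T.card ≤ 8 ∧ K ⊆ ⋃ t ∈ T, (fun x => t + x) '' interior K := by
  have hS : ∀ (r : ℂ) (k : ℕ), IsClosed {w : ℂ | |dt (I * (I ^ k * r)) w| ≤ dt (I ^ k * r) w} :=
    fun r k => isClosed_le (by fun_prop) (by fun_prop)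
  have hne : ∀ (r : ℂ) (_ : r ≠ 0) (k : ℕ), I ^ k * r ≠ 0 := fun r hr k =>
    mul_ne_zero (pow_ne_zero _ I_ne_zero) hr
  have hC : ∀ r : ℂ, ∀ y ∈ K, ∀ k ∈ Finset.range 4,
      y.1 ∈ {w : ℂ | |dt (I * (I ^ k * r)) w| ≤ dt (I ^ k * r) w} →
      ∀ p s, Nrm K y p s → 0 ≤ dt p (I ^ k * r) := by
    intro r y hy k _ hk p s hn
    by_cases hy0 : y.1 = 0
    · by_cases hp : p = 0
      · rw [hp, zero_dt]
      · exfalso
        rcases B.end_of_zero hy (Or.inl hp) hn (by rw [hy0, dt_zero]) with h | h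
        · have : y = (0, zM) := Prod.ext hy0 h.1
          rw [this] at hn
          exact hp (htop _ _ hn)
        · have : y = (0, zm) := Prod.ext hy0 h.1
          rw [this] at hn
          exact hp (hbot _ _ hn)
    · exact dt_nonneg_of_sec hy0 le_rfl (by rw [one_mul]; exact hk) ((abs_nonneg _).trans hk)
        (quad y hy p s hn)
  have hloc : ∀ (σ : ℝ) (r : ℂ) (x : ℂ × ℝ), x ∈ K →
      (∀ k ∈ Finset.range 4, x.1 ∈ {w : ℂ | |dt (I * (I ^ k * r)) w| ≤ dt (I ^ k * r) w} →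
        ∀ p s, (p ≠ 0 ∨ s ≠ 0) → Nrm K x p s → 0 ≤ σ * s → 0 < dt p (I ^ k * r)) →
      ∀ᶠ z : ℝ × (ℂ × ℝ) in 𝓝 (0, x), 0 < z.1 → z.2 ∈ K →
        ∃ k ∈ Finset.range 4, Ill K z.2 (-(I ^ k * r), σ * z.1) := by
    intro σ r x _ h
    exact fam_local B.conv B.hint σ (Finset.range 4) (fun k => I ^ k * r) _ (hS r) (cover4 r)
      (Eventually.of_forall (fun y hy => hC r y hy)) h
  have hcard : (Finset.range 4 ×ˢ (Finset.univ : Finset Bool)).card = 8 := by
    simp
  rw [← hcard]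
  apply cover_of_local B.conv B.comp (Finset.range 4 ×ˢ (Finset.univ : Finset Bool))
    (fun i t => if i.2 = true then (-(I ^ i.1 * q), (-1) * t) else (-(I ^ i.1 * q'), 1 * t))
  intro x hx
  have fin1 : (∀ᶠ z : ℝ × (ℂ × ℝ) in 𝓝 (0, x), 0 < z.1 → z.2 ∈ K →
        ∃ k ∈ Finset.range 4, Ill K z.2 (-(I ^ k * q), (-1) * z.1)) →
      ∀ᶠ z : ℝ × (ℂ × ℝ) in 𝓝 (0, x), 0 < z.1 → z.2 ∈ K →
        ∃ i ∈ (Finset.range 4 ×ˢ (Finset.univ : Finset Bool)), Ill K z.2
          (if i.2 = true then (-(I ^ i.1 * q), (-1) * z.1) else (-(I ^ i.1 * q'), 1 * z.1)) := by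
    intro h
    filter_upwards [h] with z hz h0 h1
    obtain ⟨k, hk, hk2⟩ := hz h0 h1
    exact ⟨(k, true), by simp only [Finset.mem_product, Finset.mem_univ, and_true]; exact hk,
      by simpa using hk2⟩
  have fin2 : (∀ᶠ z : ℝ × (ℂ × ℝ) in 𝓝 (0, x), 0 < z.1 → z.2 ∈ K →
        ∃ k ∈ Finset.range 4, Ill K z.2 (-(I ^ k * q'), 1 * z.1)) →
      ∀ᶠ z : ℝ × (ℂ × ℝ) in 𝓝 (0, x), 0 < z.1 → z.2 ∈ K →
        ∃ i ∈ (Finset.range 4 ×ˢ (Finset.univ : Finset Bool)), Ill K z.2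
          (if i.2 = true then (-(I ^ i.1 * q), (-1) * z.1) else (-(I ^ i.1 * q'), 1 * z.1)) := by
    intro h
    filter_upwards [h] with z hz h0 h1
    obtain ⟨k, hk, hk2⟩ := hz h0 h1
    exact ⟨(k, false), by simp only [Finset.mem_product, Finset.mem_univ, and_true]; exact hk,
      by simpa using hk2⟩
  have hzz := B.zm_lt_zM
  by_cases hxM : x.2 = zM
  · apply fin1
    apply hloc (-1) q x hx
    intro k _ hk p s hps hn hs
    have hpos : 0 < dt p x.1 := B.pos_of_not_end hx hps hn (fun _ => by linarith)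
      (fun h => by rw [hxM] at h; exact absurd h.symm hzz.ne)
    have hw : x.1 ≠ 0 := by
      intro h0; rw [h0, dt_zero] at hpos; exact lt_irrefl _ hpos
    refine dt_pos_of_sec hw hk (quad x hx p s hn) hpos ?_ (hne q hq k)
    intro e1 e2
    refine Etop x hx hxM p s hn (by linarith) hpos e2 (bd_pow k q x.1 ?_)
    rw [e1, abs_of_nonneg ((abs_nonneg _).trans hk)]
  by_cases hxm : x.2 = zm
  · apply fin2
    apply hloc 1 q' x hx
    intro k _ hk p s hps hn hs
    have hpos : 0 < dt p x.1 := B.pos_of_not_end hx hps hn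
      (fun h => absurd h hxM) (fun _ => by linarith)
    have hw : x.1 ≠ 0 := by
      intro h0; rw [h0, dt_zero] at hpos; exact lt_irrefl _ hpos
    refine dt_pos_of_sec hw hk (quad x hx p s hn) hpos ?_ (hne q' hq' k)
    intro e1 e2
    refine Ebot x hx hxm p s hn (by linarith) hpos e2 (bd_pow k q' x.1 ?_)
    rw [e1, abs_of_nonneg ((abs_nonneg _).trans hk)]
  by_cases hx0 : x.1 = 0
  · have hint : x ∈ interior K := B.mem_int_of_axis hx hx0 hxM hxm
    have hcont : Continuous (fun z : ℝ × (ℂ × ℝ) => z.2) := by fun_prop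
    have h1 : ∀ᶠ z : ℝ × (ℂ × ℝ) in 𝓝 (0, x), z.2 ∈ interior K :=
      (hcont.tendsto (0, x)).eventually (isOpen_interior.mem_nhds hint)
    apply fin1
    filter_upwards [h1] with z hz _ _
    exact ⟨0, by simp, ill_of_interior _ hz⟩
  by_cases hbd : |dt (I * q) x.1| = |dt q x.1|
  · -- use the second family
    apply fin2
    apply hloc 1 q' x hx
    intro k _ hk p s hps hn hs
    have hpos : 0 < dt p x.1 := B.pos_of_not_end hx hps hn
      (fun h => absurd h hxM) (fun h => absurd h hxm)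
    refine dt_pos_of_sec hx0 hk (quad x hx p s hn) hpos ?_ (hne q' hq' k)
    intro e1 _
    refine hqq x.1 hx0 hbd (bd_pow k q' x.1 ?_)
    rw [e1, abs_of_nonneg ((abs_nonneg _).trans hk)]
  · apply fin1
    apply hloc (-1) q x hx
    intro k _ hk p s hps hn hs
    have hpos : 0 < dt p x.1 := B.pos_of_not_end hx hps hn
      (fun h => absurd h hxM) (fun h => absurd h hxm)
    refine dt_pos_of_sec hx0 hk (quad x hx p s hn) hpos ?_ (hne q hq k)
    intro e1 _
    apply hbd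
    apply bd_pow k q x.1
    rw [e1, abs_of_nonneg ((abs_nonneg _).trans hk)]

end Pool.Agent.Illum.Rot
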