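import Pool.Agent.Illum.RotSym

set_option autoImplicit false
set_option linter.unusedSectionVars false
set_option linter.style.longLine false

/-!
# Silhouette points: a general illumination criterion in `ℂ × ℝ`
-/

namespace Pool.Agent.Illum.Rot

open Set Filter Topology Complex

variable {K : Set (ℂ × ℝ)} {zm zM c0 : ℝ}

/-- silhouette points: points with a horizontal normal -/
def Sil (K : Set (ℂ × ℝ)) (x : ℂ × ℝ) : Prop := ∃ g : ℂ, g ≠ 0 ∧ Nrm K x g 0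

lemma Nrm.comb {x : ℂ × ℝ} {p p' : ℂ} {s s' : ℝ} (h : Nrm K x p s) (h' : Nrm K x p' s')
    {a b : ℝ} (ha : 0 ≤ a) (hb : 0 ≤ b) : Nrm K x (a • p + b • p') (a * s + b * s') := by
  intro y hy
  have h1 := mul_le_mul_of_nonneg_left (h y hy) ha
  have h2 := mul_le_mul_of_nonneg_left (h' y hy) hb
  have e : ∀ w, dt (a • p + b • p') w = a * dt p w + b * dt p' w := by
    intro w
    simp only [dt, add_re, add_im, real_smul, mul_re, mul_im, ofReal_re, ofReal_im]; ring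
  rw [e, e]
  nlinarith

lemma vert_of_not_sil (hK : Convex ℝ K) (hint : (interior K).Nonempty) {x : ℂ × ℝ}
    (h : ¬ Sil K x) : Ill K x (0, -1) ∨ Ill K x (0, 1) := by
  by_contra hcon
  push Not at hcon
  obtain ⟨h1, h2⟩ := hcon
  obtain ⟨ν, hν, n1, e1⟩ := exists_nrm_of_not_ill hK hint h1
  obtain ⟨μ, hμ, n2, e2⟩ := exists_nrm_of_not_ill hK hint h2
  simp only [dt_zero] at e1 e2
  have hν' := sphere_ne hν
  have hμ' := sphere_ne hμ
  have f1 : ν.2 < 0 := by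
    rcases lt_or_eq_of_le (show ν.2 ≤ 0 by linarith) with h3 | h3
    · exact h3
    · exfalso
      rcases hν' with h4 | h4
      · exact h ⟨ν.1, h4, by rw [h3] at n1; exact n1⟩
      · exact h4 h3
  have f2 : 0 < μ.2 := by
    rcases lt_or_eq_of_le (show 0 ≤ μ.2 by linarith) with h3 | h3
    · exact h3
    · exfalso
      rcases hμ' with h4 | h4
      · exact h ⟨μ.1, h4, by rw [← h3] at n2; exact n2⟩
      · exact h4 h3.symm
  have n3 := n1.comb n2 f2.le (neg_nonneg.mpr f1.le)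
  have e3 : μ.2 * ν.2 + -ν.2 * μ.2 = 0 := by ring
  rw [e3] at n3
  by_cases hp : μ.2 • ν.1 + (-ν.2) • μ.1 = 0
  · obtain ⟨o, ho⟩ := hint
    have g1 := lt_of_interior ho hν' n1
    have g2 := lt_of_interior ho hμ' n2
    have g3 : ∀ w, μ.2 * dt ν.1 w + (-ν.2) * dt μ.1 w = 0 := by
      intro w
      have : dt (μ.2 • ν.1 + (-ν.2) • μ.1) w = 0 := by rw [hp, zero_dt]
      rw [← this]
      simp only [dt, add_re, add_im, real_smul, mul_re, mul_im, ofReal_re, ofReal_im]; ring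
    have g4 := g3 o.1
    have g5 := g3 x.1
    nlinarith [mul_lt_mul_of_pos_left g1 f2, mul_lt_mul_of_pos_left g2 (neg_pos.mpr f1)]
  · exact h ⟨_, hp, n3⟩

lemma dt_le_norm (p w : ℂ) : dt p w ≤ ‖p‖ * ‖w‖ := by
  have h1 : dt p w = (p * (starRingEnd ℂ) w).re := by
    simp only [dt, mul_re, conj_re, conj_im]; ring
  rw [h1]
  refine (re_le_norm _).trans ?_
  rw [norm_mul, RCLike.norm_conj]

/-- local lemma with strict positivity for all normals -/
lemma local_strict (hK : Convex ℝ K) (hint : (interior K).Nonempty)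
    {x : ℂ × ℝ} {v : ℂ} (σ : ℝ)
    (hN : ∀ p s, (p ≠ 0 ∨ s ≠ 0) → Nrm K x p s → 0 < dt p v) :
    ∀ᶠ z : ℝ × (ℂ × ℝ) in 𝓝 (0, x), Ill K z.2 (-v, σ * z.1) := by
  have key : ∀ᶠ z : ℝ × (ℂ × ℝ) in 𝓝 (0, x), ∀ ν ∈ Metric.sphere (0 : ℂ × ℝ) 1,
      Nrm K z.2 ν.1 ν.2 → σ * ν.2 * z.1 < dt ν.1 v := by
    apply (isCompact_sphere (0 : ℂ × ℝ) 1).eventually_forall_of_forall_eventually
    intro ν hν
    have c1 : IsClosed {q : (ℝ × (ℂ × ℝ)) × (ℂ × ℝ) | Nrm K q.1.2 q.2.1 q.2.2} :=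
      (isClosed_nrm K).preimage
          (f := fun q : (ℝ × (ℂ × ℝ)) × (ℂ × ℝ) => (q.1.2, q.2)) (by fun_prop)
    have c3 : IsClosed {q : (ℝ × (ℂ × ℝ)) × (ℂ × ℝ) | dt q.2.1 v ≤ σ * q.2.2 * q.1.1} :=
      isClosed_le (by fun_prop) (by fun_prop)
    have hcl : IsClosed {q : (ℝ × (ℂ × ℝ)) × (ℂ × ℝ) | Nrm K q.1.2 q.2.1 q.2.2 ∧
        dt q.2.1 v ≤ σ * q.2.2 * q.1.1} := c1.inter c3
    have hnot : (((0, x), ν) : (ℝ × (ℂ × ℝ)) × (ℂ × ℝ)) ∈ {q : (ℝ × (ℂ × ℝ)) × (ℂ × ℝ) |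
        Nrm K q.1.2 q.2.1 q.2.2 ∧ dt q.2.1 v ≤ σ * q.2.2 * q.1.1}ᶜ := by
      rintro ⟨h1, h3⟩
      simp only [mul_zero] at h3
      have := hN _ _ (sphere_ne hν) h1
      linarith
    filter_upwards [hcl.isOpen_compl.mem_nhds hnot] with q hq h1
    by_contra hcon
    exact hq ⟨h1, not_lt.mp hcon⟩
  filter_upwards [key] with z hz
  by_contra hcon
  obtain ⟨ν, hν, h1, h2⟩ := exists_nrm_of_not_ill hK hint hcon
  simp only [dt_neg] at h2
  have := hz ν hν h1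
  nlinarith

/-- local lemma at an end face (`σ = 1` for the top, `σ = -1` for the bottom) -/
lemma local_end (hK : Convex ℝ K) (hcomp : IsCompact K) (hint : (interior K).Nonempty)
    {σ : ℝ} (hσ : σ * σ = 1) {h h' : ℝ} (hmax : ∀ y ∈ K, σ * y.2 ≤ σ * h)
    (hbase : ((0 : ℂ), h') ∈ K) (hlt : σ * h' < σ * h)
    {x : ℂ × ℝ} (hx : x.2 = h) {v : ℂ}
    (hN : ∀ p, p ≠ 0 → (∀ y ∈ K, y.2 = h → dt p y.1 ≤ dt p x.1) → 0 < dt p v) :
    ∀ᶠ z : ℝ × (ℂ × ℝ) in 𝓝 (0, x), 0 < z.1 → z.2 ∈ K → Ill K z.2 (-v, -σ * z.1) := by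
  obtain ⟨R, hR⟩ := hcomp.isBounded.exists_norm_le
  have hR0 : 0 ≤ R := (norm_nonneg _).trans (hR _ hbase)
  set δ := σ * h - σ * h' with hδ
  have hδ0 : 0 < δ := by linarith
  set S := 2 * R / δ with hS
  have hS0 : 0 ≤ S := by positivity
  -- uniform statement over unit horizontal parts
  have key : ∀ᶠ z : ℝ × (ℂ × ℝ) in 𝓝 (0, x), ∀ p ∈ Metric.sphere (0 : ℂ) 1,
      (∀ y ∈ K, y.2 = h → dt p y.1 ≤ dt p z.2.1 + S * (σ * h - σ * z.2.2)) →
      S * z.1 < dt p v := by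
    apply (isCompact_sphere (0 : ℂ) 1).eventually_forall_of_forall_eventually
    intro p hp
    have c1 : IsClosed {q : (ℝ × (ℂ × ℝ)) × ℂ | ∀ y ∈ K, y.2 = h →
        dt q.2 y.1 ≤ dt q.2 q.1.2.1 + S * (σ * h - σ * q.1.2.2)} := by
      simp only [Set.ofPred_forall]
      exact isClosed_iInter fun y => isClosed_iInter fun _ => isClosed_iInter fun _ =>
        isClosed_le (by fun_prop) (by fun_prop)
    have c2 : IsClosed {q : (ℝ × (ℂ × ℝ)) × ℂ | dt q.2 v ≤ S * q.1.1} :=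
      isClosed_le (by fun_prop) (by fun_prop)
    have hnot : (((0, x), p) : (ℝ × (ℂ × ℝ)) × ℂ) ∈ ({q : (ℝ × (ℂ × ℝ)) × ℂ | ∀ y ∈ K, y.2 = h →
        dt q.2 y.1 ≤ dt q.2 q.1.2.1 + S * (σ * h - σ * q.1.2.2)} ∩
        {q : (ℝ × (ℂ × ℝ)) × ℂ | dt q.2 v ≤ S * q.1.1})ᶜ := by
      rintro ⟨h1, h3⟩
      have h3' : dt p v ≤ S * 0 := h3
      have h1' : ∀ y ∈ K, y.2 = h → dt p y.1 ≤ dt p x.1 := by
        intro y hy hyh
        have := h1 y hy hyh
        simp only [hx, sub_self, mul_zero, add_zero] at this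
        exact this
      have hp0 : p ≠ 0 := by
        rintro rfl
        simp at hp
      have := hN p hp0 h1'
      linarith
    filter_upwards [(c1.inter c2).isOpen_compl.mem_nhds hnot] with q hq h1
    by_contra hcon
    exact hq ⟨h1, not_lt.mp hcon⟩
  have hcont : Continuous (fun z : ℝ × (ℂ × ℝ) => σ * z.2.2 - σ * h') := by fun_prop
  have hnear : ∀ᶠ z : ℝ × (ℂ × ℝ) in 𝓝 (0, x), δ / 2 < σ * z.2.2 - σ * h' := by
    apply (hcont.tendsto (0, x)).eventually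
    apply lt_mem_nhds
    simp only [hx]
    linarith
  filter_upwards [key, hnear] with z hz hzn hz0 hzK
  by_contra hcon
  obtain ⟨ν, hν, h1, h2⟩ := exists_nrm_of_not_ill hK hint hcon
  simp only [dt_neg] at h2
  -- bound on the vertical part
  have hb : -(σ * ν.2) ≤ S * ‖ν.1‖ := by
    have h3 := h1 _ hbase
    simp only [dt_zero, zero_add] at h3
    have h4 := dt_le_norm ν.1 z.2.1
    have h5 : ‖z.2.1‖ ≤ R := (norm_fst_le z.2).trans (hR _ hzK)
    have h6 : dt ν.1 z.2.1 ≤ ‖ν.1‖ * R := h4.trans (mul_le_mul_of_nonneg_left h5 (norm_nonneg _))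
    by_cases h7 : 0 ≤ σ * ν.2
    · have : 0 ≤ S * ‖ν.1‖ := by positivity
      linarith
    · have h8 : 0 < -(σ * ν.2) := by linarith [not_le.mp h7]
      have h9 : -(σ * ν.2) * (σ * z.2.2 - σ * h') ≤ ‖ν.1‖ * R := by
        have e : -(σ * ν.2) * (σ * z.2.2 - σ * h') = -((σ * σ) * (ν.2 * z.2.2 - ν.2 * h')) := by
          ring
        rw [e, hσ]
        linarith
      have h10 : -(σ * ν.2) * (δ / 2) ≤ ‖ν.1‖ * R :=
        (mul_le_mul_of_nonneg_left hzn.le h8.le).trans h9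
      rw [hS, div_mul_eq_mul_div, le_div_iff₀ hδ0]
      linarith
  by_cases hp : ν.1 = 0
  · rw [hp, norm_zero, mul_zero] at hb
    rw [hp, zero_dt] at h2
    have h3 : 0 ≤ σ * ν.2 := by linarith
    have h4 : ν.2 ≠ 0 := by
      rcases sphere_ne hν with h5 | h5
      · exact absurd hp h5
      · exact h5
    have h5 : σ ≠ 0 := by
      rintro rfl
      simp at hσ
    have h6 : 0 < σ * ν.2 := lt_of_le_of_ne h3 (mul_ne_zero h5 h4).symm
    nlinarith [mul_pos h6 hz0]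
  · have hn0 : 0 < ‖ν.1‖ := norm_pos_iff.mpr hp
    set p := ‖ν.1‖⁻¹ • ν.1 with hpdef
    have hpS : p ∈ Metric.sphere (0 : ℂ) 1 := by
      rw [mem_sphere_zero_iff_norm, hpdef, norm_smul, norm_inv, norm_norm,
        inv_mul_cancel₀ hn0.ne']
    have hdp : ∀ w, dt p w = ‖ν.1‖⁻¹ * dt ν.1 w := fun w => by rw [hpdef, smul_dt]
    have hb' : -(σ * ν.2) * ‖ν.1‖⁻¹ ≤ S := by
      rw [mul_inv_le_iff₀ hn0]; exact hb
    have hinv : 0 < ‖ν.1‖⁻¹ := inv_pos.mpr hn0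
    have h3 := hz p hpS ?_
    · rw [hdp] at h3
      have h4 : dt ν.1 v ≤ -(σ * ν.2) * z.1 := by linarith
      have h5 : ‖ν.1‖⁻¹ * dt ν.1 v ≤ ‖ν.1‖⁻¹ * (-(σ * ν.2) * z.1) :=
        mul_le_mul_of_nonneg_left h4 hinv.le
      have h6 : ‖ν.1‖⁻¹ * (-(σ * ν.2) * z.1) ≤ S * z.1 := by
        have e : ‖ν.1‖⁻¹ * (-(σ * ν.2) * z.1) = (-(σ * ν.2) * ‖ν.1‖⁻¹) * z.1 := by ring
        rw [e]
        exact mul_le_mul_of_nonneg_right hb' hz0.le
      linarith
    · intro y hy hyh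
      rw [hdp, hdp]
      have h4 := h1 y hy
      have h5 : dt ν.1 y.1 ≤ dt ν.1 z.2.1 + -(σ * ν.2) * (σ * h - σ * z.2.2) := by
        have e : -(σ * ν.2) * (σ * h - σ * z.2.2) = -((σ * σ) * (ν.2 * h - ν.2 * z.2.2)) := by
          ring
        rw [e, hσ]
        rw [hyh] at h4
        linarith
      have h6 : 0 ≤ σ * h - σ * z.2.2 := by linarith [hmax _ hzK]
      calc ‖ν.1‖⁻¹ * dt ν.1 y.1 ≤ ‖ν.1‖⁻¹ * (dt ν.1 z.2.1 + -(σ * ν.2) * (σ * h - σ * z.2.2)) :=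
            mul_le_mul_of_nonneg_left h5 hinv.le
        _ = ‖ν.1‖⁻¹ * dt ν.1 z.2.1 + (-(σ * ν.2) * ‖ν.1‖⁻¹) * (σ * h - σ * z.2.2) := by ring
        _ ≤ ‖ν.1‖⁻¹ * dt ν.1 z.2.1 + S * (σ * h - σ * z.2.2) := by
            have := mul_le_mul_of_nonneg_right hb' h6
            linarith

/-- `p` is a normal at `w` of the horizontal section at height `h` -/
def FN (K : Set (ℂ × ℝ)) (h : ℝ) (w p : ℂ) : Prop :=
  p ≠ 0 ∧ ∀ y ∈ K, y.2 = h → dt p y.1 ≤ dt p w

/-- **Criterion.** -/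
theorem crit (B : Bal K zm zM c0) {m : ℕ} (v v' : ℕ → ℂ)
    (mid : ∀ x ∈ K, x.2 ≠ zM → x.2 ≠ zm → Sil K x →
      (∃ k ∈ Finset.range m, ∀ p s, (p ≠ 0 ∨ s ≠ 0) → Nrm K x p s → 0 < dt p (v k)) ∨
      (∃ k ∈ Finset.range m, ∀ p s, (p ≠ 0 ∨ s ≠ 0) → Nrm K x p s → 0 < dt p (v' k)))
    (top : ∀ x ∈ K, x.2 = zM → Sil K x → ∃ k ∈ Finset.range m, ∀ p, FN K zM x.1 p →
      0 < dt p (v k))
    (bot : ∀ x ∈ K, x.2 = zm → Sil K x → ∃ k ∈ Finset.range m, ∀ p, FN K zm x.1 p →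
      0 < dt p (v' k)) :
    ∃ T : Finset (ℂ × ℝ), T.card ≤ 2 * m + 2 ∧
      K ⊆ ⋃ t ∈ T, (fun x => t + x) '' interior K := by
  have hcard : (Finset.range (2 * m + 2)).card = 2 * m + 2 := by simp
  rw [← hcard]
  apply cover_of_local B.conv B.comp (Finset.range (2 * m + 2))
    (fun i t => if i < m then (-(v i), -1 * t) else if i < 2 * m then (-(v' (i - m)), 1 * t)
      else if i = 2 * m then (0, -1) else (0, 1))
  intro x hx
  have use1 : ∀ k ∈ Finset.range m,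
      (∀ᶠ z : ℝ × (ℂ × ℝ) in 𝓝 (0, x), 0 < z.1 → z.2 ∈ K → Ill K z.2 (-(v k), -1 * z.1)) →
      ∀ᶠ z : ℝ × (ℂ × ℝ) in 𝓝 (0, x), 0 < z.1 → z.2 ∈ K → ∃ i ∈ Finset.range (2 * m + 2),
        Ill K z.2 (if i < m then (-(v i), -1 * z.1) else if i < 2 * m then
          (-(v' (i - m)), 1 * z.1) else if i = 2 * m then (0, -1) else (0, 1)) := by
    intro k hk h
    have hk' := Finset.mem_range.mp hk
    filter_upwards [h] with z hz h0 h1
    refine ⟨k, Finset.mem_range.mpr (by omega), ?_⟩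
    rw [if_pos hk']
    exact hz h0 h1
  have use2 : ∀ k ∈ Finset.range m,
      (∀ᶠ z : ℝ × (ℂ × ℝ) in 𝓝 (0, x), 0 < z.1 → z.2 ∈ K → Ill K z.2 (-(v' k), 1 * z.1)) →
      ∀ᶠ z : ℝ × (ℂ × ℝ) in 𝓝 (0, x), 0 < z.1 → z.2 ∈ K → ∃ i ∈ Finset.range (2 * m + 2),
        Ill K z.2 (if i < m then (-(v i), -1 * z.1) else if i < 2 * m then
          (-(v' (i - m)), 1 * z.1) else if i = 2 * m then (0, -1) else (0, 1)) := by
    intro k hk h
    have hk' := Finset.mem_range.mp hk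
    filter_upwards [h] with z hz h0 h1
    refine ⟨k + m, Finset.mem_range.mpr (by omega), ?_⟩
    rw [if_neg (by omega), if_pos (by omega), Nat.add_sub_cancel]
    exact hz h0 h1
  by_cases hsil : Sil K x
  · by_cases hM : x.2 = zM
    · obtain ⟨k, hk, h1⟩ := top x hx hM hsil
      apply use1 k hk
      have := local_end (σ := 1) B.conv B.comp B.hint (by norm_num) (h := zM) (h' := zm)
        (fun y hy => by linarith [(B.le y hy).2]) B.bot (by linarith [B.zm_lt_zM]) hM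
        (v := v k) (fun p hp h2 => h1 p ⟨hp, h2⟩)
      filter_upwards [this] with z hz
      exact hz
    · by_cases hm : x.2 = zm
      · obtain ⟨k, hk, h1⟩ := bot x hx hm hsil
        apply use2 k hk
        have := local_end (σ := -1) B.conv B.comp B.hint (by norm_num) (h := zm) (h' := zM)
          (fun y hy => by linarith [(B.le y hy).1]) B.top (by linarith [B.zm_lt_zM]) hm
          (v := v' k) (fun p hp h2 => h1 p ⟨hp, h2⟩)
        filter_upwards [this] with z hz h0 h3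
        have := hz h0 h3
        rwa [neg_neg] at this
      · rcases mid x hx hM hm hsil with ⟨k, hk, h1⟩ | ⟨k, hk, h1⟩
        · apply use1 k hk
          filter_upwards [local_strict B.conv B.hint (-1) h1] with z hz _ _
          exact hz
        · apply use2 k hk
          filter_upwards [local_strict B.conv B.hint 1 h1] with z hz _ _
          exact hz
  · have hcont : Continuous (fun z : ℝ × (ℂ × ℝ) => z.2) := by fun_prop
    rcases vert_of_not_sil B.conv B.hint hsil with h | h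
    · have h1 : ∀ᶠ z : ℝ × (ℂ × ℝ) in 𝓝 (0, x), Ill K z.2 (0, -1) :=
        (hcont.tendsto (0, x)).eventually (ill_eventually h)
      filter_upwards [h1] with z hz _ _
      refine ⟨2 * m, Finset.mem_range.mpr (by omega), ?_⟩
      rw [if_neg (by omega), if_neg (by omega), if_pos rfl]
      exact hz
    · have h1 : ∀ᶠ z : ℝ × (ℂ × ℝ) in 𝓝 (0, x), Ill K z.2 (0, 1) :=
        (hcont.tendsto (0, x)).eventually (ill_eventually h)
      filter_upwards [h1] with z hz _ _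
      refine ⟨2 * m + 1, Finset.mem_range.mpr (by omega), ?_⟩
      rw [if_neg (by omega), if_neg (by omega), if_neg (by omega)]
      exact hz

end Pool.Agent.Illum.Rot
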