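import Pool.Agent.Illum.RotMid

set_option autoImplicit false
set_option linter.unusedSectionVars false
set_option linter.style.longLine false

/-!
# Order three: choosing the hexagon
-/

namespace Pool.Agent.Illum.Rot

open Set Filter Topology Complex

variable {K : Set (ℂ × ℝ)} {zm zM c0 : ℝ}

/-- the direction `r` is killed at the end `h` or by a bad middle point of type `σ` -/
def Kil (K : Set (ℂ × ℝ)) (zm zM h σ : ℝ) (ρ r : ℂ) : Prop :=
  (∃ x ∈ K, x.2 = h ∧ Sil K x ∧ ∀ k ∈ Finset.range 3, ∃ p, FN K h x.1 p ∧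
    dt p (zt 3 ^ k * (ρ * r)) ≤ 0) ∨
  (∃ x ∈ K, x.2 ≠ zM ∧ x.2 ≠ zm ∧ Sil K x ∧ ∃ s, 0 < σ * s ∧ BadT K x s ∧ Ori x.1 r)

/-- the projection is not a triangle -/
def NoTri (K : Set (ℂ × ℝ)) : Prop :=
  ∀ V : ℂ, V ≠ 0 → ∀ cs, (V, cs) ∈ K → ¬ ∀ y ∈ K, ∀ j, 0 ≤ lam V j y.1

lemma BadT.ne_zero (hNT : NoTri K) {x : ℂ × ℝ} {s : ℝ} (hx : x ∈ K) (h : BadT K x s) : s ≠ 0 := by
  rintro rfl
  apply hNT x.1 h.1 x.2 hx
  intro y hy j
  rw [lam_nonneg_iff h.1]
  have := h.2 y hy j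
  rwa [zero_mul, add_zero] at this

lemma cover_of_not_kil (hb : Body 3 K) (B : Bal K zm zM c0) (hNT : NoTri K) {r : ℂ} (hr : r ≠ 0)
    (h1 : ¬ Kil K zm zM zM 1 1 r) (h2 : ¬ Kil K zm zM zm (-1) z6 r) :
    ∃ T : Finset (ℂ × ℝ), T.card ≤ 8 ∧ K ⊆ ⋃ t ∈ T, (fun x => t + x) '' interior K := by
  have := crit (m := 3) B (fun k => zt 3 ^ k * (1 * r)) (fun k => zt 3 ^ k * (z6 * r)) ?_ ?_ ?_
  · simpa using this
  · intro x hx hM hm hs
    rcases mid_or_bad hb B hx hM hm (sil_ne_zero B hx hs) hr with ⟨k, hk, h⟩ | ⟨s, hbad, hori⟩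
    · have hk6 := Finset.mem_range.mp hk
      rcases Nat.even_or_odd k with he | ho
      · obtain ⟨j, hj⟩ := he
        left
        refine ⟨j, Finset.mem_range.mpr (by omega), ?_⟩
        have e : zt 3 ^ j * (1 * r) = z6 ^ k * r := by
          have : k = 2 * j := by omega
          rw [this, pow_mul, z6_sq_eq, one_mul]
        rw [e]; exact h
      · obtain ⟨j, hj⟩ := ho
        right
        refine ⟨j, Finset.mem_range.mpr (by omega), ?_⟩
        have e : zt 3 ^ j * (z6 * r) = z6 ^ k * r := by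
          rw [hj, pow_succ, pow_mul, z6_sq_eq]; ring
        rw [e]; exact h
    · exfalso
      rcases lt_trichotomy s 0 with h0 | h0 | h0
      · exact h2 (Or.inr ⟨x, hx, hM, hm, hs, s, by linarith, hbad, hori⟩)
      · exact hbad.ne_zero hNT hx h0
      · exact h1 (Or.inr ⟨x, hx, hM, hm, hs, s, by linarith, hbad, hori⟩)
  · intro x hx hM hs
    by_contra hcon
    push Not at hcon
    exact h1 (Or.inl ⟨x, hx, hM, hs, hcon⟩)
  · intro x hx hm hs
    by_contra hcon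
    push Not at hcon
    exact h2 (Or.inl ⟨x, hx, hm, hs, hcon⟩)

/-- admissibility at an end -/
def Adm (K : Set (ℂ × ℝ)) (h : ℝ) (ρ y r : ℂ) : Prop :=
  (∀ x ∈ K, x.2 = h → ¬ Sil K x) ∨
  ((y, h) ∈ K ∧ (∀ x ∈ K, x.2 = h → Sil K x → normSq x.1 ≤ normSq y) ∧
    √3 * |dt (I * (ρ * r)) y| < dt (ρ * r) y)

lemma kil_unique (hb : Body 3 K) (B : Bal K zm zM c0) {h σ : ℝ}
    (hσ : σ * σ = 1) (hh : h = zM ∨ h = zm) (hend : ∀ x ∈ K, σ * x.2 ≤ σ * h) {ρ : ℂ}
    (hρ : normSq ρ = 1) {y r r' : ℂ} (hr : r ≠ 0) (hr' : r' ≠ 0)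
    (ha : Adm K h ρ y r) (ha' : Adm K h ρ y r') (hs : |dt (I * r') r| < √3 * dt r' r)
    (hk : Kil K zm zM h σ ρ r) (hk' : Kil K zm zM h σ ρ r') : dt (I * r') r = 0 := by
  have hρ0 : ρ ≠ 0 := by
    rintro rfl; rw [map_zero] at hρ; exact zero_ne_one hρ
  have hσ0 : σ ≠ 0 := by
    rintro rfl; simp at hσ
  have mixed : ∀ x ∈ K, x.2 = h → Sil K x → ∀ x' ∈ K, x'.2 ≠ zM → x'.2 ≠ zm →
      ∀ s, 0 < σ * s → BadT K x' s → False := by
    intro x hx hxh hsx x' hx' hM hm s hs0 hbad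
    have h1 := hbad.not_inner hb hx' hx hsx
    have h2 : σ * x'.2 < σ * h := by
      apply lt_of_le_of_ne (hend x' hx')
      intro he
      have := mul_left_cancel₀ hσ0 he
      rcases hh with h3 | h3
      · exact hM (this.trans h3)
      · exact hm (this.trans h3)
    have h3 : s * (x.2 - x'.2) = (σ * s) * (σ * h - σ * x'.2) := by
      rw [hxh]
      linear_combination (-(s * (h - x'.2))) * hσ
    rw [h3] at h1
    have := mul_pos hs0 (sub_pos.mpr h2)
    linarith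
  rcases hk with ⟨x, hx, hxh, hsx, hbad⟩ | ⟨x, hx, hM, hm, hsx, s, hs0, hbad, hori⟩
  · rcases hk' with ⟨x', hx', hxh', hsx', hbad'⟩ | ⟨x', hx', hM', hm', hsx', s', hs0', hbad', _⟩
    · rcases ha with ha | ⟨hyK, hymax, hyr⟩
      · exact absurd hsx (ha x hx hxh)
      · rcases ha' with ha' | ⟨_, _, hyr'⟩
        · exact absurd hsx (ha' x hx hxh)
        · have hρr : ρ * r ≠ 0 := mul_ne_zero hρ0 hr
          have hρr' : ρ * r' ≠ 0 := mul_ne_zero hρ0 hr'
          obtain ⟨a1, a2⟩ := end_bad hb B hx hxh hsx hρr hbad hyK hyr (hymax x hx hxh hsx)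
          obtain ⟨b1, b2⟩ := end_bad hb B hx' hxh' hsx' hρr' hbad' hyK hyr'
            (hymax x' hx' hxh' hsx')
          have h1 := end_two hρr' hρr hyr' hyr b1 b2 a1 a2
          have e : I * (ρ * r') = ρ * (I * r') := by ring
          rwa [e, dt_rot _ _ _ hρ] at h1
    · exact (mixed x hx hxh hsx x' hx' hM' hm' s' hs0' hbad').elim
  · rcases hk' with ⟨x', hx', hxh', hsx', _⟩ | ⟨x', hx', _, _, hsx', s', hs0', hbad', hori'⟩
    · exact (mixed x' hx' hxh' hsx' x hx hM hm s hs0 hbad).elim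
    · obtain ⟨j, hj⟩ := hbad.same hb hbad' hx hx' hsx hsx' hs0 hs0'
      exact ori_two hbad.1 hr hr' hj hori hori' hs

/-- three candidates suffice -/
lemma cover_of_three (hb : Body 3 K) (B : Bal K zm zM c0) (hNT : NoTri K) {yT yB : ℂ}
    (r : ℕ → ℂ) (hr : ∀ i < 3, r i ≠ 0) (hT : ∀ i < 3, Adm K zM 1 yT (r i))
    (hB : ∀ i < 3, Adm K zm z6 yB (r i))
    (hpair : ∀ i < 3, ∀ j < 3, i ≠ j → |dt (I * r j) (r i)| < √3 * dt (r j) (r i) ∧
      dt (I * r j) (r i) ≠ 0) :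
    ∃ T : Finset (ℂ × ℝ), T.card ≤ 8 ∧ K ⊆ ⋃ t ∈ T, (fun x => t + x) '' interior K := by
  by_contra hcon
  have hkill : ∀ i < 3, Kil K zm zM zM 1 1 (r i) ∨ Kil K zm zM zm (-1) z6 (r i) := by
    intro i hi
    by_contra h
    push Not at h
    exact hcon (cover_of_not_kil hb B hNT (hr i hi) h.1 h.2)
  have noT : ∀ i < 3, ∀ j < 3, i ≠ j → Kil K zm zM zM 1 1 (r i) → Kil K zm zM zM 1 1 (r j) →
      False := by
    intro i hi j hj hij h1 h2
    exact (hpair i hi j hj hij).2 (kil_unique hb B (by norm_num) (Or.inl rfl)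
      (fun x hx => by linarith [(B.le x hx).2]) (by simp) (hr i hi) (hr j hj) (hT i hi) (hT j hj)
      (hpair i hi j hj hij).1 h1 h2)
  have noB : ∀ i < 3, ∀ j < 3, i ≠ j → Kil K zm zM zm (-1) z6 (r i) →
      Kil K zm zM zm (-1) z6 (r j) → False := by
    intro i hi j hj hij h1 h2
    exact (hpair i hi j hj hij).2 (kil_unique hb B (by norm_num) (Or.inr rfl)
      (fun x hx => by linarith [(B.le x hx).1]) normSq_z6 (hr i hi) (hr j hj) (hB i hi) (hB j hj)
      (hpair i hi j hj hij).1 h1 h2)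
  rcases hkill 0 (by norm_num) with h0 | h0
  · rcases hkill 1 (by norm_num) with h1 | h1
    · exact noT 0 (by norm_num) 1 (by norm_num) (by norm_num) h0 h1
    · rcases hkill 2 (by norm_num) with h2 | h2
      · exact noT 0 (by norm_num) 2 (by norm_num) (by norm_num) h0 h2
      · exact noB 1 (by norm_num) 2 (by norm_num) (by norm_num) h1 h2
  · rcases hkill 1 (by norm_num) with h1 | h1
    · rcases hkill 2 (by norm_num) with h2 | h2
      · exact noT 1 (by norm_num) 2 (by norm_num) (by norm_num) h1 h2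
      · exact noB 0 (by norm_num) 2 (by norm_num) (by norm_num) h0 h2
    · exact noB 0 (by norm_num) 1 (by norm_num) (by norm_num) h0 h1

lemma adm_eventually {h : ℝ} {ρ y r : ℂ} (ha : Adm K h ρ y r) :
    ∀ᶠ τ : ℝ in 𝓝 (0:ℝ), Adm K h ρ y (r * (1 + (τ : ℂ) * I)) := by
  rcases ha with ha | ⟨h1, h2, h3⟩
  · exact Eventually.of_forall (fun _ => Or.inl ha)
  · have hc : Continuous (fun τ : ℝ => dt (ρ * (r * (1 + (τ : ℂ) * I))) y -
        √3 * |dt (I * (ρ * (r * (1 + (τ : ℂ) * I)))) y|) := by fun_prop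
    have h4 : ∀ᶠ τ : ℝ in 𝓝 (0:ℝ), 0 < dt (ρ * (r * (1 + (τ : ℂ) * I))) y -
        √3 * |dt (I * (ρ * (r * (1 + (τ : ℂ) * I)))) y| := by
      apply hc.continuousAt.eventually
      apply lt_mem_nhds
      simp only [ofReal_zero, zero_mul, add_zero, mul_one]
      linarith
    filter_upwards [h4] with τ hτ
    exact Or.inr ⟨h1, h2, by linarith⟩

theorem cover_of_adm (hb : Body 3 K) (B : Bal K zm zM c0) (hNT : NoTri K) {yT yB r : ℂ}
    (hr : r ≠ 0) (hT : Adm K zM 1 yT r) (hB : Adm K zm z6 yB r) :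
    ∃ T : Finset (ℂ × ℝ), T.card ≤ 8 ∧ K ⊆ ⋃ t ∈ T, (fun x => t + x) '' interior K := by
  obtain ⟨ε, hε, hball⟩ := Metric.eventually_nhds_iff.mp
    ((adm_eventually hT).and (adm_eventually hB))
  set δ := min (ε / 4) (1 / 4) with hδ
  have hδ0 : 0 < δ := lt_min (by linarith) (by norm_num)
  have hδ1 : δ ≤ ε / 4 := min_le_left _ _
  have hδ2 : δ ≤ 1 / 4 := min_le_right _ _
  have hsmall : ∀ i : ℕ, i < 3 → dist ((i : ℝ) * δ) 0 < ε := by
    intro i hi
    rw [Real.dist_eq, sub_zero, abs_of_nonneg (by positivity)]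
    have : (i : ℝ) ≤ 2 := by exact_mod_cast (by omega : i ≤ 2)
    nlinarith
  have hne : ∀ τ : ℝ, (1 + τ * I : ℂ) ≠ 0 := by
    intro τ h0
    have := congrArg Complex.re h0
    simp at this
  refine cover_of_three hb B hNT (yT := yT) (yB := yB)
    (fun i : ℕ => r * (1 + (((i : ℝ) * δ : ℝ) : ℂ) * I)) (fun i _ => mul_ne_zero hr (hne _))
    (fun i hi => (hball (hsmall i hi)).1) (fun i hi => (hball (hsmall i hi)).2) ?_
  intro i hi j hj hij
  have hrp := normSq_pos.mpr hr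
  have e1 : ∀ a b : ℝ, dt (I * (r * (1 + (b : ℂ) * I))) (r * (1 + (a : ℂ) * I)) =
      normSq r * (a - b) := by
    intro a b
    simp only [dt, mul_re, mul_im, add_re, add_im, one_re, one_im, I_re, I_im, ofReal_re,
      ofReal_im, normSq_apply]
    ring
  have e2 : ∀ a b : ℝ, dt (r * (1 + (b : ℂ) * I)) (r * (1 + (a : ℂ) * I)) =
      normSq r * (1 + a * b) := by
    intro a b
    simp only [dt, mul_re, mul_im, add_re, add_im, one_re, one_im, I_re, I_im, ofReal_re,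
      ofReal_im, normSq_apply]
    ring
  rw [e1, e2]
  have hij' : (i : ℝ) ≠ j := by exact_mod_cast hij
  have hi2 : (i : ℝ) ≤ 2 := by exact_mod_cast (by omega : i ≤ 2)
  have hj2 : (j : ℝ) ≤ 2 := by exact_mod_cast (by omega : j ≤ 2)
  have hi0 : (0 : ℝ) ≤ i := by positivity
  have hj0 : (0 : ℝ) ≤ j := by positivity
  constructor
  · rw [abs_mul, abs_of_pos hrp]
    have h1 : |(i : ℝ) * δ - j * δ| ≤ 1 / 2 := by
      rw [← sub_mul, abs_mul, abs_of_pos hδ0]
      have : |(i : ℝ) - j| ≤ 2 := abs_le.mpr ⟨by linarith, by linarith⟩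
      nlinarith [abs_nonneg ((i : ℝ) - j)]
    have h2 : (1 : ℝ) ≤ 1 + (i : ℝ) * δ * (j * δ) := by
      have : 0 ≤ (i : ℝ) * δ * (j * δ) := by positivity
      linarith
    have h3 : (1 : ℝ) ≤ √3 := by
      rw [show (1:ℝ) = √1 by simp]; exact Real.sqrt_le_sqrt (by norm_num)
    have h4 : (1 : ℝ) ≤ √3 * (1 + (i : ℝ) * δ * (j * δ)) := by nlinarith
    calc normSq r * |(i : ℝ) * δ - j * δ| ≤ normSq r * (1 / 2) :=
          mul_le_mul_of_nonneg_left h1 hrp.le
      _ < normSq r * 1 := mul_lt_mul_of_pos_left (by norm_num) hrp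
      _ ≤ normSq r * (√3 * (1 + (i : ℝ) * δ * (j * δ))) := mul_le_mul_of_nonneg_left h4 hrp.le
      _ = √3 * (normSq r * (1 + (i : ℝ) * δ * (j * δ))) := by ring
  · apply mul_ne_zero hrp.ne'
    rw [← sub_mul]
    exact mul_ne_zero (sub_ne_zero.mpr hij') hδ0.ne'

end Pool.Agent.Illum.Rot
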