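import Pool.Agent.Illum.RotThree

set_option autoImplicit false
set_option linter.unusedSectionVars false
set_option linter.style.longLine false

/-!
# Linear maps of finite order in dimension three
-/

namespace Pool.Agent.Illum.RotLin

open Finset

variable {E : Type*} [AddCommGroup E] [Module ℝ E]

/-- cosine transform of an orbit -/
noncomputable def Cs (A : E →ₗ[ℝ] E) (N : ℕ) (x : E) (k : ℕ) : E :=
  ∑ j ∈ range N, Real.cos (2 * Real.pi * k * j / N) • (A ^ j) x

/-- sine transform of an orbit -/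
noncomputable def Sn (A : E →ₗ[ℝ] E) (N : ℕ) (x : E) (k : ℕ) : E :=
  ∑ j ∈ range N, Real.sin (2 * Real.pi * k * j / N) • (A ^ j) x

lemma shift_sum {A : E →ₗ[ℝ] E} {N : ℕ} (hA : A ^ N = 1) (x : E) (f : ℕ → ℝ)
    (hf : f N = f 0) :
    ∑ j ∈ range N, f (j + 1) • (A ^ (j + 1)) x = ∑ j ∈ range N, f j • (A ^ j) x := by
  have h1 := sum_range_succ (fun j => f j • (A ^ j) x) N
  have h2 := sum_range_succ' (fun j => f j • (A ^ j) x) N
  rw [h1] at h2
  have h3 : f N • (A ^ N) x = f 0 • (A ^ 0) x := by rw [hA, hf, pow_zero]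
  rw [h3] at h2
  exact (add_right_cancel h2).symm

lemma A_pow_succ (A : E →ₗ[ℝ] E) (j : ℕ) (x : E) : A ((A ^ j) x) = (A ^ (j + 1)) x := by
  rw [pow_succ']; rfl

lemma A_Cs {A : E →ₗ[ℝ] E} {N : ℕ} (hN : 0 < N) (hA : A ^ N = 1) (x : E) (k : ℕ) :
    A (Cs A N x k) = Real.cos (2 * Real.pi * k / N) • Cs A N x k +
      Real.sin (2 * Real.pi * k / N) • Sn A N x k := by
  have hNR : (N : ℝ) ≠ 0 := by exact_mod_cast hN.ne'
  have h1 : A (Cs A N x k) = ∑ j ∈ range N,
      Real.cos (2 * Real.pi * k * ((j + 1 : ℕ) : ℝ) / N - 2 * Real.pi * k / N) •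
        (A ^ (j + 1)) x := by
    rw [Cs, map_sum]
    apply sum_congr rfl
    intro j _
    rw [map_smul, A_pow_succ]
    congr 2
    push_cast
    ring
  rw [h1, shift_sum hA x (fun j => Real.cos (2 * Real.pi * k * (j : ℝ) / N -
    2 * Real.pi * k / N)), Cs, Sn, smul_sum, smul_sum, ← sum_add_distrib]
  · apply sum_congr rfl
    intro j _
    rw [Real.cos_sub, add_smul, smul_smul, smul_smul]
    congr 2 <;> ring
  · simp only [Nat.cast_zero, mul_zero, zero_div]
    have : 2 * Real.pi * (k : ℝ) * N / N - 2 * Real.pi * k / N =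
        (0 - 2 * Real.pi * k / N) + k * (2 * Real.pi) := by
      field_simp; ring
    rw [this, Real.cos_add_nat_mul_two_pi]

lemma A_Sn {A : E →ₗ[ℝ] E} {N : ℕ} (hN : 0 < N) (hA : A ^ N = 1) (x : E) (k : ℕ) :
    A (Sn A N x k) = Real.cos (2 * Real.pi * k / N) • Sn A N x k -
      Real.sin (2 * Real.pi * k / N) • Cs A N x k := by
  have hNR : (N : ℝ) ≠ 0 := by exact_mod_cast hN.ne'
  have h1 : A (Sn A N x k) = ∑ j ∈ range N,
      Real.sin (2 * Real.pi * k * ((j + 1 : ℕ) : ℝ) / N - 2 * Real.pi * k / N) •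
        (A ^ (j + 1)) x := by
    rw [Sn, map_sum]
    apply sum_congr rfl
    intro j _
    rw [map_smul, A_pow_succ]
    congr 2
    push_cast
    ring
  rw [h1, shift_sum hA x (fun j => Real.sin (2 * Real.pi * k * (j : ℝ) / N -
    2 * Real.pi * k / N)), Cs, Sn, smul_sum, smul_sum, ← sum_sub_distrib]
  · apply sum_congr rfl
    intro j _
    rw [Real.sin_sub, sub_smul, smul_smul, smul_smul]
    congr 2 <;> ring
  · simp only [Nat.cast_zero, mul_zero, zero_div]
    have : 2 * Real.pi * (k : ℝ) * N / N - 2 * Real.pi * k / N =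
        (0 - 2 * Real.pi * k / N) + k * (2 * Real.pi) := by
      field_simp; ring
    rw [this, Real.sin_add_nat_mul_two_pi]

/-- Fourier inversion -/
lemma sum_Cs {A : E →ₗ[ℝ] E} {N : ℕ} (hN : 0 < N) (x : E) :
    ∑ k ∈ range N, Cs A N x k = (N : ℝ) • x := by
  have hNR : (N : ℝ) ≠ 0 := by exact_mod_cast hN.ne'
  have hcos : ∀ j ∈ range N, ∑ k ∈ range N, Real.cos (2 * Real.pi * k * j / N) =
      if j = 0 then (N : ℝ) else 0 := by
    intro j hj
    by_cases hj0 : j = 0
    · subst hj0
      simp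
    · rw [if_neg hj0]
      have hprim := Complex.isPrimitiveRoot_exp N hN.ne'
      set ζ := Complex.exp (2 * Real.pi * Complex.I / N) with hζ
      have h1 : ζ ^ j ≠ 1 := by
        intro h
        have := hprim.dvd_of_pow_eq_one j h
        have := Nat.le_of_dvd (Nat.pos_of_ne_zero hj0) this
        have := mem_range.mp hj
        omega
      have h2 : (ζ ^ j) ^ N = 1 := by
        rw [← pow_mul, mul_comm, pow_mul, hprim.pow_eq_one, one_pow]
      have h3 : (∑ k ∈ range N, (ζ ^ j) ^ k) * (ζ ^ j - 1) = (ζ ^ j) ^ N - 1 := geom_sum_mul _ _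
      rw [h2, sub_self] at h3
      have h4 : ∑ k ∈ range N, (ζ ^ j) ^ k = 0 :=
        (mul_eq_zero.mp h3).resolve_right (sub_ne_zero.mpr h1)
      have h5 : ∀ k ∈ range N, Real.cos (2 * Real.pi * k * j / N) = ((ζ ^ j) ^ k).re := by
        intro k _
        rw [hζ, ← Complex.exp_nat_mul, ← Complex.exp_nat_mul]
        have : ((k : ℂ) * ((j : ℂ) * (2 * Real.pi * Complex.I / N))) =
            ((2 * Real.pi * k * j / N : ℝ) : ℂ) * Complex.I := by
          push_cast; ring
        rw [this, Complex.exp_mul_I, ← Complex.ofReal_cos, ← Complex.ofReal_sin, Complex.add_re,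
          Complex.mul_re, Complex.ofReal_re, Complex.ofReal_re, Complex.ofReal_im, Complex.I_re,
          Complex.I_im]
        ring
      rw [sum_congr rfl h5, ← Complex.re_sum, h4, Complex.zero_re]
  unfold Cs
  rw [sum_comm]
  have h6 : ∀ j ∈ range N, ∑ k ∈ range N, Real.cos (2 * Real.pi * k * j / N) • (A ^ j) x =
      (if j = 0 then (N : ℝ) else 0) • (A ^ j) x := by
    intro j hj
    rw [← sum_smul, hcos j hj]
  rw [sum_congr rfl h6, sum_eq_single 0]
  · simp
  · intro j _ hj0
    rw [if_neg hj0, zero_smul]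
  · intro h
    exact absurd (mem_range.mpr hN) h

/-- a rotation plane -/
lemma exists_plane {A : E →ₗ[ℝ] E} {N : ℕ} (hN : 0 < N) (hA : A ^ N = 1)
    (h2 : ∃ x, A (A x) ≠ x) :
    ∃ (k : ℕ) (C S : E), Real.sin (2 * Real.pi * k / N) ≠ 0 ∧ LinearIndependent ℝ ![C, S] ∧
      A C = Real.cos (2 * Real.pi * k / N) • C + Real.sin (2 * Real.pi * k / N) • S ∧
      A S = Real.cos (2 * Real.pi * k / N) • S - Real.sin (2 * Real.pi * k / N) • C := by
  obtain ⟨x, hx⟩ := h2
  have hNR : (N : ℝ) ≠ 0 := by exact_mod_cast hN.ne'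
  obtain ⟨k, hs, hne⟩ : ∃ k : ℕ, Real.sin (2 * Real.pi * k / N) ≠ 0 ∧
      ¬ (Cs A N x k = 0 ∧ Sn A N x k = 0) := by
    by_contra hcon
    push Not at hcon
    apply hx
    have h1 : ∀ k ∈ range N, A (A (Cs A N x k)) = Cs A N x k := by
      intro k _
      by_cases hs : Real.sin (2 * Real.pi * k / N) = 0
      · have hc : Real.cos (2 * Real.pi * k / N) * Real.cos (2 * Real.pi * k / N) = 1 := by
          have := Real.sin_sq_add_cos_sq (2 * Real.pi * k / N)
          rw [hs] at this
          nlinarith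
        rw [A_Cs hN hA, hs, zero_smul, add_zero, map_smul, A_Cs hN hA, hs, zero_smul, add_zero,
          smul_smul, hc, one_smul]
      · rw [(hcon k hs).1, map_zero, map_zero]
    have h3 := sum_Cs (A := A) hN x
    have h4 : A (A ((N : ℝ) • x)) = (N : ℝ) • x := by
      rw [← h3, map_sum, map_sum]
      exact sum_congr rfl h1
    rw [map_smul, map_smul] at h4
    exact smul_right_injective E hNR h4
  refine ⟨k, Cs A N x k, Sn A N x k, hs, ?_, A_Cs hN hA x k, A_Sn hN hA x k⟩
  rw [LinearIndependent.pair_iff]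
  intro a b hab
  by_contra hcon
  have hab2 : 0 < a * a + b * b := by
    by_contra h0
    have ha : a = 0 := by nlinarith [mul_self_nonneg a, mul_self_nonneg b]
    have hb : b = 0 := by nlinarith [mul_self_nonneg a, mul_self_nonneg b]
    exact hcon ⟨ha, hb⟩
  -- apply A
  have h5 : A (a • Cs A N x k + b • Sn A N x k) = 0 := by rw [hab, map_zero]
  rw [map_add, map_smul, map_smul, A_Cs hN hA, A_Sn hN hA] at h5
  have h6 : Real.sin (2 * Real.pi * k / N) • (a • Sn A N x k - b • Cs A N x k) = 0 := by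
    have : Real.sin (2 * Real.pi * k / N) • (a • Sn A N x k - b • Cs A N x k) =
        (a • (Real.cos (2 * Real.pi * k / N) • Cs A N x k +
          Real.sin (2 * Real.pi * k / N) • Sn A N x k) +
        b • (Real.cos (2 * Real.pi * k / N) • Sn A N x k -
          Real.sin (2 * Real.pi * k / N) • Cs A N x k)) -
        Real.cos (2 * Real.pi * k / N) • (a • Cs A N x k + b • Sn A N x k) := by module
    rw [this, h5, hab, smul_zero, sub_zero]
  have h7 : a • Sn A N x k - b • Cs A N x k = 0 := (smul_eq_zero.mp h6).resolve_left hs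
  apply hne
  constructor
  · have : (a * a + b * b) • Cs A N x k =
        a • (a • Cs A N x k + b • Sn A N x k) - b • (a • Sn A N x k - b • Cs A N x k) := by
      module
    rw [hab, h7, smul_zero, smul_zero, sub_zero] at this
    exact (smul_eq_zero.mp this).resolve_left hab2.ne'
  · have : (a * a + b * b) • Sn A N x k =
        b • (a • Cs A N x k + b • Sn A N x k) + a • (a • Sn A N x k - b • Cs A N x k) := by
      module
    rw [hab, h7, smul_zero, smul_zero, add_zero] at this
    exact (smul_eq_zero.mp this).resolve_left hab2.ne'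

end Pool.Agent.Illum.RotLin
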