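import Pool.Agent.Illum.RotSel

set_option autoImplicit false
set_option linter.unusedSectionVars false
set_option linter.style.longLine false

/-!
# Order three: bad points at intermediate heights
-/

namespace Pool.Agent.Illum.Rot

open Set Filter Topology Complex

variable {K : Set (ℂ × ℝ)} {zm zM c0 : ℝ}

/-- the supporting pyramid at a bad middle point -/
def BadT (K : Set (ℂ × ℝ)) (x : ℂ × ℝ) (s : ℝ) : Prop :=
  x.1 ≠ 0 ∧ ∀ y ∈ K, ∀ j, dt (-(Vt x.1 j)) y.1 + s * (y.2 - x.2) ≤ normSq x.1 / 2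

/-- bad orientation -/
def Ori (w r : ℂ) : Prop :=
  (w * (starRingEnd ℂ) r) ^ 6 = -(((normSq w * normSq r : ℝ) : ℂ) ^ 3)

lemma neg_dt (p w : ℂ) : dt (-p) w = -dt p w := by
  simp only [dt, neg_re, neg_im]; ring

lemma mul_conj_eq (w v : ℂ) :
    w * (starRingEnd ℂ) v = ⟨dt v w, dt (I * v) w⟩ := by
  apply Complex.ext
  · simp only [dt, mul_re, conj_re, conj_im]; ring
  · simp only [dt, mul_im, mul_re, conj_re, conj_im, I_re, I_im]; ring

lemma ori_of_sector {w v : ℂ} (h : √3 * |dt (I * v) w| = dt v w) : Ori w v := by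
  unfold Ori
  have hn := dt_sq w v
  have e1 : dt w v = dt v w := by simp only [dt]; ring
  have e2 : dt w (I * v) = dt (I * v) w := by simp only [dt]; ring
  rw [e1, e2] at hn
  rw [mul_conj_eq, ← hn]
  set X := dt v w
  set Y := dt (I * v) w
  have hXY : X ^ 2 = 3 * Y ^ 2 := by
    rw [← h, mul_pow, sq_abs, Real.sq_sqrt (by norm_num)]
  have hz : ((⟨X, Y⟩ : ℂ)) = (X : ℂ) + (Y : ℂ) * I := by
    apply Complex.ext <;> simp
  rw [hz]
  have hXY' : (X : ℂ) ^ 2 = 3 * (Y : ℂ) ^ 2 := by exact_mod_cast hXY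
  push_cast
  have hI : I ^ 2 = -1 := I_sq
  have s1 : ((X : ℂ) + (Y : ℂ) * I) ^ 2 = 2 * Y * (Y + X * I) := by
    linear_combination hXY' + (Y : ℂ) ^ 2 * hI
  have s2 : ((Y : ℂ) + X * I) ^ 3 = -8 * Y ^ 3 := by
    have hI3 : I ^ 3 = -I := by rw [pow_succ, hI]; ring
    have e : ((Y : ℂ) + X * I) ^ 3 = Y ^ 3 + 3 * Y ^ 2 * X * I + 3 * Y * X ^ 2 * I ^ 2 +
        X * X ^ 2 * I ^ 3 := by ring
    rw [e, hI3, hI, hXY']
    ring
  have e6 : ((X : ℂ) + (Y : ℂ) * I) ^ 6 = (((X : ℂ) + (Y : ℂ) * I) ^ 2) ^ 3 := by ring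
  rw [e6, s1, mul_pow, s2, hXY']
  ring

lemma Ori.pow6 {w r v : ℂ} (h : Ori w v) (hv : v ^ 6 = r ^ 6) (hn : normSq v = normSq r) :
    Ori w r := by
  unfold Ori at h ⊢
  rw [mul_pow, ← map_pow, ← hv, map_pow, ← mul_pow, h, hn]

lemma conj_z6_pow_six (k : ℕ) (r : ℂ) : (z6 ^ k * r) ^ 6 = r ^ 6 := by
  rw [mul_pow, ← pow_mul, mul_comm k 6, pow_mul, z6_six, one_pow, one_mul]

lemma normSq_z6_pow (k : ℕ) (r : ℂ) : normSq (z6 ^ k * r) = normSq r := by
  rw [map_mul, map_pow, normSq_z6, one_pow, one_mul]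

lemma Vt_two (w : ℂ) : -(Vt w 2) = z6 * w := by
  simp only [Vt]
  rw [zt3_pow_two]
  apply Complex.ext
  · simp only [z6, neg_re, mul_re]; ring
  · simp only [z6, neg_im, mul_im]; ring

lemma Vt_one (w : ℂ) : -(Vt w 1) = z6 ^ 5 * w := by
  simp only [Vt]
  rw [pow_one, zt3_eq, z6_five]
  apply Complex.ext
  · simp only [neg_re, mul_re]; ring
  · simp only [neg_im, mul_im]; ring

lemma Vt_rot (V : ℂ) (m j : ℕ) : zt 3 ^ m * Vt V j = Vt V (j + m) := by
  simp only [Vt]; rw [← mul_assoc, ← pow_add, add_comm]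

lemma Vt_add_three_mul (V : ℂ) (i m : ℕ) : Vt V (i + 3 * m) = Vt V i := by
  simp only [Vt]
  rw [pow_add, pow_mul, zt3_cube, one_pow, mul_one]

lemma normSq_Vt (V : ℂ) (j : ℕ) : normSq (Vt V j) = normSq V := by
  simp only [Vt]
  rw [map_mul, map_pow, normSq_zt, one_pow, one_mul]

lemma mid_or_bad (hb : Body 3 K) (B : Bal K zm zM c0) {x : ℂ × ℝ} (hx : x ∈ K)
    (hM : x.2 ≠ zM) (hm : x.2 ≠ zm) (hx0 : x.1 ≠ 0) {r : ℂ} (hr : r ≠ 0) :
    (∃ k ∈ Finset.range 6, ∀ p s, (p ≠ 0 ∨ s ≠ 0) → Nrm K x p s → 0 < dt p (z6 ^ k * r)) ∨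
    (∃ s, BadT K x s ∧ Ori x.1 r) := by
  have hs3 := sqrt3_pos
  obtain ⟨k, hk, hk2⟩ := cover6 r x.1
  by_cases hall : ∀ p s, (p ≠ 0 ∨ s ≠ 0) → Nrm K x p s → 0 < dt p (z6 ^ k * r)
  · exact Or.inl ⟨k, hk, hall⟩
  right
  push Not at hall
  obtain ⟨p, s, hps, hn, hle⟩ := hall
  have hv : z6 ^ k * r ≠ 0 := mul_ne_zero (pow_ne_zero _ z6_ne) hr
  have ha : 0 < dt p x.1 := B.pos_of_not_end hx hps hn (fun h => absurd h hM)
    (fun h => absurd h hm)
  obtain ⟨f1, f2⟩ := sector_fail hx0 hv hk2 (hb.quad3 x hx p s hn) ha hle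
  have hori : Ori x.1 r := (ori_of_sector f1).pow6 (conj_z6_pow_six k r) (normSq_z6_pow k r)
  have hw : 0 < normSq x.1 := normSq_pos.mpr hx0
  -- the direction of the normal
  have hdir : ∃ i : ℕ, (∀ q, normSq x.1 * dt p q = 2 * dt p x.1 * dt (-(Vt x.1 i)) q) ∧
      dt (-(Vt x.1 i)) x.1 = normSq x.1 / 2 := by
    have comm : ∀ u v : ℂ, dt u v = dt v u := fun u v => by simp only [dt]; ring
    have II : dt (I * x.1) x.1 = 0 := by simp only [dt, mul_re, mul_im, I_re, I_im]; ring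
    rcases le_total 0 (dt p (I * x.1)) with hbs | hbs
    · refine ⟨2, fun q => ?_, ?_⟩
      · rw [Vt_two, dt_z6_mul, dt_coord x.1 p q, comm x.1 p, comm (I * x.1) p]
        rw [abs_of_nonneg hbs] at f2
        rw [f2]; ring
      · rw [Vt_two, dt_z6_mul, II, dt_self]; ring
    · refine ⟨1, fun q => ?_, ?_⟩
      · rw [Vt_one, dt_z65_mul, dt_coord x.1 p q, comm x.1 p, comm (I * x.1) p]
        rw [abs_of_nonpos hbs] at f2
        have f2' : dt p (I * x.1) = -(√3 * dt p x.1) := by linarith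
        rw [f2']; ring
      · rw [Vt_one, dt_z65_mul, II, dt_self]; ring
  obtain ⟨i, hi1, hi2⟩ := hdir
  refine ⟨s * normSq x.1 / (2 * dt p x.1), ⟨hx0, ?_⟩, hori⟩
  have base : ∀ y ∈ K, dt (-(Vt x.1 i)) y.1 + s * normSq x.1 / (2 * dt p x.1) * (y.2 - x.2) ≤
      normSq x.1 / 2 := by
    intro y hy
    have h1 := hn y hy
    have h2 := mul_le_mul_of_nonneg_left h1 hw.le
    have e1 := hi1 y.1
    have e2 := hi1 x.1
    rw [hi2] at e2
    have h3 : 2 * dt p x.1 * dt (-(Vt x.1 i)) y.1 + s * normSq x.1 * (y.2 - x.2) ≤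
        2 * dt p x.1 * (normSq x.1 / 2) := by
      rw [mul_add, mul_add, e1, e2] at h2
      linarith
    have h4 : (2 * dt p x.1) * (dt (-(Vt x.1 i)) y.1 +
        s * normSq x.1 / (2 * dt p x.1) * (y.2 - x.2)) ≤ (2 * dt p x.1) * (normSq x.1 / 2) := by
      have e3 : (2 * dt p x.1) * (dt (-(Vt x.1 i)) y.1 +
        s * normSq x.1 / (2 * dt p x.1) * (y.2 - x.2)) =
        2 * dt p x.1 * dt (-(Vt x.1 i)) y.1 + s * normSq x.1 * (y.2 - x.2) := by
        field_simp
      rw [e3]; exact h3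
    exact le_of_mul_le_mul_left h4 (by linarith)
  intro y hy j
  have h1 := base _ (hb.pow_mem (i + 2 * j) hy)
  simp only at h1
  have hnz : normSq (zt 3 ^ (i + 2 * j)) = 1 := by rw [map_pow, normSq_zt, one_pow]
  have e1 : dt (-(Vt x.1 j)) y.1 = dt (-(Vt x.1 i)) (zt 3 ^ (i + 2 * j) * y.1) := by
    rw [← dt_rot (zt 3 ^ (i + 2 * j)) _ _ hnz]
    have : zt 3 ^ (i + 2 * j) * -(Vt x.1 j) = -(Vt x.1 i) := by
      rw [mul_neg, Vt_rot]
      have : j + (i + 2 * j) = i + 3 * j := by ring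
      rw [this, Vt_add_three_mul]
    rw [this]
  rw [e1]
  exact h1

lemma lam_nonneg_iff {V : ℂ} (hV : V ≠ 0) (j : ℕ) (w : ℂ) :
    0 ≤ lam V j w ↔ dt (-(Vt V j)) w ≤ normSq V / 2 := by
  have h := normSq_pos.mpr hV
  rw [neg_dt, lam]
  constructor
  · intro h1
    have h2 : 0 ≤ 1 + 2 * dt (Vt V j) w / normSq V := by linarith
    have h3 : 0 ≤ (1 + 2 * dt (Vt V j) w / normSq V) * normSq V := mul_nonneg h2 h.le
    rw [add_mul, div_mul_cancel₀ _ h.ne'] at h3
    linarith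
  · intro h1
    have h3 : 0 ≤ (1 + 2 * dt (Vt V j) w / normSq V) * normSq V := by
      rw [add_mul, div_mul_cancel₀ _ h.ne']; linarith
    have h2 := nonneg_of_mul_nonneg_left h3 h
    linarith

lemma lam_pos_of {V : ℂ} (hV : V ≠ 0) (j : ℕ) (w : ℂ) (h1 : dt (-(Vt V j)) w < normSq V / 2) :
    0 < lam V j w := by
  have h := normSq_pos.mpr hV
  rw [neg_dt] at h1
  rw [lam]
  have h3 : 0 < (1 + 2 * dt (Vt V j) w / normSq V) * normSq V := by
    rw [add_mul, div_mul_cancel₀ _ h.ne']; linarith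
  have h2 := (mul_pos_iff_of_pos_right h).mp h3
  linarith

lemma Vt_mem (hb : Body 3 K) {x : ℂ × ℝ} (hx : x ∈ K) (j : ℕ) : (Vt x.1 j, x.2) ∈ K :=
  hb.pow_mem j hx

/-- silhouette points are never strictly on the inner side of the pyramid -/
lemma BadT.not_inner (hb : Body 3 K) {x x' : ℂ × ℝ} {s : ℝ} (h : BadT K x s) (hx : x ∈ K)
    (hx' : x' ∈ K) (hs' : Sil K x') : s * (x'.2 - x.2) ≤ 0 := by
  by_contra hcon
  have hcon' := not_le.mp hcon
  have h1 : ∀ j, 0 < lam x.1 j x'.1 := by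
    intro j
    apply lam_pos_of h.1
    have := h.2 x' hx' j
    linarith
  have h2 := lam_zero_of_sil h.1 (Vt_mem hb hx) (fun j => (h1 j).le) hs' 0
  rcases h2 with h3 | h3 | h3
  · exact (h1 _).ne' h3
  · exact (h1 _).ne' h3
  · exact (h1 _).ne' h3

lemma lam_norm {V w : ℂ} (hV : V ≠ 0) (hl : ∀ j, 0 ≤ lam V j w) :
    normSq w ≤ normSq V ∧ (normSq V ≤ normSq w → ∃ j, w = Vt V j) := by
  have hp := normSq_pos.mpr hV
  have hsum := lam_sum V w 0
  have hfr := lam_dt hV w w 0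
  have hd : ∀ j, dt w (Vt V j) = normSq V * (3 * lam V j w - 1) / 2 := by
    intro j
    have : dt w (Vt V j) = dt (Vt V j) w := by simp only [dt]; ring
    rw [this, lam]
    field_simp
    ring
  rw [dt_self, hd, hd, hd] at hfr
  simp only [zero_add] at hsum hfr
  set a := lam V 0 w with ha
  set b := lam V 1 w with hb
  set c := lam V 2 w with hc
  have a0 : 0 ≤ a := hl 0
  have b0 : 0 ≤ b := hl 1
  have cc0 : 0 ≤ c := hl 2
  have e : normSq w = normSq V * (1 - 3 * (a * b + b * c + a * c)) := by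
    have hc' : c = 1 - a - b := by linarith
    rw [hfr, hc']; ring
  have ab := mul_nonneg a0 b0
  have bc := mul_nonneg b0 cc0
  have ac := mul_nonneg a0 cc0
  refine ⟨?_, ?_⟩
  · rw [e]
    nlinarith
  · intro hge
    rw [e] at hge
    have h0 : a * b + b * c + a * c ≤ 0 := by
      by_contra hcon
      have := mul_pos hp (not_le.mp hcon)
      nlinarith
    have hab : a * b = 0 := by linarith
    have hbc : b * c = 0 := by linarith
    have hac : a * c = 0 := by linarith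
    have fin : ∀ j, (∀ p, dt p w = dt p (Vt V j)) → ∃ j, w = Vt V j := by
      intro j hj
      refine ⟨j, ?_⟩
      by_contra hne
      have h1 := hj (w - Vt V j)
      have h2 := dt_self_pos (sub_ne_zero.mpr hne)
      rw [dt_sub] at h2
      linarith
    have hdt : ∀ p, dt p w = a * dt p (Vt V 0) + b * dt p (Vt V 1) + c * dt p (Vt V 2) :=
      fun p => lam_dt hV p w 0
    rcases mul_eq_zero.mp hab with h | h
    · rcases mul_eq_zero.mp hbc with h' | h'
      · apply fin 2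
        intro p
        have : c = 1 := by linarith
        rw [hdt, h, h', this]; ring
      · apply fin 1
        intro p
        have : b = 1 := by linarith
        rw [hdt, h, h', this]; ring
    · rcases mul_eq_zero.mp hac with h' | h'
      · apply fin 2
        intro p
        have : c = 1 := by linarith
        rw [hdt, h, h', this]; ring
      · apply fin 0
        intro p
        have : a = 1 := by linarith
        rw [hdt, h, h', this]; ring

/-- two bad points of the same type have the same position up to the rotation -/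
lemma BadT.same (hb : Body 3 K) {x x' : ℂ × ℝ} {s s' σ : ℝ} (h : BadT K x s) (h' : BadT K x' s')
    (hx : x ∈ K) (hx' : x' ∈ K) (hs : Sil K x) (hs' : Sil K x') (h1 : 0 < σ * s)
    (h2 : 0 < σ * s') : ∃ j, x'.1 = Vt x.1 j := by
  have e1 := h.not_inner hb hx hx' hs'
  have e2 := h'.not_inner hb hx' hx hs
  have hz : x'.2 = x.2 := by
    rcases lt_trichotomy σ 0 with hσ | hσ | hσ
    · have s1 : s < 0 := by
        by_contra hcon
        have := mul_nonpos_of_nonpos_of_nonneg hσ.le (not_lt.mp hcon)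
        linarith
      have s2 : s' < 0 := by
        by_contra hcon
        have := mul_nonpos_of_nonpos_of_nonneg hσ.le (not_lt.mp hcon)
        linarith
      have t1 : 0 ≤ x'.2 - x.2 := by
        by_contra hcon
        have := mul_pos_of_neg_of_neg s1 (not_le.mp hcon)
        linarith
      have t2 : 0 ≤ x.2 - x'.2 := by
        by_contra hcon
        have := mul_pos_of_neg_of_neg s2 (not_le.mp hcon)
        linarith
      linarith
    · rw [hσ, zero_mul] at h1
      exact absurd h1 (lt_irrefl _)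
    · have s1 : 0 < s := (mul_pos_iff_of_pos_left hσ).mp h1
      have s2 : 0 < s' := (mul_pos_iff_of_pos_left hσ).mp h2
      have t1 : x'.2 - x.2 ≤ 0 := by
        by_contra hcon
        have := mul_pos s1 (not_le.mp hcon)
        linarith
      have t2 : x.2 - x'.2 ≤ 0 := by
        by_contra hcon
        have := mul_pos s2 (not_le.mp hcon)
        linarith
      linarith
  have l1 : ∀ j, 0 ≤ lam x.1 j x'.1 := by
    intro j
    rw [lam_nonneg_iff h.1]
    have := h.2 x' hx' j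
    rw [hz, sub_self, mul_zero, add_zero] at this
    exact this
  have l2 : ∀ j, 0 ≤ lam x'.1 j x.1 := by
    intro j
    rw [lam_nonneg_iff h'.1]
    have := h'.2 x hx j
    rw [hz, sub_self, mul_zero, add_zero] at this
    exact this
  exact (lam_norm h.1 l1).2 (lam_norm h'.1 l2).1

/-- sixth power argument -/
lemma real_of_pow6 {z : ℂ} (h0 : z ≠ 0) (h : z ^ 6 = ((normSq z : ℝ) : ℂ) ^ 3)
    (hs : |z.im| < √3 * z.re) : z.im = 0 := by
  have hN : 0 < normSq z := normSq_pos.mpr h0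
  have hfac : (z ^ 2 - (normSq z : ℂ)) * (z ^ 4 + (normSq z : ℂ) * z ^ 2 + (normSq z : ℂ) ^ 2) = 0 := by
    linear_combination h
  rcases mul_eq_zero.mp hfac with h1 | h1
  · have h2 := congrArg Complex.re h1
    simp only [pow_two, sub_re, mul_re, ofReal_re, zero_re, normSq_apply] at h2
    have h3 : z.im * z.im = 0 := by linarith
    exact mul_self_eq_zero.mp h3
  · exfalso
    have h2 : (normSq z : ℂ) ^ 2 * (z ^ 2 + (normSq z : ℂ) + ((starRingEnd ℂ) z) ^ 2) = 0 := by
      have hzz : z * (starRingEnd ℂ) z = (normSq z : ℂ) := Complex.mul_conj z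
      have e : z ^ 4 * ((starRingEnd ℂ) z) ^ 2 = (normSq z : ℂ) ^ 2 * z ^ 2 := by
        rw [← hzz]; ring
      have e2 : z ^ 2 * ((starRingEnd ℂ) z) ^ 2 = (normSq z : ℂ) ^ 2 := by
        rw [← hzz]; ring
      linear_combination ((starRingEnd ℂ) z) ^ 2 * h1 - e - (normSq z : ℂ) * e2
    have h3 : z ^ 2 + (normSq z : ℂ) + ((starRingEnd ℂ) z) ^ 2 = 0 := by
      rcases mul_eq_zero.mp h2 with h4 | h4
      · exfalso
        have : (normSq z : ℂ) = 0 := pow_eq_zero_iff (two_ne_zero) |>.mp h4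
        exact hN.ne' (by exact_mod_cast this)
      · exact h4
    have h4 := congrArg Complex.re h3
    simp only [pow_two, add_re, mul_re, ofReal_re, zero_re, normSq_apply, conj_re, conj_im] at h4
    have h5 : z.im ^ 2 = (√3 * z.re) ^ 2 := by
      rw [mul_pow, Real.sq_sqrt (by norm_num)]; nlinarith
    have h6 : 0 ≤ √3 * z.re := (abs_nonneg _).trans hs.le
    have h7 : |z.im| = √3 * z.re := by
      rw [← abs_of_nonneg h6]
      exact (sq_eq_sq_iff_abs_eq_abs _ _).mp h5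
    linarith

lemma ori_two {w w' r r' : ℂ} (hw : w ≠ 0) (hr : r ≠ 0) (hr' : r' ≠ 0) {j : ℕ} (h : w' = Vt w j)
    (h1 : Ori w r) (h2 : Ori w' r') (hs : |dt (I * r') r| < √3 * dt r' r) :
    dt (I * r') r = 0 := by
  have h2' : Ori w r' := by
    unfold Ori at h2 ⊢
    have e : (w' * (starRingEnd ℂ) r') ^ 6 = (w * (starRingEnd ℂ) r') ^ 6 := by
      rw [h, Vt, mul_pow, mul_pow, mul_pow, ← pow_mul, mul_comm j 6]
      have : (6 * j) = 3 * (2 * j) := by ring
      rw [this, pow_mul, zt3_cube, one_pow, one_mul]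
    rw [← e, h2, h, normSq_Vt]
  unfold Ori at h1 h2'
  set z := r * (starRingEnd ℂ) r' with hz
  have hz0 : z ≠ 0 := mul_ne_zero hr ((map_ne_zero _).mpr hr')
  have hzc : z = ⟨dt r' r, dt (I * r') r⟩ := mul_conj_eq r r'
  have hnz : normSq z = normSq r * normSq r' := by
    rw [hz, map_mul, normSq_conj]
  have hW : (w * (starRingEnd ℂ) w) = (normSq w : ℂ) := Complex.mul_conj w
  have h6 : z ^ 6 = ((normSq z : ℝ) : ℂ) ^ 3 := by
    have c1 := congrArg (starRingEnd ℂ) h1
    rw [map_pow, map_mul, Complex.conj_conj, map_neg, map_pow, conj_ofReal] at c1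
    have hwn : (normSq w : ℂ) ^ 6 ≠ 0 := by
      apply pow_ne_zero
      exact_mod_cast (normSq_pos.mpr hw).ne'
    apply mul_left_cancel₀ hwn
    have e1 : (normSq w : ℂ) ^ 6 * z ^ 6 =
        ((starRingEnd ℂ) w * r) ^ 6 * (w * (starRingEnd ℂ) r') ^ 6 := by
      rw [← hW, hz]; ring
    rw [e1, c1, h2', hnz]
    push_cast
    ring
  have := real_of_pow6 hz0 h6 (by rw [hzc]; exact hs)
  rw [hzc] at this
  exact this

end Pool.Agent.Illum.Rot
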