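import Pool.Agent.Illum.RotTop

set_option autoImplicit false
set_option linter.unusedSectionVars false
set_option linter.style.longLine false

/-!
# Order three: what goes wrong for a given hexagon of directions
-/

namespace Pool.Agent.Illum.Rot

open Set Filter Topology Complex

variable {K : Set (ℂ × ℝ)} {zm zM c0 : ℝ}

lemma z6_sq_eq : z6 ^ 2 = zt 3 := by
  rw [z6_sq, zt3_eq]
  apply Complex.ext
  · simp only [z6, sub_re, one_re]; norm_num
  · simp only [z6, sub_im, one_im]; ring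

lemma normSq_z6 : normSq z6 = 1 := by
  have := sqrt3_sq
  rw [normSq_apply]; simp only [z6]; linarith

lemma sil_ne_zero (B : Bal K zm zM c0) {x : ℂ × ℝ} (hx : x ∈ K) (h : Sil K x) : x.1 ≠ 0 := by
  intro h0
  obtain ⟨g, hg, hn⟩ := h
  rcases B.end_of_zero hx (Or.inl hg) hn (by rw [h0, dt_zero]) with h1 | h1
  · exact lt_irrefl _ h1.2
  · exact lt_irrefl _ h1.2

lemma dt_z6_mul (v w : ℂ) : dt (z6 * v) w = dt v w / 2 + √3 / 2 * dt (I * v) w := by
  rw [dt_mul_left]; simp only [z6]; ring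

lemma dt_I_z6_mul (v w : ℂ) : dt (I * (z6 * v)) w = dt (I * v) w / 2 - √3 / 2 * dt v w := by
  have : I * (z6 * v) = (I * z6) * v := by ring
  rw [this, dt_mul_left]
  simp only [z6, mul_re, mul_im, I_re, I_im]; ring

lemma dt_z65_mul (v w : ℂ) : dt (z6 ^ 5 * v) w = dt v w / 2 - √3 / 2 * dt (I * v) w := by
  rw [dt_mul_left]; simp only [z6_five]; ring

lemma dt_I_z65_mul (v w : ℂ) :
    dt (I * (z6 ^ 5 * v)) w = dt (I * v) w / 2 + √3 / 2 * dt v w := by
  have : I * (z6 ^ 5 * v) = (I * z6 ^ 5) * v := by ring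
  rw [this, dt_mul_left, z6_five]
  simp only [mul_re, mul_im, I_re, I_im]; ring

/-- the failing alternative inside a closed 30-degree sector -/
lemma sector_fail {p v w : ℂ} (hw : w ≠ 0) (hv : v ≠ 0)
    (h1 : √3 * |dt (I * v) w| ≤ dt v w) (h2 : |dt p (I * w)| ≤ √3 * dt p w) (h3 : 0 < dt p w)
    (h4 : dt p v ≤ 0) : √3 * |dt (I * v) w| = dt v w ∧ |dt p (I * w)| = √3 * dt p w := by
  have hs := sqrt3_pos
  have hs2 := sqrt3_sq
  have h5 := dt_identity p v w
  have h6 : 0 < normSq w := normSq_pos.mpr hw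
  have hY : |dt (I * v) w| ≤ dt v w := by
    have : (1:ℝ) ≤ √3 := by
      rw [show (1:ℝ) = √1 by simp]; exact Real.sqrt_le_sqrt (by norm_num)
    have := mul_le_mul_of_nonneg_right this (abs_nonneg (dt (I * v) w))
    linarith
  have hX : 0 < dt v w := dt_pos_of_sec' hw hv hY
  have h7 : dt v w * dt p w ≤ |dt (I * v) w| * |dt p (I * w)| := by
    have e1 : dt (I * v) w * dt p (I * w) ≤ |dt (I * v) w| * |dt p (I * w)| := by
      rw [← abs_mul]; exact le_abs_self _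
    have e2 : normSq w * dt p v ≤ 0 := mul_nonpos_of_nonneg_of_nonpos h6.le h4
    linarith
  constructor
  · by_contra hne
    have h8 : √3 * |dt (I * v) w| < dt v w := lt_of_le_of_ne h1 hne
    have h9 : |dt (I * v) w| * |dt p (I * w)| ≤ |dt (I * v) w| * (√3 * dt p w) :=
      mul_le_mul_of_nonneg_left h2 (abs_nonneg _)
    have h10 : (√3 * |dt (I * v) w|) * dt p w < dt v w * dt p w :=
      mul_lt_mul_of_pos_right h8 h3
    linarith
  · by_contra hne
    have h8 : |dt p (I * w)| < √3 * dt p w := lt_of_le_of_ne h2 hne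
    have h9 : √3 * |dt (I * v) w| * |dt p (I * w)| ≤ dt v w * |dt p (I * w)| :=
      mul_le_mul_of_nonneg_right h1 (abs_nonneg _)
    have h10 : dt v w * |dt p (I * w)| < dt v w * (√3 * dt p w) :=
      mul_lt_mul_of_pos_left h8 hX
    have h11 := mul_le_mul_of_nonneg_left h7 hs.le
    linarith

/-- a bad end point produces the reflected point -/
lemma end_bad (hb : Body 3 K) (B : Bal K zm zM c0) {h : ℝ} {x : ℂ × ℝ} (hx : x ∈ K)
    (hxh : x.2 = h) (hs : Sil K x) {r y : ℂ} (hr : r ≠ 0)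
    (hbad : ∀ k ∈ Finset.range 3, ∃ p, FN K h x.1 p ∧ dt p (zt 3 ^ k * r) ≤ 0)
    (hy : (y, h) ∈ K) (hyr : √3 * |dt (I * r) y| < dt r y) (hyw : normSq x.1 ≤ normSq y) :
    (Wp r y, h) ∈ K ∧ FN K h (Wp r y) (I * r) := by
  have hs3 := sqrt3_pos
  have hs2 := sqrt3_sq
  have hx0 := sil_ne_zero B hx hs
  have hxK : (x.1, h) ∈ K := by rw [← hxh]; exact hx
  have hbad' : ∀ k : ℕ, ∃ p, FN K h x.1 p ∧ dt p (zt 3 ^ k * r) ≤ 0 := by
    intro k
    obtain ⟨p, h1, h2⟩ := hbad (k % 3) (Finset.mem_range.mpr (Nat.mod_lt _ (by norm_num)))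
    refine ⟨p, h1, ?_⟩
    have e : zt 3 ^ k = zt 3 ^ (k % 3) := by
      conv_lhs => rw [← Nat.div_add_mod k 3, pow_add, pow_mul, zt3_cube, one_pow, one_mul]
    rw [e]; exact h2
  -- find an odd sector
  have hodd : ∃ j : ℕ, √3 * |dt (I * (z6 ^ (2 * j + 1) * r)) x.1| ≤ dt (z6 ^ (2 * j + 1) * r) x.1 := by
    obtain ⟨k, _, hk⟩ := cover6 r x.1
    rcases Nat.even_or_odd k with he | ho
    · obtain ⟨j, hj⟩ := he
      have hj' : k = 2 * j := by omega
      obtain ⟨p, h1, h2⟩ := hbad' j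
      have e1 : z6 ^ k * r = zt 3 ^ j * r := by rw [hj', pow_mul, z6_sq_eq]
      have hv : zt 3 ^ j * r ≠ 0 := by rw [← e1]; exact mul_ne_zero (pow_ne_zero _ z6_ne) hr
      rw [e1] at hk
      obtain ⟨f1, _⟩ := sector_fail hx0 hv hk (h1.quad hb hxK) (h1.pos hb hxK hx0) h2
      rcases le_total 0 (dt (I * (zt 3 ^ j * r)) x.1) with hY | hY
      · refine ⟨j, ?_⟩
        have e2 : z6 ^ (2 * j + 1) * r = z6 * (zt 3 ^ j * r) := by
          rw [pow_succ, pow_mul, z6_sq_eq]; ring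
        rw [e2, dt_z6_mul, dt_I_z6_mul]
        rw [abs_of_nonneg hY] at f1
        rw [← f1]
        have e3 : dt (I * (zt 3 ^ j * r)) x.1 / 2 - √3 / 2 * (√3 * dt (I * (zt 3 ^ j * r)) x.1) =
            -(dt (I * (zt 3 ^ j * r)) x.1) := by
          linear_combination (-(dt (I * (zt 3 ^ j * r)) x.1) / 2) * hs2
        rw [e3, abs_neg, abs_of_nonneg hY]
        linarith
      · refine ⟨j + 2, ?_⟩
        have e2 : z6 ^ (2 * (j + 2) + 1) * r = z6 ^ 5 * (zt 3 ^ j * r) := by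
          rw [← z6_sq_eq]; ring
        rw [e2, dt_z65_mul, dt_I_z65_mul]
        rw [abs_of_nonpos hY] at f1
        rw [← f1]
        have e3 : dt (I * (zt 3 ^ j * r)) x.1 / 2 +
            √3 / 2 * (√3 * -dt (I * (zt 3 ^ j * r)) x.1) =
            -(dt (I * (zt 3 ^ j * r)) x.1) := by
          linear_combination (-(dt (I * (zt 3 ^ j * r)) x.1) / 2) * hs2
        rw [e3, abs_neg, abs_of_nonpos hY]
        linarith
    · obtain ⟨j, hj⟩ := ho
      exact ⟨j, by rw [← hj]; exact hk⟩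
  obtain ⟨j, hj⟩ := hodd
  obtain ⟨p0, f0, g0⟩ := hbad' j
  obtain ⟨p1, f1, g1⟩ := hbad' (j + 1)
  have hn : normSq (zt 3 ^ (2 * j)) = 1 := by rw [map_pow, normSq_zt, one_pow]
  have hzz : zt 3 ^ (2 * j) * zt 3 ^ j = 1 := by
    rw [← pow_add]
    have : 2 * j + j = 3 * j := by ring
    rw [this, pow_mul, zt3_cube, one_pow]
  set w := zt 3 ^ (2 * j) * x.1 with hw
  have hwK : (w, h) ∈ K := by
    have := hb.pow_mem (2 * j) hx
    rwa [hxh] at this
  have hz0 : zt 3 ^ (2 * j) ≠ 0 := by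
    intro h; rw [h, map_zero] at hn; exact zero_ne_one hn
  have hw0 : w ≠ 0 := mul_ne_zero hz0 hx0
  have F0 : FN K h w (zt 3 ^ (2 * j) * p0) := f0.rot hb (2 * j)
  have F1 : FN K h w (zt 3 ^ (2 * j) * p1) := f1.rot hb (2 * j)
  have G0 : dt (zt 3 ^ (2 * j) * p0) r ≤ 0 := by
    have e : r = zt 3 ^ (2 * j) * (zt 3 ^ j * r) := by rw [← mul_assoc, hzz, one_mul]
    rw [e, dt_rot _ _ _ hn]; exact g0
  have G1 : dt (zt 3 ^ (2 * j) * p1) (zt 3 * r) ≤ 0 := by
    have e : zt 3 * r = zt 3 ^ (2 * j) * (zt 3 ^ (j + 1) * r) := by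
      linear_combination (-(zt 3 * r)) * hzz
    rw [e, dt_rot _ _ _ hn]; exact g1
  have hsec : √3 * |dt (I * (z6 * r)) w| ≤ dt (z6 * r) w := by
    have e1 : z6 * r = zt 3 ^ (2 * j) * (z6 ^ (2 * j + 1) * r) := by
      have : z6 ^ (2 * j + 1) = zt 3 ^ j * z6 := by rw [pow_succ, pow_mul, z6_sq_eq]
      rw [this]
      linear_combination (-(z6 * r)) * hzz
    have e2 : I * (z6 * r) = zt 3 ^ (2 * j) * (I * (z6 ^ (2 * j + 1) * r)) := by
      rw [e1]; ring
    rw [e2, hw, dt_rot _ _ _ hn, e1, dt_rot _ _ _ hn]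
    exact hj
  have hnw : normSq w ≤ normSq y := by
    rw [hw, map_mul, hn, one_mul]; exact hyw
  obtain ⟨r1, r2⟩ := top_core hb hr hwK hw0 F0 G0 F1 G1 hsec hy hyr hnw
  rw [r2] at hwK r1
  exact ⟨hwK, r1⟩

/-- two bad choices are parallel -/
lemma end_two {h : ℝ} {r r' y : ℂ} (hr : r ≠ 0) (hr' : r' ≠ 0)
    (hyr : √3 * |dt (I * r) y| < dt r y) (hyr' : √3 * |dt (I * r') y| < dt r' y)
    (h1 : (Wp r y, h) ∈ K) (h2 : FN K h (Wp r y) (I * r))
    (h1' : (Wp r' y, h) ∈ K) (h2' : FN K h (Wp r' y) (I * r')) : dt (I * r) r' = 0 := by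
  have hs3 := sqrt3_pos
  have key : ∀ r r' : ℂ, r ≠ 0 → r' ≠ 0 → dt (I * r) (Wp r' y) - dt (I * r) (Wp r y) =
      2 * dt (I * r) r' * (dt r' y / 2 + √3 / 2 * dt (I * r') y) / normSq r' := by
    intro r r' hr hr'
    have hn' : normSq r' ≠ 0 := (normSq_pos.mpr hr').ne'
    rw [(Wp_coord hr y).2]
    have e := dt_coord r' (I * r) (Wp r' y)
    rw [(Wp_coord hr' y).1, (Wp_coord hr' y).2] at e
    have e' : dt (I * r) (Wp r' y) = (dt r' (I * r) * (dt r' y / 2 + √3 / 2 * dt (I * r') y) +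
        dt (I * r') (I * r) * (√3 / 2 * dt r' y - dt (I * r') y / 2)) / normSq r' := by
      rw [eq_div_iff hn']; linarith
    rw [e', eq_div_iff hn', sub_mul, div_mul_cancel₀ _ hn']
    simp only [dt, mul_re, mul_im, I_re, I_im, normSq_apply]
    ring
  have pos : ∀ r : ℂ, √3 * |dt (I * r) y| < dt r y → 0 < dt r y / 2 + √3 / 2 * dt (I * r) y := by
    intro r h
    have := mul_le_mul_of_nonneg_left (neg_abs_le (dt (I * r) y)) hs3.le
    linarith
  have k1 := key r r' hr hr'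
  have k2 := key r' r hr' hr
  have m1 := h2.2 _ h1' rfl
  have m2 := h2'.2 _ h1 rfl
  simp only at m1 m2
  have n1 : dt (I * r) r' ≤ 0 := by
    by_contra hcon
    have : 0 < 2 * dt (I * r) r' * (dt r' y / 2 + √3 / 2 * dt (I * r') y) / normSq r' :=
      div_pos (mul_pos (by linarith) (pos r' hyr')) (normSq_pos.mpr hr')
    linarith
  have n2 : dt (I * r') r ≤ 0 := by
    by_contra hcon
    have : 0 < 2 * dt (I * r') r * (dt r y / 2 + √3 / 2 * dt (I * r) y) / normSq r :=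
      div_pos (mul_pos (by linarith) (pos r hyr)) (normSq_pos.mpr hr)
    linarith
  have n3 : dt (I * r') r = - dt (I * r) r' := by
    simp only [dt, mul_re, mul_im, I_re, I_im]; ring
  linarith

end Pool.Agent.Illum.Rot
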