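import Pool.Agent.Illum.RotFour

set_option autoImplicit false
set_option linter.unusedSectionVars false
set_option linter.style.longLine false

/-!
# `6 + 2` directions
-/

namespace Pool.Agent.Illum.Rot

open Set Filter Topology Complex

variable {K : Set (ℂ × ℝ)} {zm zM c0 : ℝ}

/-- the primitive sixth root of unity -/
noncomputable def z6 : ℂ := ⟨1 / 2, √3 / 2⟩

lemma z6_sq : z6 ^ 2 = z6 - 1 := by
  have h : √3 * √3 = 3 := Real.mul_self_sqrt (by norm_num)
  apply Complex.ext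
  · simp only [z6, pow_two, mul_re, sub_re, one_re]
    nlinarith
  · simp only [z6, pow_two, mul_im, sub_im, one_im]
    nlinarith

lemma z6_cube : z6 ^ 3 = -1 := by
  have h := z6_sq
  linear_combination (z6 + 1) * h

lemma z6_six : z6 ^ 6 = 1 := by
  have h := z6_cube
  linear_combination (z6 ^ 3 - 1) * h

lemma z6_five : z6 ^ 5 = ⟨1 / 2, -(√3 / 2)⟩ := by
  have h1 : z6 ^ 5 = 1 - z6 := by
    have h := z6_sq
    have h3 := z6_cube
    linear_combination z6 ^ 2 * h3 - h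
  rw [h1]
  apply Complex.ext
  · simp only [z6, sub_re, one_re]; norm_num
  · simp only [z6, sub_im, one_im]; ring

lemma z6_ne : z6 ≠ 0 := by
  intro h
  have := z6_six
  rw [h] at this
  norm_num at this

lemma sqrt3_lb : (5 / 3 : ℝ) ≤ √3 := by
  apply Real.le_sqrt_of_sq_le
  norm_num

lemma cover6 (q w : ℂ) :
    ∃ k ∈ Finset.range 6, √3 * |dt (I * (z6 ^ k * q)) w| ≤ dt (z6 ^ k * q) w := by
  obtain ⟨k, hk, hmax⟩ := exists_max_dir (by norm_num : 0 < 6) z6_six q w
  refine ⟨k, hk, ?_⟩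
  have h1 := hmax (k + 1)
  have h2 := hmax (k + 5)
  have e1 : z6 ^ (k + 1) * q = z6 * (z6 ^ k * q) := by ring
  have e2 : z6 ^ (k + 5) * q = z6 ^ 5 * (z6 ^ k * q) := by ring
  rw [e1, dt_mul_left] at h1
  rw [e2, z6_five, dt_mul_left] at h2
  simp only [z6] at h1 h2 ⊢
  set X := dt ((⟨1 / 2, √3 / 2⟩ : ℂ) ^ k * q) w
  set Y := dt (I * ((⟨1 / 2, √3 / 2⟩ : ℂ) ^ k * q)) w
  have h3 : 0 ≤ √3 := Real.sqrt_nonneg _
  rcases abs_cases Y with ⟨h, _⟩ | ⟨h, _⟩ <;> rw [h] <;> nlinarith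

lemma dt_pos_of_sec' {v w : ℂ} (hw : w ≠ 0) (hv : v ≠ 0) (h1 : |dt (I * v) w| ≤ dt v w) :
    0 < dt v w := by
  have h6 : 0 < normSq w := normSq_pos.mpr hw
  have h7 : 0 ≤ dt v w := (abs_nonneg _).trans h1
  rcases h7.lt_or_eq with h | h
  · exact h
  · exfalso
    rw [← h] at h1
    have h8 : dt (I * v) w = 0 := abs_eq_zero.mp (le_antisymm h1 (abs_nonneg _))
    have h9 := dt_sq w v
    have e1 : dt w v = dt v w := by simp only [dt]; ring
    have e2 : dt w (I * v) = dt (I * v) w := by simp only [dt]; ring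
    rw [e1, e2, h8, ← h] at h9
    have := mul_pos h6 (normSq_pos.mpr hv)
    nlinarith

/-- If, apart from the two ends of the axis, all normals with `0 ≤ σ s` see the point, then
six nearly horizontal directions and the two vertical ones suffice. -/
theorem main62 (B : Bal K zm zM c0)
    (quad : ∀ x ∈ K, ∀ p s, Nrm K x p s → |dt p (I * x.1)| ≤ dt p x.1) (σ : ℝ)
    (hfree : ∀ x ∈ K, x ≠ (0, zM) → x ≠ (0, zm) → ∀ p s, (p ≠ 0 ∨ s ≠ 0) → Nrm K x p s →
      0 ≤ σ * s → 0 < dt p x.1) :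
    ∃ T : Finset (ℂ × ℝ), T.card ≤ 8 ∧ K ⊆ ⋃ t ∈ T, (fun x => t + x) '' interior K := by
  have hcard : (Finset.range 8).card = 8 := by simp
  rw [← hcard]
  apply cover_of_local B.conv B.comp (Finset.range 8)
    (fun i t => if i < 6 then (-(z6 ^ i * 1), σ * t) else if i = 6 then (0, -1) else (0, 1))
  intro x hx
  have hzz := B.zm_lt_zM
  by_cases hM : x = (0, zM)
  · have h1 : Ill K x (0, -1) := by
      apply ill_of_nrm B.conv B.hint
      intro p s hps hn
      rcases B.end_of_zero hx hps hn (by rw [hM, dt_zero]) with h | h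
      · simp only [dt_zero]; linarith
      · exfalso
        rw [hM] at h
        exact hzz.ne h.1.symm
    have hcont : Continuous (fun z : ℝ × (ℂ × ℝ) => z.2) := by fun_prop
    have h2 : ∀ᶠ z : ℝ × (ℂ × ℝ) in 𝓝 (0, x), Ill K z.2 (0, -1) :=
      (hcont.tendsto (0, x)).eventually (ill_eventually h1)
    filter_upwards [h2] with z hz _ _
    exact ⟨6, by simp, by simpa using hz⟩
  by_cases hm : x = (0, zm)
  · have h1 : Ill K x (0, 1) := by
      apply ill_of_nrm B.conv B.hint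
      intro p s hps hn
      rcases B.end_of_zero hx hps hn (by rw [hm, dt_zero]) with h | h
      · exfalso
        rw [hm] at h
        exact hzz.ne h.1
      · simp only [dt_zero]; linarith
    have hcont : Continuous (fun z : ℝ × (ℂ × ℝ) => z.2) := by fun_prop
    have h2 : ∀ᶠ z : ℝ × (ℂ × ℝ) in 𝓝 (0, x), Ill K z.2 (0, 1) :=
      (hcont.tendsto (0, x)).eventually (ill_eventually h1)
    filter_upwards [h2] with z hz _ _
    exact ⟨7, by simp, by simpa using hz⟩
  have hne : ∀ k : ℕ, z6 ^ k * 1 ≠ 0 := fun k => mul_ne_zero (pow_ne_zero _ z6_ne) one_ne_zero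
  have h3 : ∀ᶠ z : ℝ × (ℂ × ℝ) in 𝓝 (0, x), 0 < z.1 → z.2 ∈ K →
      ∃ k ∈ Finset.range 6, Ill K z.2 (-(z6 ^ k * 1), σ * z.1) := by
    apply fam_local B.conv B.hint σ (Finset.range 6) (fun k => z6 ^ k * 1)
      (fun k => {w : ℂ | √3 * |dt (I * (z6 ^ k * 1)) w| ≤ dt (z6 ^ k * 1) w})
      (fun k => isClosed_le (by fun_prop) (by fun_prop)) (cover6 1)
    · have h4 : ∀ᶠ y in 𝓝 x, y ≠ (0, zM) := isOpen_ne.mem_nhds hM
      have h5 : ∀ᶠ y in 𝓝 x, y ≠ (0, zm) := isOpen_ne.mem_nhds hm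
      filter_upwards [h4, h5] with y hyM hym hy k _ hk p s hn
      by_cases hy0 : y.1 = 0
      · by_cases hp : p = 0
        · rw [hp, zero_dt]
        · exfalso
          rcases B.end_of_zero hy (Or.inl hp) hn (by rw [hy0, dt_zero]) with h | h
          · exact hyM (Prod.ext hy0 h.1)
          · exact hym (Prod.ext hy0 h.1)
      · have h6 : 0 ≤ dt (z6 ^ k * 1) y.1 := le_trans (by positivity) hk
        refine dt_nonneg_of_sec hy0 (le_refl (1:ℝ)) ?_ h6 (quad y hy p s hn)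
        have h7 : √3 * |dt (I * (z6 ^ k * 1)) y.1| ≤ dt (z6 ^ k * 1) y.1 := hk
        have h8 := sqrt3_lb
        rw [one_mul]
        nlinarith [abs_nonneg (dt (I * (z6 ^ k * 1)) y.1)]
    · intro k _ hk p s hps hn hs
      have hpos := hfree x hx hM hm p s hps hn hs
      have hw : x.1 ≠ 0 := by
        intro h0; rw [h0, dt_zero] at hpos; exact lt_irrefl _ hpos
      have h8 := sqrt3_lb
      have h7 : √3 * |dt (I * (z6 ^ k * 1)) x.1| ≤ dt (z6 ^ k * 1) x.1 := hk
      have h9 : |dt (I * (z6 ^ k * 1)) x.1| ≤ dt (z6 ^ k * 1) x.1 := by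
        nlinarith [abs_nonneg (dt (I * (z6 ^ k * 1)) x.1)]
      have h10 := dt_pos_of_sec' hw (hne k) h9
      refine dt_pos_of_sec hw h9 (quad x hx p s hn) hpos ?_ (hne k)
      intro e1 _
      rw [e1] at h7
      nlinarith
  filter_upwards [h3] with z hz h0 h1
  obtain ⟨k, hk, hk2⟩ := hz h0 h1
  have hk6 : k < 6 := Finset.mem_range.mp hk
  refine ⟨k, Finset.mem_range.mpr (by omega), ?_⟩
  rw [if_pos hk6]
  exact hk2

end Pool.Agent.Illum.Rot
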