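import Pool.Agent.Illum.RotSix

set_option autoImplicit false
set_option linter.unusedSectionVars false
set_option linter.style.longLine false

/-!
# Bodies in `ℂ × ℝ` with a rotational symmetry of order `n ≥ 3`
-/

namespace Pool.Agent.Illum.Rot

open Set Filter Topology Complex

/-- the rotation by `2π/n` -/
noncomputable def zt (n : ℕ) : ℂ := ⟨Real.cos (2 * Real.pi / n), Real.sin (2 * Real.pi / n)⟩

lemma zt_eq (n : ℕ) : zt n = Complex.exp (2 * Real.pi * I / n) := by
  have : (2 * Real.pi * I / n : ℂ) = ((2 * Real.pi / n : ℝ) : ℂ) * I := by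
    push_cast; ring
  rw [this, Complex.exp_mul_I]
  apply Complex.ext
  · simp only [zt, add_re, mul_re, I_re, I_im, mul_zero, mul_one, ← ofReal_cos, ← ofReal_sin,
      ofReal_re, ofReal_im]
    ring
  · simp only [zt, add_im, mul_im, I_re, I_im, mul_zero, mul_one, ← ofReal_cos, ← ofReal_sin,
      ofReal_re, ofReal_im]
    ring

lemma zt_prim {n : ℕ} (hn : n ≠ 0) : IsPrimitiveRoot (zt n) n := by
  rw [zt_eq]; exact Complex.isPrimitiveRoot_exp n hn

lemma normSq_zt (n : ℕ) : normSq (zt n) = 1 := by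
  rw [normSq_apply]
  simp only [zt]
  have := Real.sin_sq_add_cos_sq (2 * Real.pi / n)
  nlinarith

structure Body (n : ℕ) (K : Set (ℂ × ℝ)) : Prop where
  conv : Convex ℝ K
  comp : IsCompact K
  int : (interior K).Nonempty
  inv : ∀ x ∈ K, ((zt n * x.1, x.2) : ℂ × ℝ) ∈ K

variable {n : ℕ} {K : Set (ℂ × ℝ)}

namespace Body

lemma pow_mem (h : Body n K) (k : ℕ) {x : ℂ × ℝ} (hx : x ∈ K) :
    ((zt n ^ k * x.1, x.2) : ℂ × ℝ) ∈ K := by
  induction k with
  | zero => simpa using hx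
  | succ k ih =>
    have := h.inv _ ih
    have e : zt n ^ (k + 1) * x.1 = zt n * (zt n ^ k * x.1) := by ring
    rw [e]
    exact this

lemma sum_pow {n : ℕ} (hn : 2 ≤ n) : ∑ k ∈ Finset.range n, zt n ^ k = 0 :=
  (zt_prim (by omega)).geom_sum_eq_zero (by omega)

lemma avg (h : Body n K) (hn : 2 ≤ n) {x : ℂ × ℝ} (hx : x ∈ K) : ((0 : ℂ), x.2) ∈ K := by
  have hnR : (0:ℝ) < n := by exact_mod_cast (by omega : 0 < n)
  have h1 := h.conv.sum_mem (t := Finset.range n) (w := fun _ => (1 / n : ℝ))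
    (z := fun k => ((zt n ^ k * x.1, x.2) : ℂ × ℝ)) (fun _ _ => by positivity)
    (by rw [Finset.sum_const, Finset.card_range, nsmul_eq_mul]; field_simp)
    (fun k _ => h.pow_mem k hx)
  have h2 : ∑ k ∈ Finset.range n, (1 / n : ℝ) • ((zt n ^ k * x.1, x.2) : ℂ × ℝ) =
      ((0 : ℂ), x.2) := by
    rw [← Finset.smul_sum]
    refine Prod.ext ?_ ?_
    · simp only [Prod.smul_fst, Prod.fst_sum]
      rw [← Finset.sum_mul, sum_pow hn, zero_mul, smul_zero]
    · simp only [Prod.smul_snd, Prod.snd_sum]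
      rw [Finset.sum_const, Finset.card_range, smul_eq_mul, nsmul_eq_mul]
      field_simp
  rwa [h2] at h1

/-- the rotation as a homeomorphism -/
lemma inv_interior (h : Body n K) (k : ℕ) {x : ℂ × ℝ} (hx : x ∈ interior K) :
    ((zt n ^ k * x.1, x.2) : ℂ × ℝ) ∈ interior K := by
  have hz : zt n ^ k ≠ 0 := by
    apply pow_ne_zero
    intro h0
    have := normSq_zt n
    rw [h0, map_zero] at this
    exact zero_ne_one this
  -- the preimage of `K` under the inverse rotation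
  have hcont : Continuous (fun y : ℂ × ℝ => (((zt n ^ k)⁻¹ * y.1, y.2) : ℂ × ℝ)) := by fun_prop
  have hopen : IsOpen ((fun y : ℂ × ℝ => (((zt n ^ k)⁻¹ * y.1, y.2) : ℂ × ℝ)) ⁻¹' interior K) :=
    isOpen_interior.preimage hcont
  refine interior_maximal (s := K) ?_ hopen ?_
  · intro y hy
    have h1 := h.pow_mem k (interior_subset hy)
    simp only at h1
    rwa [mul_inv_cancel_left₀ hz] at h1
  · simp only [mem_preimage]
    rwa [inv_mul_cancel_left₀ hz]

lemma avg_interior (h : Body n K) (hn : 2 ≤ n) {x : ℂ × ℝ} (hx : x ∈ interior K) :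
    ((0 : ℂ), x.2) ∈ interior K := by
  have hnR : (0:ℝ) < n := by exact_mod_cast (by omega : 0 < n)
  have h1 := h.conv.interior.sum_mem (t := Finset.range n) (w := fun _ => (1 / n : ℝ))
    (z := fun k => ((zt n ^ k * x.1, x.2) : ℂ × ℝ)) (fun _ _ => by positivity)
    (by rw [Finset.sum_const, Finset.card_range, nsmul_eq_mul]; field_simp)
    (fun k _ => h.inv_interior k hx)
  have h2 : ∑ k ∈ Finset.range n, (1 / n : ℝ) • ((zt n ^ k * x.1, x.2) : ℂ × ℝ) =
      ((0 : ℂ), x.2) := by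
    rw [← Finset.smul_sum]
    refine Prod.ext ?_ ?_
    · simp only [Prod.smul_fst, Prod.fst_sum]
      rw [← Finset.sum_mul, sum_pow hn, zero_mul, smul_zero]
    · simp only [Prod.smul_snd, Prod.snd_sum]
      rw [Finset.sum_const, Finset.card_range, smul_eq_mul, nsmul_eq_mul]
      field_simp
  rwa [h2] at h1

lemma nrm_rot (h : Body n K) {x : ℂ × ℝ} {p : ℂ} {s : ℝ} (hx : x ∈ K) (hn : Nrm K x p s)
    (k : ℕ) : dt p (zt n ^ k * x.1) ≤ dt p x.1 := by
  have := hn _ (h.pow_mem k hx)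
  simp only at this
  linarith

lemma sum_dt {n : ℕ} (hn : 2 ≤ n) (p w : ℂ) :
    ∑ k ∈ Finset.range n, dt p (zt n ^ k * w) = 0 := by
  have h1 : ∑ k ∈ Finset.range n, dt p (zt n ^ k * w) =
      dt p ((∑ k ∈ Finset.range n, zt n ^ k) * w) := by
    rw [Finset.sum_mul]
    simp only [dt, re_sum, im_sum, Finset.mul_sum, Finset.sum_add_distrib]
  rw [h1, sum_pow hn, zero_mul, dt_zero]

/-- rotation bodies are balanced -/
lemma bal (h : Body n K) (hn : 2 ≤ n) : ∃ zm zM c0 : ℝ, Bal K zm zM c0 := by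
  obtain ⟨o, ho⟩ := h.int
  have hne : K.Nonempty := ⟨o, interior_subset ho⟩
  obtain ⟨xM, hxM, hM⟩ := h.comp.exists_isMaxOn hne (continuous_snd.continuousOn)
  obtain ⟨xm, hxm, hm⟩ := h.comp.exists_isMinOn hne (continuous_snd.continuousOn)
  refine ⟨xm.2, xM.2, o.2, h.conv, h.comp, h.avg_interior hn ho, h.avg hn hxm, h.avg hn hxM,
    fun x hx => ⟨hm hx, hM hx⟩, ?_⟩
  intro x hx p s hps
  have h1 : ∑ k ∈ Finset.range n, dt p (zt n ^ k * x.1) ≤ ∑ k ∈ Finset.range n, dt p x.1 :=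
    Finset.sum_le_sum (fun k _ => h.nrm_rot hx hps k)
  rw [sum_dt hn, Finset.sum_const, Finset.card_range, nsmul_eq_mul] at h1
  have hnR : (0:ℝ) < n := by exact_mod_cast (by omega : 0 < n)
  exact nonneg_of_mul_nonneg_right h1 hnR

/-- the two neighbouring rotations -/
lemma nrm_two (h : Body n K) (hn : 2 ≤ n) {x : ℂ × ℝ} {p : ℂ} {s : ℝ} (hx : x ∈ K)
    (hps : Nrm K x p s) :
    |dt p (I * x.1)| * Real.sin (2 * Real.pi / n) ≤
      dt p x.1 * (1 - Real.cos (2 * Real.pi / n)) := by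
  have h1 := h.nrm_rot hx hps 1
  have h2 := h.nrm_rot hx hps (n - 1)
  have e : zt n ^ (n - 1) = ⟨Real.cos (2 * Real.pi / n), -Real.sin (2 * Real.pi / n)⟩ := by
    have h3 : zt n * zt n ^ (n - 1) = 1 := by
      rw [← pow_succ', Nat.sub_add_cancel (by omega)]
      exact (zt_prim (by omega)).pow_eq_one
    have h4 : zt n * ⟨Real.cos (2 * Real.pi / n), -Real.sin (2 * Real.pi / n)⟩ = 1 := by
      have := Real.sin_sq_add_cos_sq (2 * Real.pi / n)
      apply Complex.ext
      · simp only [zt, mul_re, one_re]; nlinarith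
      · simp only [zt, mul_im, one_im]; ring
    have h5 : zt n ≠ 0 := (zt_prim (by omega)).ne_zero (by omega)
    exact mul_left_cancel₀ h5 (h3.trans h4.symm)
  rw [pow_one, dt_mul] at h1
  rw [e, dt_mul] at h2
  simp only [zt] at h1 h2
  rcases abs_cases (dt p (I * x.1)) with ⟨h6, _⟩ | ⟨h6, _⟩ <;> rw [h6] <;> nlinarith

end Body

end Pool.Agent.Illum.Rot
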