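import Pool.Agent.Illum.RotConf
import Pool.Agent.Illum.RotFin4

set_option autoImplicit false
set_option linter.unusedSectionVars false
set_option linter.style.longLine false

/-!
# Rotational symmetry of order three, and of any order at least three
-/

namespace Pool.Agent.Illum.Rot

open Set Filter Topology Complex

variable {K : Set (ℂ × ℝ)} {zm zM c0 : ℝ}

lemma Nrm.rot (hb : Body 3 K) {x : ℂ × ℝ} {p : ℂ} {s : ℝ} (h0 : Nrm K x p s) (j : ℕ) :
    Nrm K (zt 3 ^ j * x.1, x.2) (zt 3 ^ j * p) s := by
  have hn : normSq (zt 3 ^ j) = 1 := by rw [map_pow, normSq_zt, one_pow]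
  intro y hy
  simp only
  rw [dt_rot _ _ _ hn]
  have h1 := h0 _ (hb.pow_mem (2 * j) hy)
  simp only at h1
  have e : y.1 = zt 3 ^ j * (zt 3 ^ (2 * j) * y.1) := by
    rw [← mul_assoc, ← pow_add]
    have : j + 2 * j = 3 * j := by ring
    rw [this, pow_mul, zt3_cube, one_pow, one_mul]
  have e2 : dt (zt 3 ^ j * p) y.1 = dt p (zt 3 ^ (2 * j) * y.1) := by
    conv_lhs => rw [e]
    rw [dt_rot _ _ _ hn]
  rw [e2]
  exact h1

lemma Sil.rot (hb : Body 3 K) {x : ℂ × ℝ} (h : Sil K x) (j : ℕ) :
    Sil K (zt 3 ^ j * x.1, x.2) := by
  obtain ⟨g, hg0, hg⟩ := h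
  have hn : normSq (zt 3 ^ j) = 1 := by rw [map_pow, normSq_zt, one_pow]
  have hz : zt 3 ^ j ≠ 0 := by
    intro h; rw [h, map_zero] at hn; exact zero_ne_one hn
  exact ⟨zt 3 ^ j * g, mul_ne_zero hz hg0, hg.rot hb j⟩

lemma Sil.unit {x : ℂ × ℝ} (h : Sil K x) : ∃ g ∈ Metric.sphere (0:ℂ) 1, Nrm K x g 0 := by
  obtain ⟨g, hg0, hg⟩ := h
  have h0 : 0 < ‖g‖ := norm_pos_iff.mpr hg0
  refine ⟨‖g‖⁻¹ • g, ?_, ?_⟩
  · rw [mem_sphere_zero_iff_norm, norm_smul, norm_inv, norm_norm, inv_mul_cancel₀ h0.ne']
  · intro y hy
    have := mul_le_mul_of_nonneg_left (hg y hy) (inv_pos.mpr h0).le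
    simp only [smul_dt, zero_mul, add_zero] at this ⊢
    exact this

lemma end_max (hcomp : IsCompact K) {h : ℝ} (hex : ∃ x ∈ K, x.2 = h ∧ Sil K x) :
    ∃ y, (y, h) ∈ K ∧ Sil K (y, h) ∧ ∀ x ∈ K, x.2 = h → Sil K x → normSq x.1 ≤ normSq y := by
  set A : Set ((ℂ × ℝ) × ℂ) := (K ×ˢ Metric.sphere (0:ℂ) 1) ∩
    {q | q.1.2 = h ∧ Nrm K q.1 q.2 0} with hA
  have hAc : IsCompact A := by
    apply (hcomp.prod (isCompact_sphere (0:ℂ) 1)).inter_right
    have c1 : IsClosed {q : (ℂ × ℝ) × ℂ | q.1.2 = h} := isClosed_eq (by fun_prop) (by fun_prop)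
    have c2 : IsClosed {q : (ℂ × ℝ) × ℂ | Nrm K q.1 q.2 0} :=
      (isClosed_nrm K).preimage (f := fun q : (ℂ × ℝ) × ℂ => (q.1, (q.2, (0:ℝ)))) (by fun_prop)
    exact c1.inter c2
  have hAn : A.Nonempty := by
    obtain ⟨x, hx, hxh, hs⟩ := hex
    obtain ⟨g, hg, hn⟩ := hs.unit
    exact ⟨(x, g), ⟨hx, hg⟩, hxh, hn⟩
  have hc : Continuous (fun q : (ℂ × ℝ) × ℂ => normSq q.1.1) :=
    continuous_normSq.comp (continuous_fst.comp continuous_fst)
  obtain ⟨q, ⟨⟨hqK, hqS⟩, hqh, hqn⟩, hmax⟩ := hAc.exists_isMaxOn hAn hc.continuousOn
  have hg0 : q.2 ≠ 0 := by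
    intro h0
    rw [h0, mem_sphere_zero_iff_norm, norm_zero] at hqS
    exact zero_ne_one hqS
  have e : q.1 = (q.1.1, h) := Prod.ext rfl hqh
  refine ⟨q.1.1, ?_, ?_, ?_⟩
  · rw [← e]; exact hqK
  · rw [← e]; exact ⟨q.2, hg0, hqn⟩
  · intro x hx hxh hs
    obtain ⟨g, hg, hn⟩ := hs.unit
    exact hmax (show ((x, g) : (ℂ × ℝ) × ℂ) ∈ A from ⟨⟨hx, hg⟩, hxh, hn⟩)

/-- the bisector inequality -/
lemma bisector {X Y N : ℝ} (hN : 0 < N) (h : X ^ 2 + Y ^ 2 = N ^ 2) (hlt : |Y| < √3 * X) :
    √3 * |Y| < N + X := by
  have h3 := sqrt3_pos
  have h33 := sqrt3_sq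
  have hX : 0 < X := by
    by_contra hcon
    have := mul_nonpos_of_nonneg_of_nonpos h3.le (not_lt.mp hcon)
    linarith [abs_nonneg Y]
  rcases le_or_gt (√3 * |Y|) X with h1 | h1
  · linarith
  · have hY : 0 < |Y| := by
      by_contra hcon
      have : |Y| = 0 := le_antisymm (not_lt.mp hcon) (abs_nonneg _)
      rw [this, mul_zero] at h1
      linarith
    have h2 : (√3 * |Y| - X) ^ 2 < N ^ 2 := by
      rw [← h, ← sq_abs Y]
      have h4 : |Y| * |Y| < |Y| * (√3 * X) := mul_lt_mul_of_pos_left hlt hY
      nlinarith
    have h5 := abs_lt_of_sq_lt_sq h2 hN.le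
    have := le_abs_self (√3 * |Y| - X)
    linarith

/-- **Rotational symmetry of order three.** -/
theorem cover_order_three (hb : Body 3 K) :
    ∃ T : Finset (ℂ × ℝ), T.card ≤ 8 ∧ K ⊆ ⋃ t ∈ T, (fun x => t + x) '' interior K := by
  obtain ⟨zm, zM, c0, B⟩ := hb.bal (by norm_num)
  have h3 := sqrt3_pos
  have h33 := sqrt3_sq
  by_cases hNT : NoTri K
  · by_cases hT : ∃ x ∈ K, x.2 = zM ∧ Sil K x
    · obtain ⟨a, haK, haS, hamax⟩ := end_max B.comp hT
      have ha0 : a ≠ 0 := sil_ne_zero B haK haS
      by_cases hB : ∃ x ∈ K, x.2 = zm ∧ Sil K x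
      · obtain ⟨b', hbK, hbS, hbmax⟩ := end_max B.comp hB
        have hb0 : b' ≠ 0 := sil_ne_zero B hbK hbS
        obtain ⟨k, _, hk⟩ := exists_max_dir (by norm_num : 0 < 3) zt3_cube (z6 ^ 5 * b') a
        set b := zt 3 ^ k * (z6 ^ 5 * b') with hbdef
        have hzk : zt 3 ^ k ≠ 0 := by
          apply pow_ne_zero
          intro h0
          have := zt3_cube
          rw [h0] at this
          norm_num at this
        have hbne : b ≠ 0 := mul_ne_zero hzk (mul_ne_zero (pow_ne_zero _ z6_ne) hb0)
        have hz6b : z6 * b = zt 3 ^ k * b' := by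
          rw [hbdef]
          have := z6_six
          linear_combination (zt 3 ^ k * b') * this
        have hyK : (z6 * b, zm) ∈ K := by
          rw [hz6b]; exact hb.pow_mem k hbK
        have hyS : Sil K (z6 * b, zm) := by
          rw [hz6b]; exact hbS.rot hb k
        have hynorm : normSq (z6 * b) = normSq b' := by
          rw [hz6b, map_mul, map_pow, normSq_zt, one_pow, one_mul]
        -- angle at most sixty degrees
        set X := dt b a with hX
        set Y := dt (I * b) a with hY
        have hXY : |Y| ≤ √3 * X := by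
          have h1 := hk (k + 1)
          have h2 := hk (k + 2)
          have e1 : zt 3 ^ (k + 1) * (z6 ^ 5 * b') = zt 3 * b := by rw [hbdef]; ring
          have e2 : zt 3 ^ (k + 2) * (z6 ^ 5 * b') = zt 3 ^ 2 * b := by rw [hbdef]; ring
          rw [e1, zt3_eq, dt_mul_left] at h1
          rw [e2, zt3_pow_two, dt_mul_left] at h2
          simp only at h1 h2
          have h1' : -1 / 2 * X + √3 / 2 * Y ≤ X := h1
          have h2' : -1 / 2 * X + -(√3 / 2) * Y ≤ X := h2
          rcases abs_cases Y with ⟨h6, _⟩ | ⟨h6, _⟩ <;> rw [h6] <;> nlinarith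
        have hXYN : X ^ 2 + Y ^ 2 = (‖a‖ * ‖b‖) ^ 2 := by
          have := dt_sq a b
          have e1 : dt a b = X := by rw [hX]; simp only [dt]; ring
          have e2 : dt a (I * b) = Y := by rw [hY]; simp only [dt]; ring
          rw [e1, e2] at this
          rw [this, normSq_eq_norm_sq, normSq_eq_norm_sq]; ring
        have hNpos : 0 < ‖a‖ * ‖b‖ := mul_pos (norm_pos_iff.mpr ha0) (norm_pos_iff.mpr hbne)
        rcases hXY.lt_or_eq with hlt | heq
        · -- the bisector
          have hbis := bisector hNpos hXYN hlt
          have hna := norm_pos_iff.mpr ha0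
          have hnb := norm_pos_iff.mpr hbne
          set r := (‖b‖ : ℂ) * a + (‖a‖ : ℂ) * b with hr
          have dta : dt r a = ‖a‖ * (‖a‖ * ‖b‖ + X) := by
            have e : dt r a = ‖b‖ * dt a a + ‖a‖ * dt b a := by
              rw [hr]
              simp only [dt, add_re, add_im, mul_re, mul_im, ofReal_re, ofReal_im]; ring
            rw [e, dt_self, normSq_eq_norm_sq, ← hX]; ring
          have dtIa : dt (I * r) a = ‖a‖ * Y := by
            rw [hr, hY]
            simp only [dt, add_re, add_im, mul_re, mul_im, ofReal_re, ofReal_im, I_re, I_im]; ring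
          have dtb : dt r b = ‖b‖ * (‖a‖ * ‖b‖ + X) := by
            have e : dt r b = ‖b‖ * dt b a + ‖a‖ * dt b b := by
              rw [hr]
              simp only [dt, add_re, add_im, mul_re, mul_im, ofReal_re, ofReal_im]; ring
            rw [e, dt_self, normSq_eq_norm_sq, ← hX]; ring
          have dtIb : dt (I * r) b = ‖b‖ * (-Y) := by
            rw [hr, hY]
            simp only [dt, add_re, add_im, mul_re, mul_im, ofReal_re, ofReal_im, I_re, I_im]; ring
          have hr0 : r ≠ 0 := by
            intro h0
            rw [h0, zero_dt] at dta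
            have : 0 < ‖a‖ * (‖a‖ * ‖b‖ + X) := mul_pos hna (by
              have := abs_nonneg Y
              have := mul_nonneg h3.le this
              linarith)
            linarith
          apply cover_of_adm hb B hNT (yT := a) (yB := z6 * b) (r := r) hr0
          · refine Or.inr ⟨haK, hamax, ?_⟩
            rw [one_mul, dta, dtIa, abs_mul, abs_of_pos hna]
            have := mul_lt_mul_of_pos_left hbis hna
            linarith
          · refine Or.inr ⟨hyK, ?_, ?_⟩
            · rw [hynorm]; exact hbmax
            · have e : I * (z6 * r) = z6 * (I * r) := by ring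
              rw [e, dt_rot _ _ _ normSq_z6, dt_rot _ _ _ normSq_z6, dtb, dtIb, abs_mul,
                abs_of_pos hnb, abs_neg]
              have := mul_lt_mul_of_pos_left hbis hnb
              linarith
        · -- the conflict
          have hXpos : 0 < X := by
            by_contra hcon
            have h1 := mul_nonpos_of_nonneg_of_nonpos h3.le (not_lt.mp hcon)
            have h2 : |Y| = 0 := le_antisymm (by linarith) (abs_nonneg _)
            have h4 : X = 0 := by
              rw [h2] at heq
              exact ((mul_eq_zero.mp heq.symm).resolve_left h3.ne')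
            have h5 : Y = 0 := abs_eq_zero.mp h2
            rw [h4, h5] at hXYN
            have : 0 < (‖a‖ * ‖b‖) ^ 2 := by positivity
            nlinarith
          have hNa := normSq_pos.mpr ha0
          set μ := 2 * X / normSq a with hμ
          have hμ0 : 0 < μ := by positivity
          have dab : dt a b = X := by rw [hX]; simp only [dt]; ring
          have dIab : dt (I * a) b = -Y := by
            rw [hY]; simp only [dt, mul_re, mul_im, I_re, I_im]; ring
          have hIaa : dt (I * a) a = 0 := by simp only [dt, mul_re, mul_im, I_re, I_im]; ring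
          have hIaIa : dt (I * a) (I * a) = normSq a := by
            simp only [dt, mul_re, mul_im, I_re, I_im, normSq_apply]; ring
          have haIa : dt a (I * a) = 0 := by simp only [dt, mul_re, mul_im, I_re, I_im]; ring
          -- `μ a` lies at the bottom, on the silhouette
          have hμa : ((μ : ℂ) * a, zm) ∈ K ∧ Sil K ((μ : ℂ) * a, zm) ∧
              normSq ((μ : ℂ) * a) = normSq b' := by
            rcases abs_cases Y with ⟨h6, _⟩ | ⟨h6, _⟩
            · -- Y = √3 X : b = μ z6^5 a
              rw [h6] at heq
              have hbe : b = (μ : ℂ) * (z6 ^ 5 * a) := by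
                apply eq_of_coord ha0
                · rw [dab, dt_rmul, z6_five, dt_mul, haIa, dt_self, hμ]
                  field_simp
                  simp
                · rw [dIab, dt_rmul, z6_five, dt_mul, hIaa, hIaIa, hμ, heq]
                  field_simp
                  simp
              have hz : z6 * b = (μ : ℂ) * a := by
                rw [hbe]
                have := z6_six
                linear_combination ((μ : ℂ) * a) * this
              rw [← hz]
              exact ⟨hyK, hyS, hynorm⟩
            · rw [h6] at heq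
              have hbe : b = (μ : ℂ) * (z6 * a) := by
                apply eq_of_coord ha0
                · rw [dab, dt_rmul]
                  have : dt a (z6 * a) = normSq a / 2 := by
                    have e : dt a (z6 * a) = dt (z6 * a) a := by simp only [dt]; ring
                    rw [e, dt_z6_mul, hIaa, dt_self]; ring
                  rw [this, hμ]
                  field_simp
                · rw [dIab, dt_rmul]
                  have : dt (I * a) (z6 * a) = √3 / 2 * normSq a := by
                    have e : dt (I * a) (z6 * a) = dt (z6 * a) (I * a) := by simp only [dt]; ring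
                    rw [e, dt_z6_mul, haIa, hIaIa]; ring
                  rw [this, hμ]
                  field_simp
                  linarith
              have hz : z6 * b = zt 3 * ((μ : ℂ) * a) := by
                rw [hbe, ← z6_sq_eq]; ring
              rw [hz] at hyK hyS hynorm
              have hrot : zt 3 ^ 2 * (zt 3 * ((μ : ℂ) * a)) = (μ : ℂ) * a := by
                have := zt3_cube
                linear_combination ((μ : ℂ) * a) * this
              refine ⟨?_, ?_, ?_⟩
              · have := hb.pow_mem 2 hyK
                simp only [hrot] at this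
                exact this
              · have := hyS.rot hb 2
                simp only [hrot] at this
                exact this
              · rw [← hynorm, map_mul (normSq) (zt 3), normSq_zt, one_mul]
          obtain ⟨m1, m2, m3⟩ := hμa
          have hμ1 : μ = 1 := by
            obtain ⟨g, hg0, hg⟩ := haS
            obtain ⟨g', hg0', hg'⟩ := m2
            have p1 : 0 < dt g a := by
              rcases (B.nonneg _ haK g 0 hg).lt_or_eq with h | h
              · exact h
              · exfalso
                rcases B.end_of_zero haK (Or.inl hg0) hg h.symm with h5 | h5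
                · exact lt_irrefl _ h5.2
                · exact lt_irrefl _ h5.2
            have p2 : 0 < dt g' ((μ : ℂ) * a) := by
              rcases (B.nonneg _ m1 g' 0 hg').lt_or_eq with h | h
              · exact h
              · exfalso
                rcases B.end_of_zero m1 (Or.inl hg0') hg' h.symm with h5 | h5
                · exact lt_irrefl _ h5.2
                · exact lt_irrefl _ h5.2
            have q1 := hg _ m1
            have q2 := hg' _ haK
            simp only [zero_mul, add_zero, dt_rmul] at q1 q2 p2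
            have p3 : 0 < dt g' a := (mul_pos_iff_of_pos_left hμ0).mp p2
            have r1 : μ ≤ 1 := by
              by_contra hcon
              have := mul_lt_mul_of_pos_right (not_le.mp hcon) p1
              linarith
            have r2 : 1 ≤ μ := by
              by_contra hcon
              have := mul_lt_mul_of_pos_right (not_le.mp hcon) p3
              linarith
            linarith
          rw [hμ1, ofReal_one, one_mul] at m1 m3
          exact cover_conf hb B hNT ha0 haK m1 haS hamax (by rw [m3]; exact hbmax)
      · push Not at hB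
        apply cover_of_adm hb B hNT (yT := a) (yB := 0) (r := a) ha0
        · refine Or.inr ⟨haK, hamax, ?_⟩
          have e1 : dt (I * (1 * a)) a = 0 := by
            simp only [dt, mul_re, mul_im, I_re, I_im, one_re, one_im]; ring
          rw [e1, abs_zero, mul_zero, one_mul, dt_self]
          exact normSq_pos.mpr ha0
        · exact Or.inl hB
    · push Not at hT
      by_cases hB : ∃ x ∈ K, x.2 = zm ∧ Sil K x
      · obtain ⟨b', hbK, hbS, hbmax⟩ := end_max B.comp hB
        have hb0 : b' ≠ 0 := sil_ne_zero B hbK hbS
        have hr0 : z6 ^ 5 * b' ≠ 0 := mul_ne_zero (pow_ne_zero _ z6_ne) hb0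
        apply cover_of_adm hb B hNT (yT := 0) (yB := b') (r := z6 ^ 5 * b') hr0
        · exact Or.inl hT
        · refine Or.inr ⟨hbK, hbmax, ?_⟩
          have e0 : z6 * (z6 ^ 5 * b') = b' := by
            have := z6_six
            linear_combination b' * this
          have e1 : dt (I * b') b' = 0 := by
            simp only [dt, mul_re, mul_im, I_re, I_im]; ring
          rw [e0, e1, abs_zero, mul_zero, dt_self]
          exact normSq_pos.mpr hb0
      · push Not at hB
        exact cover_of_adm hb B hNT (yT := 0) (yB := 0) (r := 1) one_ne_zero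
          (Or.inl hT) (Or.inl hB)
  · unfold NoTri at hNT
    push Not at hNT
    obtain ⟨V, hV, cs, hVK, hl⟩ := hNT
    exact cover_tri B hb.inv hV (fun j => hb.pow_mem j hVK) hl

/-- **Rotational symmetry of order at least three.** -/
theorem cover_rot {n : ℕ} (hn : 3 ≤ n) (hb : Body n K) :
    ∃ T : Finset (ℂ × ℝ), T.card ≤ 8 ∧ K ⊆ ⋃ t ∈ T, (fun x => t + x) '' interior K := by
  rcases hn.lt_or_eq with h | h
  · exact cover_order_four hb h
  · subst h
    exact cover_order_three hb

end Pool.Agent.Illum.Rot
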