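import Pool.Agent.Illum.RotTri2

set_option autoImplicit false
set_option linter.unusedSectionVars false
set_option linter.style.longLine false

/-!
# Order three: planar lemmas for the end faces
-/

namespace Pool.Agent.Illum.Rot

open Set Filter Topology Complex

variable {K : Set (ℂ × ℝ)} {zm zM c0 : ℝ}

lemma sqrt3_pos : 0 < √3 := by positivity

lemma sqrt3_sq : √3 * √3 = 3 := Real.mul_self_sqrt (by norm_num)

/-- real core of the planar lemma -/
lemma cone_core {w1 w2 a0 b0 a1 b1 : ℝ} (hw1 : 0 ≤ w1) (hw2 : w1 ≤ √3 * w2)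
    (ha0 : a0 ≤ 0) (hb1 : √3 * b1 ≤ a1) (hp0 : 0 < a0 * w1 + b0 * w2)
    (hp1 : 0 < a1 * w1 + b1 * w2)
    (hq0 : |-(a0 * w2) + b0 * w1| ≤ √3 * (a0 * w1 + b0 * w2))
    (hq1 : |-(a1 * w2) + b1 * w1| ≤ √3 * (a1 * w1 + b1 * w2)) :
    0 < a1 * b0 - b1 * a0 ∧ 0 < a1 ∧ 0 < b0 := by
  have h3 := sqrt3_pos
  have h33 := sqrt3_sq
  have hw2' : 0 ≤ w2 := by
    by_contra hcon
    have := mul_neg_of_pos_of_neg h3 (not_le.mp hcon)
    linarith
  have hb0w : 0 < b0 * w2 := by nlinarith [mul_nonneg (neg_nonneg.mpr ha0) hw1]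
  have hw2p : 0 < w2 := by
    rcases hw2'.lt_or_eq with h | h
    · exact h
    · rw [← h, mul_zero] at hb0w; exact absurd hb0w (lt_irrefl _)
  have hb0 : 0 < b0 := (mul_pos_iff_of_pos_right hw2p).mp hb0w
  have ha1 : 0 < a1 := by
    by_contra hcon
    have h1 := not_lt.mp hcon
    have h2 : b1 ≤ 0 := by
      by_contra h
      have := mul_pos h3 (not_le.mp h)
      linarith
    have h4 : a1 * w1 ≤ 0 := mul_nonpos_of_nonpos_of_nonneg h1 hw1
    have h5 : b1 * w2 ≤ 0 := mul_nonpos_of_nonpos_of_nonneg h2 hw2'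
    linarith
  refine ⟨?_, ha1, hb0⟩
  by_cases hb : 0 ≤ b1
  · have h1 : 0 ≤ b1 * (-a0) := mul_nonneg hb (neg_nonneg.mpr ha0)
    have h2 : 0 < a1 * b0 := mul_pos ha1 hb0
    linarith
  · have hb' := not_le.mp hb
    set P := w1 + √3 * w2 with hP
    set Q := w2 + √3 * w1 with hQ
    have hPp : 0 < P := by have := mul_pos h3 hw2p; linarith
    have hQp : 0 < Q := by have := mul_nonneg h3.le hw1; linarith
    have e1 : (-b1) * P ≤ a1 * (√3 * w1 - w2) := by
      have := neg_le_of_abs_le hq1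
      rw [hP]; linarith
    have e2 : (-a0) * Q ≤ b0 * (√3 * w2 - w1) := by
      have := le_of_abs_le hq0
      rw [hQ]; linarith
    have f1 : 0 ≤ (-b1) * P := mul_nonneg (by linarith) hPp.le
    have f2 : 0 ≤ (-a0) * Q := mul_nonneg (by linarith) hQp.le
    have e3 : ((-b1) * P) * ((-a0) * Q) ≤ (a1 * (√3 * w1 - w2)) * (b0 * (√3 * w2 - w1)) :=
      mul_le_mul e1 e2 f2 (f1.trans e1)
    have e4 : (√3 * w1 - w2) * (√3 * w2 - w1) < P * Q := by
      have : P * Q - (√3 * w1 - w2) * (√3 * w2 - w1) =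
          2 * √3 * (w1 ^ 2 + w2 ^ 2) := by
        rw [hP, hQ]
        linear_combination (0 : ℝ) * h33
      have h5 : 0 < 2 * √3 * (w1 ^ 2 + w2 ^ 2) := by positivity
      linarith
    have e5 : (a1 * b0) * ((√3 * w1 - w2) * (√3 * w2 - w1)) < (a1 * b0) * (P * Q) :=
      mul_lt_mul_of_pos_left e4 (mul_pos ha1 hb0)
    have e6 : 0 < (a1 * b0 - b1 * a0) * (P * Q) := by
      have : (a1 * b0 - b1 * a0) * (P * Q) = (a1 * b0) * (P * Q) - ((-b1) * P) * ((-a0) * Q) := by
        ring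
      rw [this]; linarith
    exact (mul_pos_iff_of_pos_right (mul_pos hPp hQp)).mp e6

lemma dt_coord (r p q : ℂ) :
    normSq r * dt p q = dt r p * dt r q + dt (I * r) p * dt (I * r) q := by
  simp only [dt, mul_re, mul_im, I_re, I_im, normSq_apply]; ring

lemma FN.comb {h : ℝ} {w p0 p1 m : ℂ} (h0 : FN K h w p0) (h1 : FN K h w p1) {c a b : ℝ}
    (hc : 0 < c) (ha : 0 ≤ a) (hb : 0 ≤ b) (hm : m ≠ 0)
    (e : ∀ u, c * dt m u = a * dt p1 u + b * dt p0 u) : FN K h w m := by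
  refine ⟨hm, fun y hy hyh => ?_⟩
  have h2 := mul_le_mul_of_nonneg_left (h0.2 y hy hyh) hb
  have h3 := mul_le_mul_of_nonneg_left (h1.2 y hy hyh) ha
  have h4 : c * dt m y.1 ≤ c * dt m w := by rw [e, e]; linarith
  exact le_of_mul_le_mul_left h4 hc

lemma zt3_pow_two : zt 3 ^ 2 = ⟨-1 / 2, -(√3 / 2)⟩ := by
  have h : zt 3 ^ 2 = -1 - zt 3 := by have := zt3_sum; linear_combination this
  rw [h, zt3_eq]
  apply Complex.ext
  · simp only [sub_re, neg_re, one_re]; norm_num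
  · simp only [sub_im, neg_im, one_im]; ring

lemma FN.quad (hb : Body 3 K) {h : ℝ} {w p : ℂ} (hw : (w, h) ∈ K) (h0 : FN K h w p) :
    |dt p (I * w)| ≤ √3 * dt p w := by
  have h1 := h0.2 _ (hb.pow_mem 1 hw) rfl
  have h2 := h0.2 _ (hb.pow_mem 2 hw) rfl
  simp only [pow_one] at h1 h2
  rw [zt3_eq, dt_mul] at h1
  rw [zt3_pow_two, dt_mul] at h2
  simp only at h1 h2
  have h3 := sqrt3_pos
  have h33 := sqrt3_sq
  rcases abs_cases (dt p (I * w)) with ⟨h6, _⟩ | ⟨h6, _⟩ <;> rw [h6] <;> nlinarith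

lemma FN.pos (hb : Body 3 K) {h : ℝ} {w p : ℂ} (hw : (w, h) ∈ K) (hw0 : w ≠ 0)
    (h0 : FN K h w p) : 0 < dt p w := by
  have h1 := h0.quad hb hw
  have h2 : 0 ≤ dt p w := by
    have := (abs_nonneg _).trans h1
    exact nonneg_of_mul_nonneg_right this sqrt3_pos
  rcases h2.lt_or_eq with h | h
  · exact h
  · exfalso
    rw [← h, mul_zero] at h1
    have h3 : dt p (I * w) = 0 := abs_eq_zero.mp (le_antisymm h1 (abs_nonneg _))
    have h4 := dt_sq p w
    rw [← h, h3] at h4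
    have := mul_pos (normSq_pos.mpr h0.1) (normSq_pos.mpr hw0)
    nlinarith

lemma Body.quad3 (hb : Body 3 K) : ∀ x ∈ K, ∀ p s, Nrm K x p s →
    |dt p (I * x.1)| ≤ √3 * dt p x.1 := by
  intro x hx p s hn
  have h1 := hb.nrm_rot hx hn 1
  have h2 := hb.nrm_rot hx hn 2
  rw [pow_one, zt3_eq, dt_mul] at h1
  rw [zt3_pow_two, dt_mul] at h2
  simp only at h1 h2
  have h3 := sqrt3_pos
  have h33 := sqrt3_sq
  rcases abs_cases (dt p (I * x.1)) with ⟨h6, _⟩ | ⟨h6, _⟩ <;> rw [h6] <;> nlinarith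

lemma FN.rot (hb : Body 3 K) {h : ℝ} {w p : ℂ} (h0 : FN K h w p) (j : ℕ) :
    FN K h (zt 3 ^ j * w) (zt 3 ^ j * p) := by
  have hn : normSq (zt 3 ^ j) = 1 := by rw [map_pow, normSq_zt, one_pow]
  have hz : zt 3 ^ j ≠ 0 := by
    intro h; rw [h, map_zero] at hn; exact zero_ne_one hn
  refine ⟨mul_ne_zero hz h0.1, fun y hy hyh => ?_⟩
  rw [dt_rot _ _ _ hn]
  -- write y as a rotation of an earlier point
  have h1 := h0.2 _ (hb.pow_mem (2 * j) hy) hyh
  simp only at h1
  have e : y.1 = zt 3 ^ j * (zt 3 ^ (2 * j) * y.1) := by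
    rw [← mul_assoc, ← pow_add]
    have : j + 2 * j = 3 * j := by ring
    rw [this, pow_mul, zt3_cube, one_pow, one_mul]
  rw [e, dt_rot _ _ _ hn]
  exact h1

lemma eq_of_coord {r w w' : ℂ} (hr : r ≠ 0) (h1 : dt r w = dt r w')
    (h2 : dt (I * r) w = dt (I * r) w') : w = w' := by
  have h3 := dt_coord r (w - w') (w - w')
  have e1 : dt r (w - w') = 0 := by rw [dt_sub, h1, sub_self]
  have e2 : dt (I * r) (w - w') = 0 := by rw [dt_sub, h2, sub_self]
  rw [e1, e2] at h3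
  by_contra hne
  have := mul_pos (normSq_pos.mpr hr) (dt_self_pos (sub_ne_zero.mpr hne))
  linarith

/-- the reflected point -/
noncomputable def Wp (r y : ℂ) : ℂ := z6 * r ^ 2 * (starRingEnd ℂ) y / (normSq r : ℂ)

lemma Wp_coord {r : ℂ} (hr : r ≠ 0) (y : ℂ) :
    dt r (Wp r y) = dt r y / 2 + √3 / 2 * dt (I * r) y ∧
      dt (I * r) (Wp r y) = √3 / 2 * dt r y - dt (I * r) y / 2 := by
  have hn : normSq r ≠ 0 := (normSq_pos.mpr hr).ne'
  have e : Wp r y = ((normSq r)⁻¹ : ℝ) * (z6 * r ^ 2 * (starRingEnd ℂ) y) := by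
    rw [Wp, div_eq_inv_mul, ofReal_inv]
  rw [e, dt_rmul, dt_rmul]
  constructor
  · field_simp
    simp only [dt, z6, mul_re, mul_im, I_re, I_im, pow_two, conj_re, conj_im, normSq_apply]
    ring
  · field_simp
    simp only [dt, z6, mul_re, mul_im, I_re, I_im, pow_two, conj_re, conj_im, normSq_apply]
    ring

lemma top_core (hb : Body 3 K) {h : ℝ} {w y r p0 p1 : ℂ} (hr : r ≠ 0) (hw : (w, h) ∈ K)
    (hw0 : w ≠ 0)
    (h0 : FN K h w p0) (h0r : dt p0 r ≤ 0) (h1 : FN K h w p1) (h1r : dt p1 (zt 3 * r) ≤ 0)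
    (hsec : √3 * |dt (I * (z6 * r)) w| ≤ dt (z6 * r) w) (hy : (y, h) ∈ K)
    (hyr : √3 * |dt (I * r) y| < dt r y) (hyw : normSq w ≤ normSq y) :
    FN K h w (I * r) ∧ w = Wp r y := by
  have h3 := sqrt3_pos
  have h33 := sqrt3_sq
  have hrp := normSq_pos.mpr hr
  have q0 := h0.quad hb hw
  have q1 := h1.quad hb hw
  have s0 := h0.pos hb hw hw0
  have s1 := h1.pos hb hw hw0
  -- coordinates
  set w1 := dt r w with hw1
  set w2 := dt (I * r) w with hw2
  have ez1 : dt (z6 * r) w = w1 / 2 + √3 / 2 * w2 := by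
    rw [dt_mul_left]; simp only [z6]; ring
  have ez2 : dt (I * (z6 * r)) w = -(√3 / 2 * w1) + w2 / 2 := by
    have : I * (z6 * r) = (I * z6) * r := by ring
    rw [this, dt_mul_left]
    simp only [z6, mul_re, mul_im, I_re, I_im]; ring
  rw [ez1, ez2] at hsec
  have ec : √3 * (-(√3 / 2 * w1) + w2 / 2) = -(3 / 2) * w1 + √3 / 2 * w2 := by
    linear_combination (-(w1 / 2)) * h33
  have c1 : 0 ≤ w1 := by
    have := mul_le_mul_of_nonneg_left (le_abs_self (-(√3 / 2 * w1) + w2 / 2)) h3.le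
    rw [ec] at this
    linarith
  have c2 : w1 ≤ √3 * w2 := by
    have := mul_le_mul_of_nonneg_left (neg_abs_le (-(√3 / 2 * w1) + w2 / 2)) h3.le
    rw [ec] at this
    linarith
  set a0 := dt r p0 with ha0
  set b0 := dt (I * r) p0 with hb0
  set a1 := dt r p1 with ha1
  set b1 := dt (I * r) p1 with hb1
  have comm : ∀ u v : ℂ, dt u v = dt v u := fun u v => by simp only [dt]; ring
  have g1 : a0 ≤ 0 := by rw [ha0, comm]; exact h0r
  have g2 : √3 * b1 ≤ a1 := by
    rw [zt3_eq, dt_mul] at h1r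
    have e1 : dt p1 r = a1 := comm _ _
    have e2 : dt p1 (I * r) = b1 := comm _ _
    rw [e1, e2] at h1r
    simp only at h1r
    linarith
  have w0c := dt_coord r p0 w
  have w1c := dt_coord r p1 w
  have iw0 : normSq r * dt p0 (I * w) = -(a0 * w2) + b0 * w1 := by
    rw [dt_coord r p0 (I * w)]
    have e1 : dt r (I * w) = -w2 := by
      rw [hw2]; simp only [dt, mul_re, mul_im, I_re, I_im]; ring
    have e2 : dt (I * r) (I * w) = w1 := by
      rw [hw1]; simp only [dt, mul_re, mul_im, I_re, I_im]; ring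
    rw [e1, e2]; ring
  have iw1 : normSq r * dt p1 (I * w) = -(a1 * w2) + b1 * w1 := by
    rw [dt_coord r p1 (I * w)]
    have e1 : dt r (I * w) = -w2 := by
      rw [hw2]; simp only [dt, mul_re, mul_im, I_re, I_im]; ring
    have e2 : dt (I * r) (I * w) = w1 := by
      rw [hw1]; simp only [dt, mul_re, mul_im, I_re, I_im]; ring
    rw [e1, e2]; ring
  obtain ⟨k1, k2, k3⟩ := cone_core c1 c2 g1 g2
    (by rw [← w0c]; exact mul_pos hrp s0) (by rw [← w1c]; exact mul_pos hrp s1)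
    (by rw [← w0c, ← iw0, abs_mul, abs_of_pos hrp]
        have := mul_le_mul_of_nonneg_left q0 hrp.le
        linarith)
    (by rw [← w1c, ← iw1, abs_mul, abs_of_pos hrp]
        have := mul_le_mul_of_nonneg_left q1 hrp.le
        linarith)
  have hIr : I * r ≠ 0 := mul_ne_zero I_ne_zero hr
  have rr : dt r r = normSq r := dt_self r
  have rI : dt r (I * r) = 0 := by simp only [dt, mul_re, mul_im, I_re, I_im]; ring
  have Ir : dt (I * r) r = 0 := by simp only [dt, mul_re, mul_im, I_re, I_im]; ring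
  have II : dt (I * r) (I * r) = normSq r := by
    simp only [dt, mul_re, mul_im, I_re, I_im, normSq_apply]; ring
  -- the normal `I r`
  have F0 : FN K h w (I * r) := by
    apply h0.comb h1 (c := a1 * b0 - b1 * a0) (a := -a0 * normSq r) (b := a1 * normSq r) k1
      (mul_nonneg (by linarith) hrp.le) (mul_nonneg k2.le hrp.le) hIr
    intro u
    have e1 := dt_coord r p1 u
    have e0 := dt_coord r p0 u
    linear_combination a0 * e1 - a1 * e0
  have F1 : FN K h w ((√3 : ℂ) * r + I * r) := by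
    have hne : (√3 : ℂ) * r + I * r ≠ 0 := by
      rw [← add_mul]
      refine mul_ne_zero ?_ hr
      intro h
      have := congrArg Complex.im h
      simp at this
    apply h0.comb h1 (c := a1 * b0 - b1 * a0) (a := (√3 * b0 - a0) * normSq r)
      (b := (a1 - √3 * b1) * normSq r) k1
      (mul_nonneg (by have := mul_pos h3 k3; linarith) hrp.le)
      (mul_nonneg (by linarith) hrp.le) hne
    intro u
    have e1 := dt_coord r p1 u
    have e0 := dt_coord r p0 u
    have e2 : dt ((√3 : ℂ) * r + I * r) u = √3 * dt r u + dt (I * r) u := by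
      simp only [dt, add_re, add_im, mul_re, mul_im, I_re, I_im, ofReal_re, ofReal_im]; ring
    rw [e2]
    linear_combination (-(√3 * b0 - a0)) * e1 - (a1 - √3 * b1) * e0
  refine ⟨F0, ?_⟩
  obtain ⟨W1, W2⟩ := Wp_coord hr y
  set y1 := dt r y with hy1
  set y2 := dt (I * r) y with hy2
  have m1 := F1.2 _ hy rfl
  have m0 := F0.2 _ (hb.pow_mem 1 hy) rfl
  simp only [pow_one] at m1 m0
  have e2 : ∀ u, dt ((√3 : ℂ) * r + I * r) u = √3 * dt r u + dt (I * r) u := by
    intro u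
    simp only [dt, add_re, add_im, mul_re, mul_im, I_re, I_im, ofReal_re, ofReal_im]; ring
  rw [e2, e2] at m1
  have e3 : dt (I * r) (zt 3 * y) = -y2 / 2 + √3 / 2 * y1 := by
    rw [zt3_eq, hy1, hy2]
    simp only [dt, mul_re, mul_im, I_re, I_im]; ring
  rw [e3] at m0
  have n1 := dt_coord r w w
  have n2 := dt_coord r y y
  rw [dt_self] at n1 n2
  have n3 : w1 * w1 + w2 * w2 ≤ y1 * y1 + y2 * y2 := by
    rw [← hw1, ← hw2] at n1
    rw [← hy1, ← hy2] at n2
    rw [← n1, ← n2]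
    exact mul_le_mul_of_nonneg_left hyw hrp.le
  have hyr1 := neg_abs_le y2
  have hyr2 := le_abs_self y2
  have X1 : 0 < y1 / 2 + √3 / 2 * y2 := by
    have := mul_le_mul_of_nonneg_left hyr1 h3.le
    linarith
  have X2 : 0 < y1 - √3 * y2 := by
    have := mul_le_mul_of_nonneg_left hyr2 h3.le
    linarith
  set u1 := w1 - (y1 / 2 + √3 / 2 * y2) with hu1
  set u2 := w2 - (√3 / 2 * y1 - y2 / 2) with hu2
  have v1 : 0 ≤ √3 * u1 + u2 := by
    have : √3 * u1 + u2 = (√3 * w1 + w2) - (√3 * y1 + y2) := by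
      rw [hu1, hu2]; linear_combination (-(y2 / 2)) * h33
    rw [this]; linarith
  have v2 : 0 ≤ u2 := by rw [hu2]; linarith
  have v3 : 0 ≤ (y1 / 2 + √3 / 2 * y2) * (√3 * u1 + u2) + (y1 - √3 * y2) * u2 :=
    add_nonneg (mul_nonneg X1.le v1) (mul_nonneg X2.le v2)
  have v4 : √3 * (w1 * w1 + w2 * w2) = √3 * (y1 * y1 + y2 * y2) +
      2 * ((y1 / 2 + √3 / 2 * y2) * (√3 * u1 + u2) + (y1 - √3 * y2) * u2) +
      √3 * (u1 * u1 + u2 * u2) := by
    have g1 : w1 = u1 + (y1 / 2 + √3 / 2 * y2) := by rw [hu1]; ring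
    have g2 : w2 = u2 + (√3 / 2 * y1 - y2 / 2) := by rw [hu2]; ring
    rw [g1, g2]
    linear_combination (√3 * (y1 ^ 2 + y2 ^ 2) / 4 + y1 * u2) * h33
  have v5 : u1 * u1 + u2 * u2 ≤ 0 := by
    have : √3 * (u1 * u1 + u2 * u2) ≤ 0 := by
      have := mul_le_mul_of_nonneg_left n3 h3.le
      linarith
    by_contra hcon
    have := mul_pos h3 (not_le.mp hcon)
    linarith
  have v6 : u1 = 0 := by
    have := mul_self_nonneg u1
    have := mul_self_nonneg u2
    exact mul_self_eq_zero.mp (by linarith)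
  have v7 : u2 = 0 := by
    have := mul_self_nonneg u1
    have := mul_self_nonneg u2
    exact mul_self_eq_zero.mp (by linarith)
  apply eq_of_coord hr
  · rw [W1]; linarith
  · rw [W2]; linarith

end Pool.Agent.Illum.Rot
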