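import Pool.Agent.Illum.RotG

set_option autoImplicit false
set_option linter.unusedSectionVars false
set_option linter.style.longLine false

/-!
# Order three: bodies whose projection is a triangle
-/

namespace Pool.Agent.Illum.Rot

open Set Filter Topology Complex

variable {K : Set (ℂ × ℝ)} {zm zM c0 : ℝ}

lemma zt3_eq : zt 3 = ⟨-1 / 2, √3 / 2⟩ := by
  have e : (2 * Real.pi / (3:ℕ) : ℝ) = Real.pi - Real.pi / 3 := by push_cast; ring
  apply Complex.ext
  · simp only [zt]
    rw [e, Real.cos_pi_sub, Real.cos_pi_div_three]; ring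
  · simp only [zt]
    rw [e, Real.sin_pi_sub, Real.sin_pi_div_three]

lemma zt3_cube : zt 3 ^ 3 = 1 := (zt_prim (n := 3) (by norm_num)).pow_eq_one

lemma zt3_sum : zt 3 ^ 2 + zt 3 + 1 = 0 := by
  have h : √3 * √3 = 3 := Real.mul_self_sqrt (by norm_num)
  rw [zt3_eq]
  apply Complex.ext
  · simp only [pow_two, mul_re, add_re, one_re, zero_re]; nlinarith
  · simp only [pow_two, mul_im, add_im, one_im, zero_im]; nlinarith

/-- the vertices -/
noncomputable def Vt (V : ℂ) (j : ℕ) : ℂ := zt 3 ^ j * V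

lemma Vt_sum (V : ℂ) (j : ℕ) : Vt V j + Vt V (j + 1) + Vt V (j + 2) = 0 := by
  have := zt3_sum
  simp only [Vt]
  linear_combination (zt 3 ^ j * V) * this

lemma Vt_three (V : ℂ) (j : ℕ) : Vt V (j + 3) = Vt V j := by
  have := zt3_cube
  simp only [Vt]
  linear_combination (zt 3 ^ j * V) * this

lemma dt_Vt_sum (p V : ℂ) (j : ℕ) : dt p (Vt V j) + dt p (Vt V (j + 1)) + dt p (Vt V (j + 2)) = 0 := by
  rw [← dt_add, ← dt_add, Vt_sum, dt_zero]

lemma Vt_sum_dt (V w : ℂ) (j : ℕ) : dt (Vt V j) w + dt (Vt V (j + 1)) w + dt (Vt V (j + 2)) w = 0 := by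
  have h := Vt_sum V j
  have h1 := congrArg Complex.re h
  have h2 := congrArg Complex.im h
  simp only [add_re, add_im, zero_re, zero_im] at h1 h2
  simp only [dt]
  linear_combination w.re * h1 + w.im * h2

/-- the frame identity -/
lemma Vt_frame (p V w : ℂ) (j : ℕ) :
    dt (Vt V j) w * dt p (Vt V j) + dt (Vt V (j + 1)) w * dt p (Vt V (j + 1)) +
      dt (Vt V (j + 2)) w * dt p (Vt V (j + 2)) = 3 / 2 * normSq V * dt p w := by
  have h : √3 ^ 2 = 3 := Real.sq_sqrt (by norm_num)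
  have hnorm : normSq (Vt V j) = normSq V := by
    simp only [Vt]
    rw [map_mul, map_pow, normSq_zt, one_pow, one_mul]
  have e1 : Vt V (j + 1) = zt 3 * Vt V j := by simp only [Vt]; ring
  have e2 : Vt V (j + 2) = zt 3 * (zt 3 * Vt V j) := by simp only [Vt]; ring
  rw [← hnorm, e1, e2, zt3_eq]
  set U := Vt V j
  simp only [dt, mul_re, mul_im, normSq_apply]
  ring_nf
  have h4 : √3 ^ 4 = 9 := by
    have : √3 ^ 4 = (√3 ^ 2) ^ 2 := by ring
    rw [this, h]; norm_num
  have h3 : √3 ^ 3 = 3 * √3 := by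
    have : √3 ^ 3 = (√3 ^ 2) * √3 := by ring
    rw [this, h]
  simp only [h4, h3, h]
  ring

/-- barycentric coordinates -/
noncomputable def lam (V : ℂ) (j : ℕ) (w : ℂ) : ℝ := (1 + 2 * dt (Vt V j) w / normSq V) / 3

lemma lam_sum (V w : ℂ) (j : ℕ) : lam V j w + lam V (j + 1) w + lam V (j + 2) w = 1 := by
  have h := Vt_sum_dt V w j
  simp only [lam]
  have : 2 * dt (Vt V j) w / normSq V + 2 * dt (Vt V (j + 1)) w / normSq V +
      2 * dt (Vt V (j + 2)) w / normSq V = 0 := by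
    rw [← add_div, ← add_div, ← mul_add, ← mul_add, h, mul_zero, zero_div]
  linarith

lemma lam_dt {V : ℂ} (hV : V ≠ 0) (p w : ℂ) (j : ℕ) :
    dt p w = lam V j w * dt p (Vt V j) + lam V (j + 1) w * dt p (Vt V (j + 1)) +
      lam V (j + 2) w * dt p (Vt V (j + 2)) := by
  have h1 := Vt_frame p V w j
  have h2 := dt_Vt_sum p V j
  have hV' : normSq V ≠ 0 := (normSq_pos.mpr hV).ne'
  simp only [lam]
  field_simp
  linear_combination (-2) * h1 - normSq V * h2

lemma lam_continuous (V : ℂ) (j : ℕ) : Continuous (lam V j) := by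
  unfold lam
  have : Continuous (fun w => dt (Vt V j) w) := by fun_prop
  fun_prop

/-- the real-number core -/
lemma core_pos {hk hl hj lk ll s D Z t m : ℝ} (hsum : hk + hl + hj = 0) (hlam : lk + ll = 1)
    (hll : 0 ≤ ll) (hkl : ll ≤ lk) (hD : 0 < D) (h0 : hk ≠ 0 ∨ hl ≠ 0 ∨ s ≠ 0)
    (c1 : hk ≤ lk * hk + ll * hl + s * D) (c2 : hl ≤ lk * hk + ll * hl + s * D)
    (c3 : hj ≤ lk * hk + ll * hl + s * D) (hm : 1 ≤ m)
    (c4 : s * Z ≤ lk * hk + ll * hl + (m - 1) * hk)
    (ht : ll * D - lk * Z < m * lk * t) (ht0 : 0 < t) : 0 < hk + s * t := by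
  have hlk : 0 < lk := by linarith
  have hm0 : 0 < m := by linarith
  have hllk : ll = 1 - lk := by linarith
  rcases lt_trichotomy s 0 with hs | hs | hs
  · exfalso
    have e1 : 0 < ll * (hl - hk) := by
      have : s * D < 0 := mul_neg_of_neg_of_pos hs hD
      rw [hllk] at c1 ⊢; nlinarith
    have e2 : lk * (hl - hk) < 0 := by
      have : s * D < 0 := mul_neg_of_neg_of_pos hs hD
      rw [hllk] at c2; nlinarith
    have e3 : hl - hk < 0 := by
      by_contra hcon
      have := mul_nonneg hlk.le (not_lt.mp hcon)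
      linarith
    nlinarith
  · subst hs
    simp only [zero_mul, add_zero] at c1 c2 c3 ⊢
    have e1 : 0 ≤ ll * (hl - hk) := by rw [hllk] at c1 ⊢; nlinarith
    have e2 : lk * (hl - hk) ≤ 0 := by rw [hllk] at c2; nlinarith
    have e3 : hl - hk ≤ 0 := by
      by_contra hcon
      have := mul_pos hlk (not_le.mp hcon)
      linarith
    have e4 : 0 ≤ hk := by
      have : hj = -hk - hl := by linarith
      rw [this, hllk] at c3
      have e5 : 0 ≤ 3 * hk + (1 + ll) * (hl - hk) := by rw [hllk]; nlinarith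
      nlinarith
    rcases e4.lt_or_eq with h | h
    · exact h
    · exfalso
      have e6 : hl = 0 := by
        have e7 : hl ≤ 0 := by linarith
        have : hj = -hk - hl := by linarith
        rw [this, ← h] at c3
        nlinarith
      rcases h0 with h0 | h0 | h0
      · exact h0 h.symm
      · exact h0 e6
      · exact h0 rfl
  · have e2 : lk * (hl - hk) ≤ s * D := by rw [hllk] at c2; nlinarith
    have e3 : ll * (lk * (hl - hk)) ≤ ll * (s * D) := mul_le_mul_of_nonneg_left e2 hll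
    have e4 : lk * (s * Z) ≤ lk * (m * hk + ll * (hl - hk)) := by
      apply mul_le_mul_of_nonneg_left _ hlk.le
      rw [hllk] at c4 ⊢; nlinarith
    have e5 : s * (ll * D - lk * Z) < s * (m * lk * t) := mul_lt_mul_of_pos_left ht hs
    have e6 : 0 < (m * lk) * (hk + s * t) := by nlinarith
    exact (mul_pos_iff_of_pos_left (mul_pos hm0 hlk)).mp e6

lemma core_zero {hk hl hj lk ll s Z Z' t : ℝ} (hsum : hk + hl + hj = 0) (hlam : lk + ll = 1)
    (hll : 0 ≤ ll) (hkl : ll ≤ lk) (h0 : hk ≠ 0 ∨ hl ≠ 0 ∨ s ≠ 0)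
    (c1 : hk ≤ lk * hk + ll * hl) (c2 : hl ≤ lk * hk + ll * hl)
    (c3 : hj ≤ lk * hk + ll * hl)
    (c4 : s * Z ≤ lk * hk + ll * hl) (c5 : -s * Z' ≤ lk * hk + ll * hl) (hZ : 0 ≤ Z)
    (ht : t < Z') (ht0 : 0 < t) : 0 < hk + s * t := by
  have hlk : 0 < lk := by linarith
  have hllk : ll = 1 - lk := by linarith
  have e1 : 0 ≤ ll * (hl - hk) := by rw [hllk] at c1 ⊢; nlinarith
  have e2 : lk * (hl - hk) ≤ 0 := by rw [hllk] at c2; nlinarith
  have e3 : hl - hk ≤ 0 := by
    by_contra hcon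
    have := mul_pos hlk (not_le.mp hcon)
    linarith
  have e4 : ll * (hl - hk) = 0 := le_antisymm (mul_nonpos_of_nonneg_of_nonpos hll e3) e1
  have e5 : lk * hk + ll * hl = hk := by rw [hllk] at e4 ⊢; linarith
  rw [e5] at c3 c4 c5
  rcases lt_trichotomy s 0 with hs | hs | hs
  · have : -s * t < -s * Z' := mul_lt_mul_of_pos_left ht (neg_pos.mpr hs)
    linarith
  · subst hs
    simp only [zero_mul, add_zero] at c4 ⊢
    rcases c4.lt_or_eq with h | h
    · exact h
    · exfalso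
      have e6 : hl = 0 := by linarith
      rcases h0 with h0 | h0 | h0
      · exact h0 h.symm
      · exact h0 e6
      · exact h0 rfl
  · have : 0 < s * t := mul_pos hs ht0
    have : 0 ≤ s * Z := mul_nonneg hs.le hZ
    linarith

lemma eq_zero_of_dt_Vt {p V : ℂ} (hV : V ≠ 0) (j : ℕ) (h1 : dt p (Vt V j) = 0)
    (h2 : dt p (Vt V (j + 1)) = 0) : p = 0 := by
  have h3 : dt p (Vt V (j + 2)) = 0 := by have := dt_Vt_sum p V j; linarith
  have h := Vt_frame p V p j
  rw [h1, h2, h3] at h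
  by_contra hp
  have h4 := mul_pos (normSq_pos.mpr hV) (dt_self_pos hp)
  nlinarith

/-- on the silhouette one barycentric coordinate vanishes -/
lemma lam_zero_of_sil {V : ℂ} (hV : V ≠ 0) {cs : ℝ} (hK : ∀ j, (Vt V j, cs) ∈ K)
    {x : ℂ × ℝ} (hl : ∀ j, 0 ≤ lam V j x.1) (hs : Sil K x) (k : ℕ) :
    lam V k x.1 = 0 ∨ lam V (k + 1) x.1 = 0 ∨ lam V (k + 2) x.1 = 0 := by
  by_contra hcon
  push Not at hcon
  obtain ⟨n0, n1, n2⟩ := hcon
  have p0 := lt_of_le_of_ne (hl k) n0.symm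
  have p1 := lt_of_le_of_ne (hl (k + 1)) n1.symm
  have p2 := lt_of_le_of_ne (hl (k + 2)) n2.symm
  obtain ⟨g, hg, hn⟩ := hs
  have q0 := hn _ (hK k)
  have q1 := hn _ (hK (k + 1))
  have q2 := hn _ (hK (k + 2))
  simp only [zero_mul, add_zero] at q0 q1 q2
  have hsum := lam_sum V x.1 k
  have hdt := lam_dt hV g x.1 k
  have hz := dt_Vt_sum g V k
  have m0 := mul_nonneg p0.le (sub_nonneg.mpr q0)
  have m1 := mul_nonneg p1.le (sub_nonneg.mpr q1)
  have m2 := mul_nonneg p2.le (sub_nonneg.mpr q2)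
  have tot : lam V k x.1 * (dt g x.1 - dt g (Vt V k)) +
      lam V (k + 1) x.1 * (dt g x.1 - dt g (Vt V (k + 1))) +
      lam V (k + 2) x.1 * (dt g x.1 - dt g (Vt V (k + 2))) = 0 := by
    linear_combination dt g x.1 * hsum + hdt
  have z0 : lam V k x.1 * (dt g x.1 - dt g (Vt V k)) = 0 := by linarith
  have z1 : lam V (k + 1) x.1 * (dt g x.1 - dt g (Vt V (k + 1))) = 0 := by linarith
  have z2 : lam V (k + 2) x.1 * (dt g x.1 - dt g (Vt V (k + 2))) = 0 := by linarith
  have y0 := (mul_eq_zero.mp z0).resolve_left n0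
  have y1 := (mul_eq_zero.mp z1).resolve_left n1
  have y2 := (mul_eq_zero.mp z2).resolve_left n2
  apply hg
  apply eq_zero_of_dt_Vt hV k <;> linarith

end Pool.Agent.Illum.Rot
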