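import Pool.Agent.Illum.RotTri

set_option autoImplicit false
set_option linter.unusedSectionVars false
set_option linter.style.longLine false

/-!
# Order three, triangular projection: the covering
-/

namespace Pool.Agent.Illum.Rot

open Set Filter Topology Complex

variable {K : Set (ℂ × ℝ)} {zm zM c0 : ℝ}

/-- data at a silhouette point: a maximal coordinate `lk`, the other one `ll` -/
lemma sil_data {V : ℂ} (hV : V ≠ 0) {cs : ℝ} (hK : ∀ j, (Vt V j, cs) ∈ K)
    {x : ℂ × ℝ} (hl : ∀ j, 0 ≤ lam V j x.1) (hs : Sil K x) :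
    ∃ k ∈ Finset.range 3, ∃ a b : ℕ, (∀ p : ℂ, dt p (Vt V k) + dt p (Vt V a) + dt p (Vt V b) = 0) ∧
      lam V k x.1 + lam V a x.1 = 1 ∧ lam V b x.1 = 0 ∧ 0 ≤ lam V a x.1 ∧
      lam V a x.1 ≤ lam V k x.1 ∧
      (∀ p, dt p x.1 = lam V k x.1 * dt p (Vt V k) + lam V a x.1 * dt p (Vt V a)) ∧
      (∀ j, lam V j x.1 ≤ lam V k x.1) ∧ (∀ p : ℂ, dt p (Vt V k) = 0 → dt p (Vt V a) = 0 → p = 0) := by
  obtain ⟨k, hk, hmax⟩ := exists_max_dir (by norm_num : 0 < 3) zt3_cube V x.1
  have hVp := normSq_pos.mpr hV
  have hmax' : ∀ j, lam V j x.1 ≤ lam V k x.1 := by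
    intro j
    have h1 := hmax j
    have h2 : 2 * dt (Vt V j) x.1 / normSq V ≤ 2 * dt (Vt V k) x.1 / normSq V :=
      div_le_div_of_nonneg_right (by simp only [Vt]; linarith) hVp.le
    unfold lam
    linarith
  have hsum := lam_sum V x.1 k
  have hkpos : 0 < lam V k x.1 := by
    have := hmax' (k + 1)
    have := hmax' (k + 2)
    linarith
  refine ⟨k, hk, ?_⟩
  rcases lam_zero_of_sil hV hK hl hs k with h | h | h
  · exact absurd h hkpos.ne'
  · refine ⟨k + 2, k + 1, fun p => ?_, by linarith, h, hl _, hmax' _, fun p => ?_, hmax',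
      fun p h1 h2 => ?_⟩
    · have := dt_Vt_sum p V k; linarith
    · have := lam_dt hV p x.1 k
      rw [this, h]; ring
    · have := dt_Vt_sum p V k
      exact eq_zero_of_dt_Vt hV k h1 (by linarith)
  · refine ⟨k + 1, k + 2, fun p => ?_, by linarith, h, hl _, hmax' _, fun p => ?_, hmax',
      fun p h1 h2 => ?_⟩
    · have := dt_Vt_sum p V k; linarith
    · have := lam_dt hV p x.1 k
      rw [this, h]; ring
    · exact eq_zero_of_dt_Vt hV k h1 h2

/-- parameters for the triangular case -/
structure TriPar (K : Set (ℂ × ℝ)) (zm zM cs : ℝ) (V : ℂ) (t t' : ℝ) : Prop where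
  t_pos : 0 < t
  t'_pos : 0 < t'
  up : ∀ x ∈ K, Sil K x → cs < x.2 → ∃ m, 1 ≤ m ∧
    (∀ k p s, Nrm K x p s →
      s * (zM - x.2) ≤ dt p x.1 + (m - 1) * dt p (Vt V k)) ∧
    ∀ k a, lam V k x.1 + lam V a x.1 = 1 → 0 ≤ lam V a x.1 → lam V a x.1 ≤ lam V k x.1 →
      (∀ j, lam V j x.1 ≤ lam V k x.1) →
      lam V a x.1 * (x.2 - cs) - lam V k x.1 * (zM - x.2) < m * lam V k x.1 * t
  down : ∀ x ∈ K, Sil K x → x.2 < cs →
    ∀ k a, lam V k x.1 + lam V a x.1 = 1 → 0 ≤ lam V a x.1 → lam V a x.1 ≤ lam V k x.1 →
      lam V a x.1 * (cs - x.2) - lam V k x.1 * (x.2 - zm) < lam V k x.1 * t'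
  eq : t < cs - zm ∨ t' < zM - cs

theorem tri_cover (B : Bal K zm zM c0) {V : ℂ} (hV : V ≠ 0) {cs : ℝ}
    (hK : ∀ j, (Vt V j, cs) ∈ K) (hl : ∀ x ∈ K, ∀ j, 0 ≤ lam V j x.1) {t t' : ℝ}
    (P : TriPar K zm zM cs V t t' ∨ False) :
    ∃ T : Finset (ℂ × ℝ), T.card ≤ 8 ∧ K ⊆ ⋃ t ∈ T, (fun x => t + x) '' interior K := by
  replace P := P.resolve_right id
  have hcard : (Finset.range 8).card = 8 := by simp
  rw [← hcard]
  apply cover_of_illum B.conv B.comp (Finset.range 8)
    (fun i => if i < 3 then (-(Vt V i), -t) else if i < 6 then (-(Vt V (i - 3)), t') else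
      if i = 6 then ((0:ℂ), (-1:ℝ)) else ((0:ℂ), (1:ℝ)))
  intro x hx
  by_cases hs : Sil K x
  · obtain ⟨k, hk, a, b, h1, h2, h3, h4, h5, h6, h7, h8⟩ := sil_data hV hK (hl x hx) hs
    have hk3 := Finset.mem_range.mp hk
    have f1 : (∀ p s, (p ≠ 0 ∨ s ≠ 0) → Nrm K x p s → 0 < dt p (Vt V k) + s * t) →
        ∃ i ∈ Finset.range 8, ∃ τ : ℝ, 0 < τ ∧ x + τ • (if i < 3 then (-(Vt V i), -t) else
          if i < 6 then (-(Vt V (i - 3)), t') else
          if i = 6 then ((0:ℂ), (-1:ℝ)) else ((0:ℂ), (1:ℝ))) ∈ interior K := by
      intro h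
      refine ⟨k, Finset.mem_range.mpr (by omega), ?_⟩
      rw [if_pos hk3]
      apply ill_of_nrm B.conv B.hint
      intro p s hps hn
      have := h p s hps hn
      simp only [dt_neg]
      linarith
    have f2 : (∀ p s, (p ≠ 0 ∨ s ≠ 0) → Nrm K x p s → 0 < dt p (Vt V k) + (-s) * t') →
        ∃ i ∈ Finset.range 8, ∃ τ : ℝ, 0 < τ ∧ x + τ • (if i < 3 then (-(Vt V i), -t) else
          if i < 6 then (-(Vt V (i - 3)), t') else
          if i = 6 then ((0:ℂ), (-1:ℝ)) else ((0:ℂ), (1:ℝ))) ∈ interior K := by
      intro h
      refine ⟨k + 3, Finset.mem_range.mpr (by omega), ?_⟩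
      rw [if_neg (by omega), if_pos (by omega), Nat.add_sub_cancel]
      apply ill_of_nrm B.conv B.hint
      intro p s hps hn
      have := h p s hps hn
      simp only [dt_neg]
      linarith
    have hne : ∀ (p : ℂ) (s : ℝ), (p ≠ 0 ∨ s ≠ 0) → dt p (Vt V k) ≠ 0 ∨ dt p (Vt V a) ≠ 0 ∨ s ≠ 0 := by
      intro p s hps
      by_contra hcon
      push Not at hcon
      rcases hps with h | h
      · exact h (h8 p hcon.1 hcon.2.1)
      · exact h hcon.2.2
    have hle := B.le x hx
    have hneg : ∀ r : ℝ, r ≠ 0 → -r ≠ 0 := fun r hr => neg_ne_zero.mpr hr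
    rcases lt_trichotomy cs x.2 with hc | hc | hc
    · apply f1
      intro p s hps hn
      obtain ⟨m, hm1, hm2, hm3⟩ := P.up x hx hs hc
      have g1 := hn _ (hK k)
      have g2 := hn _ (hK a)
      have g3 := hn _ (hK b)
      have g4 := hm2 k p s hn
      simp only at g1 g2 g3
      rw [h6 p] at g1 g2 g3 g4
      exact core_pos (h1 p) h2 h4 h5 (D := x.2 - cs) (Z := zM - x.2) (m := m) (by linarith)
        (hne p s hps) (by linarith) (by linarith) (by linarith) hm1 (by linarith)
        (hm3 k a h2 h4 h5 h7) P.t_pos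
    · rcases P.eq with he | he
      · apply f1
        intro p s hps hn
        have g1 := hn _ (hK k)
        have g2 := hn _ (hK a)
        have g3 := hn _ (hK b)
        have g4 := hn _ B.top
        have g5 := hn _ B.bot
        simp only [dt_zero] at g1 g2 g3 g4 g5
        rw [h6 p] at g1 g2 g3 g4 g5
        rw [← hc] at g1 g2 g3 g4 g5
        exact core_zero (h1 p) h2 h4 h5 (Z := zM - cs) (Z' := cs - zm) (hne p s hps)
          (by linarith) (by linarith) (by linarith) (by linarith) (by linarith)
          (by rw [hc]; linarith) he P.t_pos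
      · apply f2
        intro p s hps hn
        have g1 := hn _ (hK k)
        have g2 := hn _ (hK a)
        have g3 := hn _ (hK b)
        have g4 := hn _ B.top
        have g5 := hn _ B.bot
        simp only [dt_zero] at g1 g2 g3 g4 g5
        rw [h6 p] at g1 g2 g3 g4 g5
        rw [← hc] at g1 g2 g3 g4 g5
        have h0' : dt p (Vt V k) ≠ 0 ∨ dt p (Vt V a) ≠ 0 ∨ -s ≠ 0 := by
          rcases hne p s hps with h | h | h
          · exact Or.inl h
          · exact Or.inr (Or.inl h)
          · exact Or.inr (Or.inr (hneg s h))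
        exact core_zero (h1 p) h2 h4 h5 (Z := cs - zm) (Z' := zM - cs) h0'
          (by linarith) (by linarith) (by linarith) (by linarith) (by linarith)
          (by rw [hc]; linarith) he P.t'_pos
    · apply f2
      intro p s hps hn
      have g1 := hn _ (hK k)
      have g2 := hn _ (hK a)
      have g3 := hn _ (hK b)
      have g5 := hn _ B.bot
      simp only [dt_zero] at g1 g2 g3 g5
      rw [h6 p] at g1 g2 g3 g5
      have h0' : dt p (Vt V k) ≠ 0 ∨ dt p (Vt V a) ≠ 0 ∨ -s ≠ 0 := by
        rcases hne p s hps with h | h | h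
        · exact Or.inl h
        · exact Or.inr (Or.inl h)
        · exact Or.inr (Or.inr (hneg s h))
      have h9 := P.down x hx hs hc k a h2 h4 h5
      exact core_pos (h1 p) h2 h4 h5 (D := cs - x.2) (Z := x.2 - zm) (m := 1) (s := -s)
        (by linarith) h0' (by linarith) (by linarith) (by linarith) le_rfl (by linarith)
        (by linarith) P.t'_pos
  · rcases vert_of_not_sil B.conv B.hint hs with h | h
    · refine ⟨6, by simp, ?_⟩
      rw [if_neg (by norm_num), if_neg (by norm_num), if_pos rfl]
      exact h
    · refine ⟨7, by simp, ?_⟩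
      rw [if_neg (by norm_num), if_neg (by norm_num), if_neg (by norm_num)]
      exact h

/-- **Order three, triangular projection.** -/
theorem cover_tri (B : Bal K zm zM c0) (hrot : ∀ x ∈ K, ((zt 3 * x.1, x.2) : ℂ × ℝ) ∈ K)
    {V : ℂ} (hV : V ≠ 0) {cs : ℝ}
    (hK : ∀ j, (Vt V j, cs) ∈ K) (hl : ∀ x ∈ K, ∀ j, 0 ≤ lam V j x.1) :
    ∃ T : Finset (ℂ × ℝ), T.card ≤ 8 ∧ K ⊆ ⋃ t ∈ T, (fun x => t + x) '' interior K := by
  have hcs := B.le _ (hK 0)
  simp only at hcs
  have hzz := B.zm_lt_zM
  have top_gen : ∀ x ∈ K, ∀ k p s, Nrm K x p s →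
      s * (zM - x.2) ≤ dt p x.1 + (1 - 1) * dt p (Vt V k) := by
    intro x _ k p s hn
    have := hn _ B.top
    simp only [dt_zero] at this
    linarith
  rcases lt_trichotomy (zM - cs) (cs - zm) with hA | hA | hA
  · refine tri_cover B hV hK hl (t := ((zM - cs) + (cs - zm)) / 2) (t' := zM - zm + 1)
      (Or.inl ⟨by linarith, by linarith, ?_, ?_, Or.inl (by linarith)⟩)
    · intro x hx _ hc
      refine ⟨1, le_rfl, top_gen x hx, ?_⟩
      intro k a h2 h4 h5 _
      have hle := B.le x hx
      have hlk : 0 < lam V k x.1 := by linarith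
      have e1 : lam V a x.1 * (x.2 - cs) ≤ lam V k x.1 * (x.2 - cs) :=
        mul_le_mul_of_nonneg_right h5 (by linarith)
      have e2 : 0 ≤ lam V k x.1 * (zM - x.2) := mul_nonneg hlk.le (by linarith)
      have e3 : lam V k x.1 * (x.2 - cs) ≤ lam V k x.1 * (zM - cs) :=
        mul_le_mul_of_nonneg_left (by linarith) hlk.le
      have e4 : lam V k x.1 * (zM - cs) < lam V k x.1 * (((zM - cs) + (cs - zm)) / 2) :=
        mul_lt_mul_of_pos_left (by linarith) hlk
      linarith
    · intro x hx _ hc k a h2 h4 h5
      have hle := B.le x hx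
      have hlk : 0 < lam V k x.1 := by linarith
      have e1 : lam V a x.1 * (cs - x.2) ≤ lam V k x.1 * (cs - x.2) :=
        mul_le_mul_of_nonneg_right h5 (by linarith)
      have e2 : 0 ≤ lam V k x.1 * (x.2 - zm) := mul_nonneg hlk.le (by linarith)
      have e3 : lam V k x.1 * (cs - x.2) < lam V k x.1 * (zM - zm + 1) :=
        mul_lt_mul_of_pos_left (by linarith) hlk
      linarith
  · -- the balanced case
    have hApos : 0 < zM - cs := by linarith
    have down_gen : ∀ x ∈ K, Sil K x → x.2 < cs →
        ∀ k a, lam V k x.1 + lam V a x.1 = 1 → 0 ≤ lam V a x.1 → lam V a x.1 ≤ lam V k x.1 →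
          lam V a x.1 * (cs - x.2) - lam V k x.1 * (x.2 - zm) < lam V k x.1 * (zM - zm + 1) := by
      intro x hx _ hc k a h2 h4 h5
      have hle := B.le x hx
      have hlk : 0 < lam V k x.1 := by linarith
      have e1 : lam V a x.1 * (cs - x.2) ≤ lam V k x.1 * (cs - x.2) :=
        mul_le_mul_of_nonneg_right h5 (by linarith)
      have e2 : 0 ≤ lam V k x.1 * (x.2 - zm) := mul_nonneg hlk.le (by linarith)
      have e3 : lam V k x.1 * (cs - x.2) < lam V k x.1 * (zM - zm + 1) :=
        mul_lt_mul_of_pos_left (by linarith) hlk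
      linarith
    by_cases hmid : ((-(1/2 : ℝ)) • V, zM) ∈ K
    · have hmid' : ∀ j, ((-(1/2 : ℝ)) • Vt V j, zM) ∈ K := by
        intro j
        induction j with
        | zero => simpa [Vt] using hmid
        | succ j ih =>
          have := hrot _ ih
          have e : zt 3 * ((-(1/2 : ℝ)) • Vt V j) = (-(1/2 : ℝ)) • Vt V (j + 1) := by
            simp only [Vt, real_smul]; ring
          simp only [e] at this
          exact this
      refine tri_cover B hV hK hl (t := 5 / 6 * (zM - cs)) (t' := zM - zm + 1)
        (Or.inl ⟨by linarith, by linarith, ?_, down_gen, Or.inl (by linarith)⟩)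
      intro x hx _ hc
      refine ⟨3 / 2, by norm_num, ?_, ?_⟩
      · intro k p s hn
        have := hn _ (hmid' k)
        simp only [dt_smul] at this
        linarith
      · intro k a h2 h4 h5 _
        have hle := B.le x hx
        have hlk : 0 < lam V k x.1 := by linarith
        have e1 : lam V a x.1 * (x.2 - cs) ≤ lam V k x.1 * (x.2 - cs) :=
          mul_le_mul_of_nonneg_right h5 (by linarith)
        have e2 : 0 ≤ lam V k x.1 * (zM - x.2) := mul_nonneg hlk.le (by linarith)
        have e3 : lam V k x.1 * (x.2 - cs) ≤ lam V k x.1 * (zM - cs) :=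
          mul_le_mul_of_nonneg_left (by linarith) hlk.le
        have e4 : 0 < lam V k x.1 * (zM - cs) := mul_pos hlk hApos
        nlinarith
    · -- compactness
      set M : ℂ → ℝ := fun w => max (max (lam V 0 w) (lam V 1 w)) (lam V 2 w) with hM
      have hMc : Continuous M :=
        ((lam_continuous V 0).max (lam_continuous V 1)).max (lam_continuous V 2)
      have hM3 : ∀ w, 1 / 3 ≤ M w := by
        intro w
        have h1 := lam_sum V w 0
        simp only [zero_add] at h1
        have h2 : lam V 0 w ≤ M w := le_trans (le_max_left _ _) (le_max_left _ _)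
        have h3 : lam V 1 w ≤ M w := le_trans (le_max_right _ _) (le_max_left _ _)
        have h4 : lam V 2 w ≤ M w := le_max_right _ _
        linarith
      set E : Set (ℂ × ℝ) := {x | x ∈ K ∧ lam V 0 x.1 * lam V 1 x.1 * lam V 2 x.1 = 0} with hE
      have hEcomp : IsCompact E := by
        apply B.comp.inter_right
        have h0 := (lam_continuous V 0).comp continuous_fst (X := ℂ × ℝ)
        have h1 := (lam_continuous V 1).comp continuous_fst (X := ℂ × ℝ)
        have h2 := (lam_continuous V 2).comp continuous_fst (X := ℂ × ℝ)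
        exact isClosed_eq ((h0.mul h1).mul h2) continuous_const
      have hEcont : Continuous (fun x : ℂ × ℝ =>
          (1 - M x.1) / M x.1 * (x.2 - cs) - (zM - x.2)) := by
        have h1 : Continuous (fun x : ℂ × ℝ => M x.1) := hMc.comp continuous_fst
        have h2 : ∀ x : ℂ × ℝ, M x.1 ≠ 0 := fun x => by have := hM3 x.1; linarith
        exact ((((continuous_const.sub h1).div h1 h2).mul
          (continuous_snd.sub continuous_const))).sub (continuous_const.sub continuous_snd)
      have hperm : ∀ b, ((-(1/2 : ℝ)) • Vt V b, zM) ∈ K → False := by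
        intro b hb
        have step : ∀ b, ((-(1/2 : ℝ)) • Vt V b, zM) ∈ K →
            ((-(1/2 : ℝ)) • Vt V (b + 1), zM) ∈ K := by
          intro b hb
          have := hrot _ hb
          have e : zt 3 * ((-(1/2 : ℝ)) • Vt V b) = (-(1/2 : ℝ)) • Vt V (b + 1) := by
            simp only [Vt, real_smul]; ring
          simp only [e] at this
          exact this
        have all : ∀ j, ((-(1/2 : ℝ)) • Vt V (b + j), zM) ∈ K := by
          intro j
          induction j with
          | zero => exact hb
          | succ j ih => exact step _ ih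
        have e : Vt V (b + 2 * b) = V := by
          simp only [Vt]
          have : b + 2 * b = 3 * b := by ring
          rw [this, pow_mul, zt3_cube, one_pow, one_mul]
        have := all (2 * b)
        rw [e] at this
        exact hmid this
      have hEle : ∀ x ∈ E, (1 - M x.1) / M x.1 * (x.2 - cs) - (zM - x.2) < zM - cs := by
        rintro x ⟨hxK, hx0⟩
        have hle := B.le x hxK
        have hsum := lam_sum V x.1 0
        simp only [zero_add] at hsum
        have l0 := hl x hxK 0
        have l1 := hl x hxK 1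
        have l2 := hl x hxK 2
        have m0 : lam V 0 x.1 ≤ M x.1 := le_trans (le_max_left _ _) (le_max_left _ _)
        have m1 : lam V 1 x.1 ≤ M x.1 := le_trans (le_max_right _ _) (le_max_left _ _)
        have m2 : lam V 2 x.1 ≤ M x.1 := le_max_right _ _
        have hM1 : M x.1 ≤ 1 := by
          apply max_le (max_le _ _) _ <;> linarith
        have hMh : 1 / 2 ≤ M x.1 := by
          rcases mul_eq_zero.mp hx0 with h | h
          · rcases mul_eq_zero.mp h with h | h <;> linarith
          · linarith
        have hMpos : 0 < M x.1 := by linarith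
        have r0 : 0 ≤ (1 - M x.1) / M x.1 := div_nonneg (by linarith) hMpos.le
        have r1 : (1 - M x.1) / M x.1 ≤ 1 := by
          rw [div_le_one hMpos]; linarith
        rcases le_or_gt x.2 cs with hc | hc
        · have : (1 - M x.1) / M x.1 * (x.2 - cs) ≤ 0 :=
            mul_nonpos_of_nonneg_of_nonpos r0 (by linarith)
          linarith
        · have e1 : (1 - M x.1) / M x.1 * (x.2 - cs) ≤ 1 * (x.2 - cs) :=
            mul_le_mul_of_nonneg_right r1 (by linarith)
          by_contra hcon
          have hcon' := not_lt.mp hcon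
          have hz : x.2 = zM := by linarith
          rw [hz] at hcon' e1
          have e2 : 1 ≤ (1 - M x.1) / M x.1 := by
            by_contra h2
            have := mul_lt_mul_of_pos_right (not_le.mp h2) hApos
            linarith
          rw [one_le_div hMpos] at e2
          have hMeq : M x.1 = 1 / 2 := by linarith
          rw [hMeq] at m0 m1 m2
          have fin : ∀ b, (∀ p : ℂ, dt p x.1 = -(1/2) * dt p (Vt V b)) → False := by
            intro b hb
            apply hperm b
            have : x.1 = (-(1/2 : ℝ)) • Vt V b := by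
              have h1 := hb (x.1 - (-(1/2 : ℝ)) • Vt V b)
              have h2 : dt (x.1 - (-(1/2 : ℝ)) • Vt V b) (x.1 - (-(1/2 : ℝ)) • Vt V b) = 0 := by
                rw [dt_sub, dt_smul, h1]; ring
              by_contra hne
              have := dt_self_pos (sub_ne_zero.mpr hne)
              linarith
            rw [← this, ← hz]
            exact hxK
          rcases mul_eq_zero.mp hx0 with h | h
          · rcases mul_eq_zero.mp h with h | h
            · apply fin 0
              intro p
              have h1 : lam V 1 x.1 = 1 / 2 := by linarith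
              have h2 : lam V 2 x.1 = 1 / 2 := by linarith
              have h3 := lam_dt hV p x.1 0
              have h4 := dt_Vt_sum p V 0
              simp only [zero_add] at h3 h4
              rw [h3, h, h1, h2]
              linarith
            · apply fin 1
              intro p
              have h1 : lam V 0 x.1 = 1 / 2 := by linarith
              have h2 : lam V 2 x.1 = 1 / 2 := by linarith
              have h3 := lam_dt hV p x.1 0
              have h4 := dt_Vt_sum p V 0
              simp only [zero_add] at h3 h4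
              rw [h3, h, h1, h2]
              linarith
          · apply fin 2
            intro p
            have h1 : lam V 0 x.1 = 1 / 2 := by linarith
            have h2 : lam V 1 x.1 = 1 / 2 := by linarith
            have h3 := lam_dt hV p x.1 0
            have h4 := dt_Vt_sum p V 0
            simp only [zero_add] at h3 h4
            rw [h3, h, h1, h2]
            linarith
      have hEmem : ∀ x ∈ K, Sil K x → x ∈ E := by
        intro x hx hs
        refine ⟨hx, ?_⟩
        have := lam_zero_of_sil hV hK (hl x hx) hs 0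
        simp only [zero_add] at this
        rcases this with h | h | h <;> rw [h] <;> ring
      obtain ⟨f0, hf0, hf1⟩ : ∃ f0 : ℝ, f0 < zM - cs ∧ ∀ x ∈ E,
          (1 - M x.1) / M x.1 * (x.2 - cs) - (zM - x.2) ≤ f0 := by
        rcases E.eq_empty_or_nonempty with h | h
        · refine ⟨zM - cs - 1, by linarith, fun x hx => ?_⟩
          rw [h] at hx
          exact absurd hx (Set.notMem_empty x)
        · obtain ⟨x0, hx0, hx1⟩ := hEcomp.exists_isMaxOn h hEcont.continuousOn
          exact ⟨_, hEle x0 hx0, fun x hx => hx1 hx⟩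
      refine tri_cover B hV hK hl (t := (max f0 0 + (zM - cs)) / 2) (t' := zM - zm + 1)
        (Or.inl ⟨?_, by linarith, ?_, down_gen, Or.inl ?_⟩)
      · have := le_max_right f0 0
        linarith
      · intro x hx hs hc
        refine ⟨1, le_rfl, top_gen x hx, ?_⟩
        intro k a h2 h4 h5 h6
        have hlk : 0 < lam V k x.1 := by linarith
        have hMk : M x.1 = lam V k x.1 := by
          apply le_antisymm
          · exact max_le (max_le (h6 0) (h6 1)) (h6 2)
          · have hk3 : lam V k = lam V (k % 3) := by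
              funext w
              have : Vt V k = Vt V (k % 3) := by
                simp only [Vt]
                congr 1
                conv_lhs => rw [← Nat.div_add_mod k 3, pow_add, pow_mul, zt3_cube, one_pow,
                  one_mul]
              simp only [lam, this]
            rw [hk3]
            have hk' : k % 3 = 0 ∨ k % 3 = 1 ∨ k % 3 = 2 := by omega
            rcases hk' with h | h | h <;> rw [h]
            · exact le_trans (le_max_left _ _) (le_max_left _ _)
            · exact le_trans (le_max_right _ _) (le_max_left _ _)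
            · exact le_max_right _ _
        have h7 := hf1 x (hEmem x hx hs)
        rw [hMk] at h7
        have h8 : lam V a x.1 = 1 - lam V k x.1 := by linarith
        have h9 : (1 - lam V k x.1) / lam V k x.1 * (x.2 - cs) - (zM - x.2) <
            (max f0 0 + (zM - cs)) / 2 := by
          have := le_max_left f0 0
          have h10 : max f0 0 < zM - cs := max_lt hf0 hApos
          linarith
        have h11 := mul_lt_mul_of_pos_left h9 hlk
        have h12 : lam V k x.1 * ((1 - lam V k x.1) / lam V k x.1 * (x.2 - cs) - (zM - x.2)) =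
            (1 - lam V k x.1) * (x.2 - cs) - lam V k x.1 * (zM - x.2) := by
          field_simp
        rw [h12] at h11
        rw [h8]
        linarith
      · have h10 : max f0 0 < zM - cs := max_lt hf0 hApos
        linarith
  · refine tri_cover B hV hK hl (t := zM - zm + 1) (t' := ((zM - cs) + (cs - zm)) / 2)
      (Or.inl ⟨by linarith, by linarith, ?_, ?_, Or.inr (by linarith)⟩)
    · intro x hx _ hc
      refine ⟨1, le_rfl, top_gen x hx, ?_⟩
      intro k a h2 h4 h5 _
      have hle := B.le x hx
      have hlk : 0 < lam V k x.1 := by linarith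
      have e1 : lam V a x.1 * (x.2 - cs) ≤ lam V k x.1 * (x.2 - cs) :=
        mul_le_mul_of_nonneg_right h5 (by linarith)
      have e2 : 0 ≤ lam V k x.1 * (zM - x.2) := mul_nonneg hlk.le (by linarith)
      have e3 : lam V k x.1 * (x.2 - cs) < lam V k x.1 * (zM - zm + 1) :=
        mul_lt_mul_of_pos_left (by linarith) hlk
      linarith
    · intro x hx _ hc k a h2 h4 h5
      have hle := B.le x hx
      have hlk : 0 < lam V k x.1 := by linarith
      have e1 : lam V a x.1 * (cs - x.2) ≤ lam V k x.1 * (cs - x.2) :=
        mul_le_mul_of_nonneg_right h5 (by linarith)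
      have e2 : 0 ≤ lam V k x.1 * (x.2 - zm) := mul_nonneg hlk.le (by linarith)
      have e3 : lam V k x.1 * (cs - x.2) ≤ lam V k x.1 * (cs - zm) :=
        mul_le_mul_of_nonneg_left (by linarith) hlk.le
      have e4 : lam V k x.1 * (cs - zm) < lam V k x.1 * (((zM - cs) + (cs - zm)) / 2) :=
        mul_lt_mul_of_pos_left (by linarith) hlk
      linarith

end Pool.Agent.Illum.Rot
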