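import Mathlib

set_option autoImplicit false
set_option linter.unusedSectionVars false

/-!
# Linear algebra of sums ordered along a subset
-/

namespace Pool.Agent.Illum

open Finset

variable {ι : Type*} [Fintype ι] [DecidableEq ι]

/-- comparison of sums over two sets with all values on the first at least those on the second -/
lemma sum_compare (u : ι → ℝ) (I R : Finset ι) (h : ∀ i ∈ I, ∀ j ∈ R, u j ≤ u i) :
    (I.card : ℝ) * ∑ j ∈ R, u j ≤ (R.card : ℝ) * ∑ i ∈ I, u i := by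
  have h1 : 0 ≤ ∑ i ∈ I, ∑ j ∈ R, (u i - u j) :=
    sum_nonneg fun i hi => sum_nonneg fun j hj => sub_nonneg.mpr (h i hi j hj)
  have h2 : ∑ i ∈ I, ∑ j ∈ R, (u i - u j) =
      (R.card : ℝ) * ∑ i ∈ I, u i - (I.card : ℝ) * ∑ j ∈ R, u j := by
    simp only [sum_sub_distrib, sum_const, nsmul_eq_mul, mul_sum]
  linarith

/-- equality case of `sum_compare` -/
lemma sum_compare_eq (u : ι → ℝ) (I R : Finset ι) (h : ∀ i ∈ I, ∀ j ∈ R, u j ≤ u i)
    (he : (R.card : ℝ) * ∑ i ∈ I, u i ≤ (I.card : ℝ) * ∑ j ∈ R, u j) :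
    ∀ i ∈ I, ∀ j ∈ R, u j = u i := by
  have h2 : ∑ i ∈ I, ∑ j ∈ R, (u i - u j) =
      (R.card : ℝ) * ∑ i ∈ I, u i - (I.card : ℝ) * ∑ j ∈ R, u j := by
    simp only [sum_sub_distrib, sum_const, nsmul_eq_mul, mul_sum]
  have h0 : ∀ i ∈ I, 0 ≤ ∑ j ∈ R, (u i - u j) :=
    fun i hi => sum_nonneg fun j hj => sub_nonneg.mpr (h i hi j hj)
  have h1 : ∑ i ∈ I, ∑ j ∈ R, (u i - u j) = 0 :=
    le_antisymm (by linarith) (sum_nonneg h0)
  intro i hi j hj
  have h3 := (sum_eq_zero_iff_of_nonneg h0).mp h1 i hi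
  have h4 := (sum_eq_zero_iff_of_nonneg
    (fun j hj => sub_nonneg.mpr (h i hi j hj))).mp h3 j hj
  linarith

variable {u : ι → ℝ} (hu : ∑ i, u i = 0) {e : ι} {I : Finset ι} (he : e ∉ I)

include hu in
/-- the sum over a strict top set is positive -/
lemma sum_top_pos (hne : u ≠ 0) {J : Finset ι} (hJ : J.Nonempty) (hJ' : J ≠ univ)
    (h : ∀ i ∈ J, ∀ j ∉ J, u j ≤ u i) : 0 < ∑ i ∈ J, u i := by
  have hs : ∑ i ∈ J, u i + ∑ i ∈ Jᶜ, u i = 0 := by rw [sum_add_sum_compl, hu]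
  have hc : J.card + Jᶜ.card = Fintype.card ι := card_add_card_compl J
  have h' : ∀ i ∈ J, ∀ j ∈ Jᶜ, u j ≤ u i := fun i hi j hj => h i hi j (mem_compl.mp hj)
  have h1 := sum_compare u J Jᶜ h'
  have hJ1 : (0:ℝ) < J.card := by exact_mod_cast hJ.card_pos
  have hJ2 : Jᶜ.Nonempty := by
    rw [nonempty_iff_ne_empty]
    intro hh
    exact hJ' ((compl_eq_empty_iff J).mp hh)
  have hJ3 : (0:ℝ) < Jᶜ.card := by exact_mod_cast hJ2.card_pos
  by_contra hcon
  push Not at hcon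
  have h2 : 0 ≤ ∑ i ∈ Jᶜ, u i := by linarith
  have he := sum_compare_eq u J Jᶜ h' (by nlinarith)
  obtain ⟨i0, hi0⟩ := hJ
  obtain ⟨j0, hj0⟩ := hJ2
  apply hne
  have hall : ∀ k, u k = u i0 := by
    intro k
    by_cases hk : k ∈ J
    · rw [← he k hk j0 hj0, he i0 hi0 j0 hj0]
    · exact he i0 hi0 k (mem_compl.mpr hk)
  have hsum : ∑ k, u k = Fintype.card ι * u i0 := by
    rw [sum_congr rfl (fun k _ => hall k), sum_const, card_univ, nsmul_eq_mul]
  rw [hu] at hsum
  have hcard : (0:ℝ) < Fintype.card ι := by exact_mod_cast Fintype.card_pos_iff.mpr ⟨i0⟩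
  have hz : u i0 = 0 := by
    rcases mul_eq_zero.mp hsum.symm with h | h
    · exact absurd h hcard.ne'
    · exact h
  funext k
  rw [hall k, hz]
  rfl

include hu he in
lemma key_sum_nonneg (h : ∀ i ∈ I, ∀ j ∉ I, j ≠ e → u j ≤ u i) :
    0 ≤ (Fintype.card ι - 1 : ℝ) * ∑ i ∈ I, u i + I.card * u e := by
  have hs : ∑ i ∈ I, u i + u e + ∑ i ∈ (insert e I)ᶜ, u i = 0 := by
    rw [← hu, ← sum_add_sum_compl (insert e I) u, sum_insert he]
    ring
  have hc : (I.card : ℝ) + 1 + ((insert e I)ᶜ.card : ℝ) = Fintype.card ι := by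
    have := card_add_card_compl (insert e I)
    rw [card_insert_of_notMem he] at this
    exact_mod_cast this
  have h1 := sum_compare u I (insert e I)ᶜ (fun i hi j hj => by
    rw [mem_compl, mem_insert, not_or] at hj
    exact h i hi j hj.2 hj.1)
  have e1 : ∑ i ∈ (insert e I)ᶜ, u i = -(∑ i ∈ I, u i) - u e := by linarith
  have e2 : ((insert e I)ᶜ.card : ℝ) = Fintype.card ι - 1 - I.card := by linarith
  rw [e1, e2] at h1
  nlinarith

include hu he in
lemma key_sum_eq (h : ∀ i ∈ I, ∀ j ∉ I, j ≠ e → u j ≤ u i)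
    (hle : (Fintype.card ι - 1 : ℝ) * ∑ i ∈ I, u i + I.card * u e ≤ 0) :
    ∀ i ∈ I, ∀ j ∉ I, j ≠ e → u j = u i := by
  have hs : ∑ i ∈ I, u i + u e + ∑ i ∈ (insert e I)ᶜ, u i = 0 := by
    rw [← hu, ← sum_add_sum_compl (insert e I) u, sum_insert he]
    ring
  have hc : (I.card : ℝ) + 1 + ((insert e I)ᶜ.card : ℝ) = Fintype.card ι := by
    have := card_add_card_compl (insert e I)
    rw [card_insert_of_notMem he] at this
    exact_mod_cast this
  have e1 : ∑ i ∈ (insert e I)ᶜ, u i = -(∑ i ∈ I, u i) - u e := by linarith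
  have e2 : ((insert e I)ᶜ.card : ℝ) = Fintype.card ι - 1 - I.card := by linarith
  have h1 := sum_compare_eq u I (insert e I)ᶜ (fun i hi j hj => by
    rw [mem_compl, mem_insert, not_or] at hj
    exact h i hi j hj.2 hj.1) (by
      rw [e1, e2]
      nlinarith)
  intro i hi j hj hje
  exact h1 i hi j (by
    rw [mem_compl, mem_insert, not_or]
    exact ⟨hje, hj⟩)

include hu he in
/-- the `minus` direction works for every point with strict top set `I` -/
lemma minus_pos (hne : u ≠ 0) (hI : I.Nonempty) (hcard : 1 < Fintype.card ι)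
    (h : ∀ i ∈ I, ∀ j ∉ I, u j ≤ u i) {t : ℝ} (ht0 : 0 ≤ t)
    (ht : t < I.card / (Fintype.card ι - 1 : ℝ)) :
    0 < ∑ i ∈ I, u i + t * u e := by
  have hI' : I ≠ univ := fun hh => he (hh ▸ mem_univ e)
  have hS := sum_top_pos hu hne hI hI' h
  have hn : (0:ℝ) < Fintype.card ι - 1 := by
    have : (1:ℝ) < Fintype.card ι := by exact_mod_cast hcard
    linarith
  have h1 := key_sum_nonneg hu he (fun i hi j hj _ => h i hi j hj)
  rw [lt_div_iff₀ hn] at ht
  rcases le_or_gt 0 (u e) with h0 | h0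
  · have := mul_nonneg ht0 h0
    linarith
  · have h2 : (Fintype.card ι - 1 : ℝ) * (t * u e) > I.card * u e := by nlinarith
    have h3 : 0 < (Fintype.card ι - 1 : ℝ) * (∑ i ∈ I, u i + t * u e) := by
      rw [mul_add]; linarith
    exact (pos_iff_pos_of_mul_pos h3).mp hn

include hu he in
/-- the `plus` direction works for every point with strict top set `I ∪ {e}` -/
lemma plus_pos (hne : u ≠ 0) (hJ' : insert e I ≠ univ) (hcard : 1 < Fintype.card ι)
    (h : ∀ i ∈ insert e I, ∀ j ∉ insert e I, u j ≤ u i) {t : ℝ}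
    (ht : I.card / (Fintype.card ι - 1 : ℝ) < t) (ht1 : t ≤ 1) :
    0 < ∑ i ∈ I, u i + t * u e := by
  have hS := sum_top_pos hu hne (insert_nonempty e I) hJ' h
  rw [sum_insert he] at hS
  have hn : (0:ℝ) < Fintype.card ι - 1 := by
    have : (1:ℝ) < Fintype.card ι := by exact_mod_cast hcard
    linarith
  have h1 := key_sum_nonneg hu he (fun i hi j hj hje =>
    h i (mem_insert_of_mem hi) j (by
      rw [mem_insert, not_or]
      exact ⟨hje, hj⟩))
  rw [div_lt_iff₀ hn] at ht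
  rcases le_or_gt (u e) 0 with h0 | h0
  · have : 0 ≤ (t - 1) * u e := mul_nonneg_of_nonpos_of_nonpos (by linarith) h0
    linarith
  · have h2 : (Fintype.card ι - 1 : ℝ) * (t * u e) > I.card * u e := by nlinarith
    have h3 : 0 < (Fintype.card ι - 1 : ℝ) * (∑ i ∈ I, u i + t * u e) := by
      rw [mul_add]; linarith
    exact (pos_iff_pos_of_mul_pos h3).mp hn

end Pool.Agent.Illum
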