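import Pool.Agent.Illum.Basic
import Pool.Agent.Illum.SimplexAlg

set_option autoImplicit false
set_option linter.unusedSectionVars false

/-!
# Bodies with the symmetries of a simplex
-/

namespace Pool.Agent.Illum

open Set Filter Topology

section

variable {d : ℕ} {E : Type*} [NormedAddCommGroup E] [NormedSpace ℝ E] [FiniteDimensional ℝ E]
  (b : AffineBasis (Fin (d + 1)) ℝ E)

lemma coord_combination {w : Fin (d + 1) → ℝ} (hw : ∑ i, w i = 1) (i : Fin (d + 1)) :
    b.coord i (∑ k, w k • b k) = w i := by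
  have h := b.coord_apply_combination_of_mem (Finset.mem_univ i) hw
  rwa [Finset.affineCombination_eq_linear_combination _ _ _ hw] at h

lemma continuous_coord (i : Fin (d + 1)) : Continuous (b.coord i) :=
  (b.coord i).continuous_of_finiteDimensional

/-- symmetry of a set under all permutations of the vertices -/
def Symm (K : Set E) : Prop :=
  ∀ σ : Equiv.Perm (Fin (d + 1)), ∀ w : Fin (d + 1) → ℝ, ∑ i, w i = 1 →
    ∑ i, w i • b i ∈ K → ∑ i, w i • b (σ i) ∈ K

variable {b} {K : Set E} (hs : Symm b K)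

include hs in
lemma symm_mem (σ : Equiv.Perm (Fin (d + 1))) {x : E} (hx : x ∈ K) :
    ∑ i, b.coord i x • b (σ i) ∈ K := by
  apply hs σ (fun i => b.coord i x) (b.sum_coord_apply_eq_one x)
  rw [b.linear_combination_coord_eq_self]
  exact hx

lemma coord_symm (σ : Equiv.Perm (Fin (d + 1))) (x : E) (j : Fin (d + 1)) :
    b.coord j (∑ i, b.coord i x • b (σ i)) = b.coord (σ.symm j) x := by
  have h1 : ∑ i, b.coord i x • b (σ i) = ∑ i, b.coord (σ.symm i) x • b i := by
    rw [← Equiv.sum_comp σ (fun i => b.coord (σ.symm i) x • b i)]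
    simp
  rw [h1, coord_combination]
  rw [Equiv.sum_comp σ.symm (fun i => b.coord i x)]
  exact b.sum_coord_apply_eq_one x

lemma apply_eq (f : E →L[ℝ] ℝ) (x : E) : f x = ∑ i, b.coord i x * f (b i) := by
  conv_lhs => rw [← b.linear_combination_coord_eq_self x]
  rw [map_sum]
  simp

include hs in
/-- a functional maximal at `x` is ordered as the coordinates of `x` -/
lemma order_of_max {x : E} (hx : x ∈ K) {f : E →L[ℝ] ℝ} (hf : ∀ z ∈ K, f z ≤ f x)
    {i j : Fin (d + 1)} (hij : b.coord j x < b.coord i x) : f (b j) ≤ f (b i) := by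
  have hne : i ≠ j := by
    rintro rfl
    exact lt_irrefl _ hij
  have h1 := hf _ (symm_mem hs (Equiv.swap i j) hx)
  rw [apply_eq (b := b) f x, map_sum] at h1
  have h2 : ∑ k, b.coord k x * (f (b k) - f (b (Equiv.swap i j k))) =
      (b.coord i x - b.coord j x) * (f (b i) - f (b j)) := by
    rw [Finset.sum_eq_add i j hne]
    · rw [Equiv.swap_apply_left, Equiv.swap_apply_right]
      ring
    · intro k _ hk
      rw [Equiv.swap_apply_of_ne_of_ne hk.1 hk.2, sub_self, mul_zero]
    · intro h
      exact absurd (Finset.mem_univ _) h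
    · intro h
      exact absurd (Finset.mem_univ _) h
  have h3 : 0 ≤ (b.coord i x - b.coord j x) * (f (b i) - f (b j)) := by
    rw [← h2]
    simp only [mul_sub, Finset.sum_sub_distrib]
    simp only [map_smul, smul_eq_mul] at h1
    linarith
  have h4 : 0 < b.coord i x - b.coord j x := sub_pos.mpr hij
  have := nonneg_of_mul_nonneg_right h3 h4
  linarith

/-- the centroid of the vertices -/
noncomputable def cen (b : AffineBasis (Fin (d + 1)) ℝ E) : E :=
  (1 / (d + 1 : ℝ)) • ∑ i, b i

/-- centred values of a functional on the vertices -/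
noncomputable def uu (b : AffineBasis (Fin (d + 1)) ℝ E) (f : E →L[ℝ] ℝ) (i : Fin (d + 1)) : ℝ :=
  f (b i - cen b)

lemma f_cen (f : E →L[ℝ] ℝ) : (d + 1 : ℝ) * f (cen b) = ∑ i, f (b i) := by
  unfold cen
  rw [map_smul, map_sum, smul_eq_mul]
  field_simp

lemma sum_uu (f : E →L[ℝ] ℝ) : ∑ i, uu b f i = 0 := by
  unfold uu
  simp only [map_sub, Finset.sum_sub_distrib, Finset.sum_const, Finset.card_univ,
    Fintype.card_fin, nsmul_eq_mul]
  have := f_cen (b := b) f
  push_cast
  linarith

lemma f_eq_uu (f : E →L[ℝ] ℝ) (x : E) : f x = f (cen b) + ∑ i, b.coord i x * uu b f i := by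
  unfold uu
  simp only [map_sub, mul_sub, Finset.sum_sub_distrib]
  rw [← Finset.sum_mul, b.sum_coord_apply_eq_one, ← apply_eq]
  ring

lemma uu_ne_zero {f : E →L[ℝ] ℝ} (hf : f ≠ 0) : uu b f ≠ 0 := by
  intro h
  apply hf
  have h1 : ∀ x, f x = f (cen b) := by
    intro x
    rw [f_eq_uu (b := b) f x, h]
    simp
  ext x
  have h2 := h1 0
  rw [map_zero] at h2
  rw [h1 x, ← h2]
  simp

include hs in
lemma uu_order {x : E} (hx : x ∈ K) {f : E →L[ℝ] ℝ} (hf : ∀ z ∈ K, f z ≤ f x)
    {i j : Fin (d + 1)} (hij : b.coord j x < b.coord i x) : uu b f j ≤ uu b f i := by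
  have := order_of_max hs hx hf hij
  unfold uu
  rw [map_sub, map_sub]
  linarith

include hs in
/-- a point with all coordinates equal is interior -/
lemma center_mem (hK : Convex ℝ K) (hint : (interior K).Nonempty) {x : E}
    (hx : ∀ i j, b.coord i x = b.coord j x) : x ∈ interior K := by
  by_contra hxn
  obtain ⟨f, hf⟩ := geometric_hahn_banach_open_point hK.interior isOpen_interior hxn
  obtain ⟨a, ha⟩ := hint
  have hfK : ∀ z ∈ K, f z ≤ f x := by
    intro z hz
    have hz' : z ∈ closure (interior K) := by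
      rw [hK.closure_interior_eq_closure_of_nonempty_interior ⟨a, ha⟩]
      exact subset_closure hz
    have hcl : IsClosed {y | f y ≤ f x} := isClosed_le f.continuous continuous_const
    exact closure_minimal (fun y hy => (hf y hy).le) hcl hz'
  have haK : a ∈ K := interior_subset ha
  -- coordinates of x
  have hxc : ∀ i, (d + 1 : ℝ) * b.coord i x = 1 := by
    intro i
    have h1 := b.sum_coord_apply_eq_one x
    rw [Finset.sum_congr rfl (fun j _ => hx j i), Finset.sum_const, Finset.card_univ,
      Fintype.card_fin, nsmul_eq_mul] at h1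
    push_cast at h1
    exact h1
  have hfx : (d + 1 : ℝ) * f x = ∑ i, f (b i) := by
    rw [apply_eq (b := b) f x, Finset.mul_sum]
    apply Finset.sum_congr rfl
    intro i _
    rw [← mul_assoc, hxc, one_mul]
  have hk : ∀ k : Fin (d + 1), ∑ i, b.coord i a * f (b (i + k)) ≤ f x := by
    intro k
    have := hfK _ (symm_mem hs (Equiv.addRight k) haK)
    rw [map_sum] at this
    simpa using this
  have hk0 : ∑ i, b.coord i a * f (b (i + 0)) < f x := by
    have := hf a ha
    rw [apply_eq (b := b) f a] at this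
    simpa using this
  have hlt : ∑ k : Fin (d + 1), ∑ i, b.coord i a * f (b (i + k)) < ∑ _k : Fin (d + 1), f x :=
    Finset.sum_lt_sum (fun k _ => hk k) ⟨0, Finset.mem_univ _, hk0⟩
  rw [Finset.sum_comm, Finset.sum_const, Finset.card_univ, Fintype.card_fin, nsmul_eq_mul] at hlt
  push_cast at hlt
  rw [hfx] at hlt
  have heq : ∑ i, ∑ k : Fin (d + 1), b.coord i a * f (b (i + k)) = ∑ i, f (b i) := by
    have : ∀ i, ∑ k : Fin (d + 1), b.coord i a * f (b (i + k)) =
        b.coord i a * ∑ k, f (b k) := by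
      intro i
      rw [← Finset.mul_sum]
      congr 1
      exact Equiv.sum_comp (Equiv.addLeft i) (fun k => f (b k))
    rw [Finset.sum_congr rfl (fun i _ => this i), ← Finset.sum_mul, b.sum_coord_apply_eq_one,
      one_mul]
  linarith

/-- the illuminating directions -/
noncomputable def dir (b : AffineBasis (Fin (d + 1)) ℝ E) (κ η : ℝ) (I : Finset (Fin (d + 1))) :
    E :=
  -(∑ i ∈ I, (b i - cen b) +
    ((I.card : ℝ) / d + (if κ ≤ I.card then -η else η)) • (b 0 - cen b))

lemma f_dir (κ η : ℝ) (I : Finset (Fin (d + 1))) (f : E →L[ℝ] ℝ) :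
    f (dir b κ η I) = -(∑ i ∈ I, uu b f i +
      ((I.card : ℝ) / d + (if κ ≤ I.card then -η else η)) * uu b f 0) := by
  unfold dir uu
  rw [map_neg, map_add, map_sum, map_smul, smul_eq_mul]

lemma continuous_dir (κ : ℝ) (I : Finset (Fin (d + 1))) :
    Continuous (fun η => dir b κ η I) := by
  unfold dir
  split_ifs <;> fun_prop

lemma illum_interior {y v : E} (hy : y ∈ interior K) :
    ∃ τ : ℝ, 0 < τ ∧ y + τ • v ∈ interior K := by
  have hcont : Tendsto (fun τ : ℝ => y + τ • v) (𝓝 0) (𝓝 (y + (0:ℝ) • v)) := by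
    apply Continuous.tendsto
    fun_prop
  rw [zero_smul, add_zero] at hcont
  have h1 : ∀ᶠ τ in 𝓝[>] (0:ℝ), y + τ • v ∈ interior K :=
    (hcont.eventually (isOpen_interior.mem_nhds hy)).filter_mono nhdsWithin_le_nhds
  obtain ⟨τ, hτ, hτ0⟩ := (h1.and self_mem_nhdsWithin).exists
  exact ⟨τ, hτ0, hτ⟩

lemma eventually_strict {J : Finset (Fin (d + 1))} {x : E}
    (h : ∀ i ∈ J, ∀ j ∉ J, b.coord j x < b.coord i x) :
    ∀ᶠ z : ℝ × E in 𝓝 (0, x), ∀ i ∈ J, ∀ j ∉ J, b.coord j z.2 < b.coord i z.2 := by
  rw [Filter.eventually_all]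
  intro i
  by_cases hi : i ∈ J
  · have : ∀ᶠ z : ℝ × E in 𝓝 (0, x), ∀ j ∉ J, b.coord j z.2 < b.coord i z.2 := by
      rw [Filter.eventually_all]
      intro j
      by_cases hj : j ∈ J
      · exact Eventually.of_forall fun z h => absurd hj h
      · have hc1 : Continuous (fun z : ℝ × E => b.coord j z.2) :=
          (continuous_coord b j).comp continuous_snd
        have hc2 : Continuous (fun z : ℝ × E => b.coord i z.2) :=
          (continuous_coord b i).comp continuous_snd
        have := (hc1.tendsto (0, x)).eventually_lt (hc2.tendsto (0, x)) (h i hi j hj)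
        filter_upwards [this] with z hz _
        exact hz
    filter_upwards [this] with z hz _
    exact hz
  · exact Eventually.of_forall fun z h => absurd h hi

end

end Pool.Agent.Illum
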