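import Pool.Agent.Illum.Simplex

set_option autoImplicit false

/-!
# Bodies with the symmetries of a simplex: the covering theorem
-/

namespace Pool.Agent.Illum

open Set Filter Topology

section

variable {d : ℕ} {E : Type*} [NormedAddCommGroup E] [NormedSpace ℝ E] [FiniteDimensional ℝ E]
  {b : AffineBasis (Fin (d + 1)) ℝ E} {K : Set E} (hs : Symm b K)

include hs in
theorem simplex_cover (hd : 0 < d) (hK : Convex ℝ K) (hcomp : IsCompact K)
    (hint : (interior K).Nonempty) :
    ∃ T : Finset E, T.card ≤ 2 ^ d ∧ K ⊆ ⋃ t ∈ T, (fun x => t + x) '' interior K := by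
  classical
  have hKne : K.Nonempty := hint.mono interior_subset
  obtain ⟨xm, hxm, hmin⟩ := hcomp.exists_isMinOn hKne (continuous_coord b 0).continuousOn
  obtain ⟨xM, hxM, hmax⟩ := hcomp.exists_isMaxOn hKne (continuous_coord b 0).continuousOn
  set Lm := b.coord 0 xm with hLm
  set LM := b.coord 0 xM with hLM
  have hlow : ∀ y ∈ K, ∀ j, Lm ≤ b.coord j y := by
    intro y hy j
    have h1 := hmin (symm_mem hs (Equiv.swap 0 j) hy)
    have h2 := coord_symm (b := b) (Equiv.swap 0 j) y 0
    simp only [Equiv.symm_swap, Equiv.swap_apply_left] at h2
    rw [← h2]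
    exact h1
  have hup : ∀ y ∈ K, ∀ j, b.coord j y ≤ LM := by
    intro y hy j
    have h1 := hmax (symm_mem hs (Equiv.swap 0 j) hy)
    have h2 := coord_symm (b := b) (Equiv.swap 0 j) y 0
    simp only [Equiv.symm_swap, Equiv.swap_apply_left] at h2
    rw [← h2]
    exact h1
  set κ := (1 - (d + 1 : ℝ) * Lm) / (LM - Lm) with hκ
  have hdR : (0:ℝ) < d := by exact_mod_cast hd
  have hcardR : ((Fintype.card (Fin (d + 1)) : ℕ) : ℝ) - 1 = d := by
    rw [Fintype.card_fin]; push_cast; ring
  have hcard1 : 1 < Fintype.card (Fin (d + 1)) := by
    rw [Fintype.card_fin]; omega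
  -- sums bounded through a subset
  have hsumlow : ∀ y ∈ K, ∀ J : Finset (Fin (d + 1)), (∀ i ∉ J, b.coord i y = Lm) →
      1 - (d + 1 : ℝ) * Lm ≤ J.card * (LM - Lm) := by
    intro y hy J hJ
    have h1 := b.sum_coord_apply_eq_one y
    rw [← Finset.sum_add_sum_compl J] at h1
    have h2 : ∑ i ∈ J, b.coord i y ≤ J.card * LM := by
      rw [← nsmul_eq_mul]
      exact Finset.sum_le_card_nsmul _ _ _ (fun i _ => hup y hy i)
    have h3 : ∑ i ∈ Jᶜ, b.coord i y = Jᶜ.card * Lm := by
      rw [Finset.sum_congr rfl (fun i hi => hJ i (Finset.mem_compl.mp hi)), Finset.sum_const,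
        nsmul_eq_mul]
    have h4 : (J.card : ℝ) + (Jᶜ.card : ℝ) = d + 1 := by
      have := Finset.card_add_card_compl J
      rw [Fintype.card_fin] at this
      exact_mod_cast this
    rw [← h4]
    rw [h3] at h1
    linarith
  have hsumup : ∀ y ∈ K, ∀ J : Finset (Fin (d + 1)), (∀ i ∈ J, b.coord i y = LM) →
      J.card * (LM - Lm) ≤ 1 - (d + 1 : ℝ) * Lm := by
    intro y hy J hJ
    have h1 := b.sum_coord_apply_eq_one y
    rw [← Finset.sum_add_sum_compl J] at h1
    have h2 : (Jᶜ.card : ℝ) * Lm ≤ ∑ i ∈ Jᶜ, b.coord i y := by
      rw [← nsmul_eq_mul]
      exact Finset.card_nsmul_le_sum _ _ _ (fun i _ => hlow y hy i)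
    have h3 : ∑ i ∈ J, b.coord i y = J.card * LM := by
      rw [Finset.sum_congr rfl hJ, Finset.sum_const, nsmul_eq_mul]
    have h4 : (J.card : ℝ) + (Jᶜ.card : ℝ) = d + 1 := by
      have := Finset.card_add_card_compl J
      rw [Fintype.card_fin] at this
      exact_mod_cast this
    rw [← h4]
    rw [h3] at h1
    linarith
  -- the two universal directions
  have hminus : ∀ (J : Finset (Fin (d + 1))), 0 ∉ J → J.Nonempty → κ ≤ J.card →
      ∀ y ∈ K, (∀ i ∈ J, ∀ j ∉ J, b.coord j y < b.coord i y) →
      ∀ η : ℝ, 0 < η → η < (J.card : ℝ) / d →
      ∃ τ : ℝ, 0 < τ ∧ y + τ • dir b κ η J ∈ interior K := by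
    intro J hJ0 hJne hJκ y hy hord η hη hη'
    apply illum_of_normals hK hint
    intro f hf hfmax
    rw [f_dir, if_pos hJκ]
    have := minus_pos (sum_uu f) hJ0 (uu_ne_zero hf) hJne hcard1
      (fun i hi j hj => uu_order hs hy hfmax (hord i hi j hj))
      (t := (J.card : ℝ) / d + -η) (by linarith) (by rw [hcardR]; linarith)
    linarith
  have hplus : ∀ (J : Finset (Fin (d + 1))), 0 ∈ J → J ≠ Finset.univ → ¬ κ ≤ (J.erase 0).card →
      ∀ y ∈ K, (∀ i ∈ J, ∀ j ∉ J, b.coord j y < b.coord i y) →
      ∀ η : ℝ, 0 < η → ((J.erase 0).card : ℝ) / d + η ≤ 1 →
      ∃ τ : ℝ, 0 < τ ∧ y + τ • dir b κ η (J.erase 0) ∈ interior K := by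
    intro J hJ0 hJne hJκ y hy hord η hη hη'
    apply illum_of_normals hK hint
    intro f hf hfmax
    rw [f_dir, if_neg hJκ]
    have := plus_pos (sum_uu f) (Finset.notMem_erase 0 J) (uu_ne_zero hf)
      (by rw [Finset.insert_erase hJ0]; exact hJne) hcard1
      (fun i hi j hj => by
        rw [Finset.insert_erase hJ0] at hi hj
        exact uu_order hs hy hfmax (hord i hi j hj))
      (t := ((J.erase 0).card : ℝ) / d + η) (by rw [hcardR]; linarith) hη'
    linarith
  -- local statement
  have hloc : ∀ x ∈ K, ∀ᶠ z : ℝ × E in 𝓝 (0, x), z.2 ∈ K → 0 < z.1 →
      ∃ I ∈ ((Finset.univ : Finset (Fin (d + 1))).erase 0).powerset, ∃ τ : ℝ, 0 < τ ∧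
        z.2 + τ • dir b κ z.1 I ∈ interior K := by
    intro x hx
    by_cases hxi : x ∈ interior K
    · have h1 : ∀ᶠ z : ℝ × E in 𝓝 (0, x), z.2 ∈ interior K :=
        (continuous_snd.tendsto ((0:ℝ), x)).eventually (isOpen_interior.mem_nhds hxi)
      filter_upwards [h1] with z hz _ _
      exact ⟨∅, by simp, illum_interior hz⟩
    · -- coordinates of x are not all equal
      obtain ⟨i0, -, hi0⟩ := Finset.exists_max_image Finset.univ (fun i => b.coord i x)
        ⟨0, Finset.mem_univ _⟩
      have hi0' : ∀ i, b.coord i x ≤ b.coord i0 x := fun i => hi0 i (Finset.mem_univ _)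
      have hnonconst : ∃ j0, b.coord j0 x < b.coord i0 x := by
        by_contra hcon
        push Not at hcon
        apply hxi
        apply center_mem hs hK hint
        intro i j
        have := hcon i
        have := hcon j
        have := hi0' i
        have := hi0' j
        linarith
      obtain ⟨j0, hj0⟩ := hnonconst
      have hLmM : Lm < LM := lt_of_le_of_lt (hlow x hx j0) (lt_of_lt_of_le hj0 (hup x hx i0))
      have hgap : 0 < LM - Lm := sub_pos.mpr hLmM
      have hη1 : ∀ c : ℝ, 0 < c → ∀ᶠ z : ℝ × E in 𝓝 (0, x), z.1 < c := fun c hc =>
        (continuous_fst.tendsto ((0:ℝ), x)).eventually (eventually_lt_nhds hc)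
      have hsub : ∀ J : Finset (Fin (d + 1)), 0 ∉ J →
          J ∈ ((Finset.univ : Finset (Fin (d + 1))).erase 0).powerset := by
        intro J hJ
        rw [Finset.mem_powerset]
        intro i hi
        exact Finset.mem_erase.mpr ⟨fun h => hJ (h ▸ hi), Finset.mem_univ _⟩
      have useMinus : ∀ (J : Finset (Fin (d + 1))), 0 ∉ J → J.Nonempty → κ ≤ J.card →
          (∀ i ∈ J, ∀ j ∉ J, b.coord j x < b.coord i x) →
          ∀ᶠ z : ℝ × E in 𝓝 (0, x), z.2 ∈ K → 0 < z.1 →
            ∃ I ∈ ((Finset.univ : Finset (Fin (d + 1))).erase 0).powerset, ∃ τ : ℝ, 0 < τ ∧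
            z.2 + τ • dir b κ z.1 I ∈ interior K := by
        intro J hJ0 hJne hJκ hJ
        have hJpos : (0:ℝ) < (J.card : ℝ) / d := by
          have : (0:ℝ) < J.card := by exact_mod_cast hJne.card_pos
          positivity
        filter_upwards [eventually_strict hJ, hη1 _ hJpos] with z hz1 hz2 hzK hz0
        exact ⟨J, hsub J hJ0, hminus J hJ0 hJne hJκ z.2 hzK hz1 z.1 hz0 hz2⟩
      have usePlus : ∀ (J : Finset (Fin (d + 1))), 0 ∈ J → J ≠ Finset.univ →
          ¬ κ ≤ (J.erase 0).card →
          (∀ i ∈ J, ∀ j ∉ J, b.coord j x < b.coord i x) →
          ∀ᶠ z : ℝ × E in 𝓝 (0, x), z.2 ∈ K → 0 < z.1 →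
            ∃ I ∈ ((Finset.univ : Finset (Fin (d + 1))).erase 0).powerset, ∃ τ : ℝ, 0 < τ ∧
            z.2 + τ • dir b κ z.1 I ∈ interior K := by
        intro J hJ0 hJne hJκ hJ
        have hcJ : (J.erase 0).card + 1 < d + 1 := by
          rw [Finset.card_erase_add_one hJ0]
          have := Finset.card_lt_card (Finset.ssubset_univ_iff.mpr hJne)
          rwa [Finset.card_univ, Fintype.card_fin] at this
        have hpos : (0:ℝ) < 1 - ((J.erase 0).card : ℝ) / d := by
          rw [sub_pos, div_lt_one hdR]
          have : (J.erase 0).card < d := by omega
          exact_mod_cast this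
        filter_upwards [eventually_strict hJ, hη1 _ hpos] with z hz1 hz2 hzK hz0
        exact ⟨J.erase 0, hsub _ (Finset.notMem_erase 0 J),
          hplus J hJ0 hJne hJκ z.2 hzK hz1 z.1 hz0 (by linarith)⟩
      by_cases hB : b.coord 0 x = Lm
      · -- minimal coordinate
        set J := Finset.univ.filter (fun i => Lm < b.coord i x) with hJ
        have h0J : (0 : Fin (d + 1)) ∉ J := by
          rw [hJ, Finset.mem_filter]
          rintro ⟨_, h⟩
          rw [hB] at h
          exact lt_irrefl _ h
        have hJc : ∀ i ∉ J, b.coord i x = Lm := by
          intro i hi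
          rw [hJ, Finset.mem_filter, not_and] at hi
          exact le_antisymm (not_lt.mp (hi (Finset.mem_univ _))) (hlow x hx i)
        have hJne : J.Nonempty := by
          refine ⟨i0, ?_⟩
          rw [hJ, Finset.mem_filter]
          exact ⟨Finset.mem_univ _, lt_of_le_of_lt (hlow x hx j0) hj0⟩
        apply useMinus J h0J hJne
        · rw [hκ, div_le_iff₀ hgap]
          exact hsumlow x hx J hJc
        · intro i hi j hj
          rw [hJc j hj]
          rw [hJ, Finset.mem_filter] at hi
          exact hi.2
      · by_cases hC : b.coord 0 x = LM
        · -- maximal coordinate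
          set J := Finset.univ.filter (fun i => b.coord i x = LM) with hJ
          have h0J : (0 : Fin (d + 1)) ∈ J := by
            rw [hJ, Finset.mem_filter]
            exact ⟨Finset.mem_univ _, hC⟩
          have hJne : J ≠ Finset.univ := by
            intro h
            have : j0 ∈ J := by rw [h]; exact Finset.mem_univ _
            rw [hJ, Finset.mem_filter] at this
            have h2 := hup x hx i0
            linarith [this.2]
          apply usePlus J h0J hJne
          · intro hle
            rw [hκ, div_le_iff₀ hgap] at hle
            have h1 := hsumup x hx J (fun i hi => by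
              rw [hJ, Finset.mem_filter] at hi
              exact hi.2)
            have h2 : ((J.erase 0).card : ℝ) + 1 = J.card := by
              exact_mod_cast Finset.card_erase_add_one h0J
            nlinarith
          · intro i hi j hj
            rw [hJ, Finset.mem_filter] at hi hj
            rw [hi.2]
            exact lt_of_le_of_ne (hup x hx j) (fun h => hj ⟨Finset.mem_univ _, h⟩)
        · -- intermediate coordinate
          have hBlt : Lm < b.coord 0 x := lt_of_le_of_ne (hlow x hx 0) (Ne.symm hB)
          have hClt : b.coord 0 x < LM := lt_of_le_of_ne (hup x hx 0) hC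
          set J := Finset.univ.filter (fun i => b.coord i x = b.coord i0 x) with hJ
          have hJs : ∀ i ∈ J, ∀ j ∉ J, b.coord j x < b.coord i x := by
            intro i hi j hj
            rw [hJ, Finset.mem_filter] at hi hj
            rw [hi.2]
            exact lt_of_le_of_ne (hi0' j) (fun h => hj ⟨Finset.mem_univ _, h⟩)
          have hJne' : J.Nonempty := ⟨i0, by rw [hJ, Finset.mem_filter]; simp⟩
          have hJne : J ≠ Finset.univ := by
            intro h
            have : j0 ∈ J := by rw [h]; exact Finset.mem_univ _
            rw [hJ, Finset.mem_filter] at this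
            linarith [this.2]
          by_cases hA1 : J.erase 0 = ∅
          · -- J = {0}
            have h0J : (0 : Fin (d + 1)) ∈ J := by
              by_contra h
              rw [Finset.erase_eq_of_notMem h] at hA1
              exact hJne'.ne_empty hA1
            apply usePlus J h0J hJne _ hJs
            rw [hA1, Finset.card_empty, hκ, div_le_iff₀ hgap]
            push Not
            push_cast
            rw [zero_mul, sub_pos]
            have h1 := b.sum_coord_apply_eq_one x
            have h2 : ∑ _i : Fin (d + 1), Lm < ∑ i, b.coord i x :=
              Finset.sum_lt_sum (fun i _ => hlow x hx i) ⟨0, Finset.mem_univ _, hBlt⟩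
            rw [Finset.sum_const, Finset.card_univ, Fintype.card_fin, nsmul_eq_mul, h1] at h2
            push_cast at h2
            exact h2
          · by_cases hA2 : insert 0 (J.erase 0) = Finset.univ
            · -- J = univ.erase 0
              have h0J : (0 : Fin (d + 1)) ∉ J := by
                intro h
                rw [Finset.insert_erase h] at hA2
                exact hJne hA2
              rw [Finset.erase_eq_of_notMem h0J] at hA2
              apply useMinus J h0J hJne' _ hJs
              have hcJ : J.card = d := by
                have := congrArg Finset.card hA2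
                rw [Finset.card_insert_of_notMem h0J, Finset.card_univ, Fintype.card_fin] at this
                omega
              rw [hκ, div_le_iff₀ hgap]
              apply hsumlow xm hxm J
              intro i hi
              have : i ∈ insert 0 J := by rw [hA2]; exact Finset.mem_univ _
              rw [Finset.mem_insert] at this
              rcases this with h | h
              · rw [h]
              · exact absurd h hi
            · -- both halves nonempty: the wall direction works at `x`
              set I := J.erase 0 with hI
              have hIne : I.Nonempty := Finset.nonempty_iff_ne_empty.mpr hA1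
              have h0I : (0 : Fin (d + 1)) ∉ I := Finset.notMem_erase 0 J
              have hwall : ∃ τ : ℝ, 0 < τ ∧ x + τ • dir b κ 0 I ∈ interior K := by
                apply illum_of_normals hK hint
                intro f hf hfmax
                have hord : ∀ i ∈ I, ∀ j ∉ I, j ≠ 0 → uu b f j ≤ uu b f i := by
                  intro i hi j hj hj0
                  refine uu_order hs hx hfmax (hJs i (Finset.mem_of_mem_erase hi) j ?_)
                  intro hjJ
                  exact hj (Finset.mem_erase.mpr ⟨hj0, hjJ⟩)
                have h1 := key_sum_nonneg (sum_uu f) h0I hord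
                rw [hcardR] at h1
                rw [f_dir]
                have hcoef : ((I.card : ℝ) / d + (if κ ≤ I.card then -(0:ℝ) else 0)) =
                    (I.card : ℝ) / d := by
                  split_ifs <;> simp
                rw [hcoef]
                have h3 : (d : ℝ) * (∑ i ∈ I, uu b f i + (I.card : ℝ) / d * uu b f 0) =
                    d * ∑ i ∈ I, uu b f i + I.card * uu b f 0 := by
                  field_simp
                rcases h1.lt_or_eq with hlt | heq
                · rw [← h3] at hlt
                  have := (pos_iff_pos_of_mul_pos hlt).mp hdR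
                  linarith
                · exfalso
                  have hall := key_sum_eq (sum_uu f) h0I hord (by rw [hcardR]; linarith)
                  obtain ⟨i1, hi1⟩ := hIne
                  have hj1 : ∃ j1, j1 ∉ I ∧ j1 ≠ 0 := by
                    by_contra hcon
                    push Not at hcon
                    apply hA2
                    ext j
                    simp only [Finset.mem_insert, Finset.mem_univ, iff_true]
                    by_cases hjI : j ∈ I
                    · exact Or.inr hjI
                    · exact Or.inl (hcon j hjI)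
                  obtain ⟨j1, hj1, hj10⟩ := hj1
                  set α := uu b f i1 with hα
                  have hval : ∀ j, j ≠ 0 → uu b f j = α := by
                    intro j hj
                    by_cases hjI : j ∈ I
                    · rw [← hall j hjI j1 hj1 hj10, hall i1 hi1 j1 hj1 hj10]
                    · exact hall i1 hi1 j hjI hj
                  have h0val : uu b f 0 = -(d : ℝ) * α := by
                    have hsum := sum_uu (b := b) f
                    rw [← Finset.add_sum_erase Finset.univ _ (Finset.mem_univ 0)] at hsum
                    rw [Finset.sum_congr rfl (fun j hj => hval j (Finset.ne_of_mem_erase hj)),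
                      Finset.sum_const, Finset.card_erase_of_mem (Finset.mem_univ _),
                      Finset.card_univ, Fintype.card_fin, nsmul_eq_mul] at hsum
                    simp only [Nat.add_sub_cancel] at hsum
                    linarith
                  have hα0 : α ≠ 0 := by
                    intro h0
                    apply uu_ne_zero hf
                    funext j
                    by_cases hj : j = 0
                    · rw [hj, h0val, h0]; simp
                    · rw [hval j hj, h0]; simp
                  have hfz : ∀ z, f z = f (cen b) + α * (1 - (d + 1) * b.coord 0 z) := by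
                    intro z
                    rw [f_eq_uu (b := b) f z]
                    congr 1
                    have hc := b.sum_coord_apply_eq_one z
                    rw [← Finset.add_sum_erase Finset.univ _ (Finset.mem_univ 0)] at hc ⊢
                    rw [h0val, Finset.sum_congr rfl (fun j hj => by
                      rw [hval j (Finset.ne_of_mem_erase hj)]), ← Finset.sum_mul]
                    have : ∑ i ∈ Finset.univ.erase 0, b.coord i z = 1 - b.coord 0 z := by
                      linarith
                    rw [this]
                    ring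
                  have hm := hfmax xm hxm
                  have hM := hfmax xM hxM
                  rw [hfz, hfz x] at hm hM
                  have hd1 : (0:ℝ) < d + 1 := by linarith
                  rcases lt_or_gt_of_ne hα0 with hneg | hpos
                  · have : 0 < -α * ((d + 1) * (LM - b.coord 0 x)) := by
                      have : 0 < LM - b.coord 0 x := by linarith
                      have : 0 < -α := by linarith
                      positivity
                    nlinarith
                  · have : 0 < α * ((d + 1) * (b.coord 0 x - Lm)) := by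
                      have : 0 < b.coord 0 x - Lm := by linarith
                      positivity
                    nlinarith
              obtain ⟨τ, hτ, hmem⟩ := hwall
              have hcont : Continuous (fun z : ℝ × E => z.2 + τ • dir b κ z.1 I) :=
                continuous_snd.add (((continuous_dir κ I).comp continuous_fst).const_smul τ)
              have hev : ∀ᶠ z : ℝ × E in 𝓝 (0, x), z.2 + τ • dir b κ z.1 I ∈ interior K :=
                (hcont.tendsto ((0:ℝ), x)).eventually (isOpen_interior.mem_nhds hmem)
              filter_upwards [hev] with z hz _ _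
              exact ⟨I, hsub I h0I, τ, hτ, hz⟩
  have hunif := hcomp.eventually_forall_of_forall_eventually (x₀ := (0:ℝ))
    (P := fun η y => y ∈ K → 0 < η →
      ∃ I ∈ ((Finset.univ : Finset (Fin (d + 1))).erase 0).powerset, ∃ τ : ℝ, 0 < τ ∧
        y + τ • dir b κ η I ∈ interior K) hloc
  have hunif' := (hunif.filter_mono (nhdsWithin_le_nhds (s := Ioi (0:ℝ))))
  obtain ⟨η, hη, hη0⟩ := (hunif'.and self_mem_nhdsWithin).exists
  obtain ⟨T, hT, hcov⟩ := cover_of_illum hK hcomp
    ((Finset.univ : Finset (Fin (d + 1))).erase 0).powerset (fun I => dir b κ η I)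
    (fun y hy => hη y hy hy hη0)
  refine ⟨T, hT.trans ?_, hcov⟩
  rw [Finset.card_powerset, Finset.card_erase_of_mem (Finset.mem_univ _), Finset.card_univ,
    Fintype.card_fin, Nat.add_sub_cancel]

end

end Pool.Agent.Illum
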